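import Pool.Agent.TH658.Xg.OV

set_option autoImplicit false
set_option linter.unusedSectionVars false

/-! Exhaustive search for orthogonal vectors is a symmetric program. -/

namespace Pool.Agent.TH658.Xg

open Finset Pool.Agent.H30R2.PS Pool.Agent.TH658.Eq Pool.Agent.TH658.Xr

/-- a gate given by one number -/
theorem gate_of_numberG {𝔊 : Type} [Group 𝔊] {X V : Type} [MulAction 𝔊 X] (H : Subgroup 𝔊)
    (U : Submodule ℚ (X → ℚ)) (x : X → ℚ) (hx : x ∈ U) (hinv : ∀ h ∈ H, ∀ F, x (h • F) = x F)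
    (v : X → V) (hv : ∀ F G, x F = x G → v F = v G) : ClassGate ℚ H 1 U v := by
  have hmv : ∀ (q : Inv ℚ 1) (a : ℚ), mv (RingHom.id ℚ) (false, false) q (a • 1) = a • 1 := by
    intro q a
    show q.1 * (a • 1) * q⁻¹.1 = a • 1
    rw [mul_smul_comm, smul_mul_assoc, mul_one, ← Units.val_mul, mul_inv_cancel, Units.val_one]
  have hent : ∀ (a : ℚ) (i j : Fin 1), (a • (1 : Mat ℚ 1)) i j = a := by
    intro a i j
    have hij : i = j := Subsingleton.elim _ _
    rw [Matrix.smul_apply, hij, Matrix.one_apply_eq, smul_eq_mul, mul_one]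
  refine ⟨Unit, RingHom.id ℚ, fun _ => (false, false), fun F _ => x F • 1, 1, ?_, ?_, ?_⟩
  · intro y i j
    have h1 : (fun F => (x F • (1 : Mat ℚ 1)) i j) = x := funext fun F => hent _ _ _
    rw [h1]
    exact hx
  · intro h F y
    show x ((h : 𝔊) • F) • (1 : Mat ℚ 1) = mv (RingHom.id ℚ) (false, false) 1 (x F • 1)
    rw [hmv, hinv h.1 h.2]
  · rintro F G ⟨q, hq⟩
    refine hv F G ?_
    have h1 : x G • (1 : Mat ℚ 1) = x F • 1 := (hq ()).trans (hmv q (x F))
    have h2 : (x G • (1 : Mat ℚ 1)) 0 0 = (x F • (1 : Mat ℚ 1)) 0 0 := by rw [h1]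
    rw [hent, hent] at h2
    exact h2.symm

variable {N d : ℕ}

theorem inner_smul (g : SymOV N d) (x : OV N d) (u v : Fin N) :
    inner (g • x) u v = inner x (g.1⁻¹ u) (g.2.1⁻¹ v) := by
  unfold inner
  refine Nat.card_congr ((g.2.2⁻¹ : Equiv.Perm (Fin d)).subtypeEquiv fun c => ?_)
  exact Iff.rfl

open Classical in
theorem inner_mem (D : ℕ) (hD : 1 ≤ D) (u v : Fin N) :
    (fun x : OV N d => (inner x u v : ℚ)) ∈ LocalOV N d D ℚ := by
  have h1 : (fun x : OV N d => (inner x u v : ℚ)) =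
      ∑ c : Fin d, fun x : OV N d => if x.A u c = true ∧ x.B v c = true then (1 : ℚ) else 0 := by
    funext x
    rw [Finset.sum_apply]
    unfold inner
    rw [Nat.card_eq_fintype_card, Fintype.card_subtype, Finset.card_filter]
    push_cast
    rfl
  rw [h1]
  refine Submodule.sum_mem _ fun c _ => Submodule.subset_span ⟨{c}, ?_, fun x x' h => ?_⟩
  · rw [Finset.card_singleton]
    exact hD
  · have h2 := (h u c (Finset.mem_singleton_self c)).1
    have h3 := (h v c (Finset.mem_singleton_self c)).2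
    show (if x.A u c = true ∧ x.B v c = true then (1 : ℚ) else 0) =
      if x'.A u c = true ∧ x'.B v c = true then (1 : ℚ) else 0
    rw [h2, h3]

open Classical in
/-- Exhaustive search is a program with two gates. -/
theorem ov_exhaustive (hN : 0 < N) (D : ℕ) (hD : 1 ≤ D) :
    ∃ (v : Fin 2 → OV N d → Prop) (H : Fin 2 → Subgroup (SymOV N d)),
      IsProgram (SymOV N d) (LocalOV N d D) v H (fun _ => 1) (fun _ => 2) ∧
      (∀ x, v 1 x ↔ HasPair x) ∧ ∑ j, 1 ^ 2 * (H j).index = N ^ 2 + 1 := by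
  let u₀ : Fin N := ⟨0, hN⟩
  let S : Subgroup (Equiv.Perm (Fin N)) := MulAction.stabilizer (Equiv.Perm (Fin N)) u₀
  have hS : S.index = N := by
    rw [MulAction.index_stabilizer_of_transitive (Equiv.Perm (Fin N)) u₀, Nat.card_eq_fintype_card,
      Fintype.card_fin]
  have hSmem : ∀ g ∈ S, (g⁻¹ : Equiv.Perm (Fin N)) u₀ = u₀ := by
    intro g hg
    exact MulAction.mem_stabilizer_iff.mp (S.inv_mem hg)
  let v : Fin 2 → OV N d → Prop := ![fun x => inner x u₀ u₀ = 0, HasPair]
  let H : Fin 2 → Subgroup (SymOV N d) := ![S.prod (S.prod ⊤), ⊤]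
  refine ⟨v, H, ?_, fun x => Iff.rfl, ?_⟩
  · intro j
    refine ⟨Nat.one_pos, ℚ, inferInstance, by norm_num, Or.inl ⟨rfl, ?_⟩⟩
    fin_cases j
    · show ClassGate ℚ (S.prod (S.prod ⊤)) 1
        (Usable (SymOV N d) ℚ (LocalOV N d D ℚ) v 0) (v 0)
      refine gate_of_numberG _ _ (fun x => (inner x u₀ u₀ : ℚ))
        (Submodule.mem_sup_left (inner_mem D hD u₀ u₀)) ?_ (v 0) ?_
      · intro g hg x
        rw [Subgroup.mem_prod, Subgroup.mem_prod] at hg
        rw [inner_smul, hSmem _ hg.1, hSmem _ hg.2.1]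
      · intro x x' h
        have h1 : inner x u₀ u₀ = inner x' u₀ u₀ := by exact_mod_cast h
        show (inner x u₀ u₀ = 0) = (inner x' u₀ u₀ = 0)
        rw [h1]
    · show ClassGate ℚ ⊤ 1 (Usable (SymOV N d) ℚ (LocalOV N d D ℚ) v 1) (v 1)
      let φ : Prop → ℚ := fun P => if P then 1 else 0
      have hφt : ∀ P : Prop, P → φ P = 1 := fun P h => if_pos h
      have hφf : ∀ P : Prop, ¬ P → φ P = 0 := fun P h => if_neg h
      let gg : Fin N × Fin N → SymOV N d := fun z => (Equiv.swap z.1 u₀, Equiv.swap z.2 u₀, 1)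
      have hgg : ∀ z x, v 0 (gg z • x) ↔ inner x z.1 z.2 = 0 := by
        intro z x
        show inner (gg z • x) u₀ u₀ = 0 ↔ _
        rw [inner_smul]
        have h1 : ((gg z).1⁻¹ : Equiv.Perm (Fin N)) u₀ = z.1 := by
          show ((Equiv.swap z.1 u₀)⁻¹ : Equiv.Perm (Fin N)) u₀ = z.1
          rw [Equiv.swap_inv, Equiv.swap_apply_right]
        have h2 : ((gg z).2.1⁻¹ : Equiv.Perm (Fin N)) u₀ = z.2 := by
          show ((Equiv.swap z.2 u₀)⁻¹ : Equiv.Perm (Fin N)) u₀ = z.2
          rw [Equiv.swap_inv, Equiv.swap_apply_right]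
        rw [h1, h2]
      have hsum : ∀ x : OV N d, ∑ z : Fin N × Fin N, φ (v 0 (gg z • x)) =
          ∑ z : Fin N × Fin N, φ (inner x z.1 z.2 = 0) := fun x =>
        Finset.sum_congr rfl fun z _ => congrArg φ (propext (hgg z x))
      refine gate_of_numberG ⊤ _ (fun x => ∑ z : Fin N × Fin N, φ (v 0 (gg z • x))) ?_ ?_ (v 1) ?_
      · have h1 : (fun x : OV N d => ∑ z : Fin N × Fin N, φ (v 0 (gg z • x))) =
            ∑ z : Fin N × Fin N, fun x : OV N d => φ (v 0 (gg z • x)) := by
          funext x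
          rw [Finset.sum_apply]
        rw [h1]
        refine Submodule.sum_mem _ fun z _ => Submodule.mem_sup_right
          (Submodule.subset_span ⟨0, by decide, gg z, φ, rfl⟩)
      · intro g _ x
        show ∑ z : Fin N × Fin N, φ (v 0 (gg z • g • x)) = ∑ z : Fin N × Fin N, φ (v 0 (gg z • x))
        rw [hsum, hsum]
        rw [← Equiv.sum_comp (Equiv.prodCongr (g.1⁻¹ : Equiv.Perm (Fin N))
          (g.2.1⁻¹ : Equiv.Perm (Fin N))) (fun z => φ (inner x z.1 z.2 = 0))]
        refine Finset.sum_congr rfl fun z _ => ?_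
        show φ (inner (g • x) z.1 z.2 = 0) = φ (inner x (g.1⁻¹ z.1) (g.2.1⁻¹ z.2) = 0)
        rw [inner_smul]
      · have h1 : ∀ x : OV N d, HasPair x ↔ ∑ z : Fin N × Fin N, φ (v 0 (gg z • x)) ≠ 0 := by
          intro x
          rw [hsum]
          have h2 : ∀ z : Fin N × Fin N, 0 ≤ φ (inner x z.1 z.2 = 0) := by
            intro z
            by_cases hz : inner x z.1 z.2 = 0
            · rw [hφt _ hz]
              norm_num
            · rw [hφf _ hz]
          rw [Ne, Finset.sum_eq_zero_iff_of_nonneg fun z _ => h2 z]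
          push Not
          constructor
          · rintro ⟨a, b, hab⟩
            refine ⟨(a, b), mem_univ _, ?_⟩
            rw [hφt _ hab]
            exact one_ne_zero
          · rintro ⟨z, _, hz⟩
            refine ⟨z.1, z.2, ?_⟩
            by_contra hn
            exact hz (hφf _ hn)
        intro x x' h
        show HasPair x = HasPair x'
        rw [propext (h1 x), propext (h1 x')]
        have h' : ∑ z : Fin N × Fin N, φ (v 0 (gg z • x)) =
          ∑ z : Fin N × Fin N, φ (v 0 (gg z • x')) := h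
        rw [h']
  · rw [Fin.sum_univ_two]
    show 1 ^ 2 * (S.prod (S.prod (⊤ : Subgroup (Equiv.Perm (Fin d))))).index +
      1 ^ 2 * (⊤ : Subgroup (SymOV N d)).index = _
    rw [Subgroup.index_prod, Subgroup.index_prod, Subgroup.index_top, Subgroup.index_top, hS]
    ring

end Pool.Agent.TH658.Xg
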