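import Pool.Agent.TH658.Xg.Clq
import Pool.Agent.TH658.Xg.OVBrute
import Mathlib.GroupTheory.GroupAction.MultipleTransitivity

set_option autoImplicit false
set_option linter.unusedSectionVars false

/-! Exhaustive search for cliques is a symmetric program. -/

namespace Pool.Agent.TH658.Xg

open Finset Pool.Agent.H30R2.PS Pool.Agent.TH658.Eq Pool.Agent.TH658.Xr
open scoped Pointwise

variable {n : ℕ}

open Classical in
/-- the number of the nonadjacent pairs in a set -/
noncomputable def missing (D : Finset (Fin n)) (G : SimpleGraph (Fin n)) : ℚ :=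
  ∑ p ∈ D.offDiag, if G.Adj p.1 p.2 then 0 else 1

theorem inv_self (g : Equiv.Perm (Fin n)) (a : Fin n) : (g⁻¹ : Equiv.Perm (Fin n)) (g a) = a :=
  g.symm_apply_apply a

theorem missing_eq_zero (D : Finset (Fin n)) (G : SimpleGraph (Fin n)) :
    missing D G = 0 ↔ ∀ a ∈ D, ∀ b ∈ D, a ≠ b → G.Adj a b := by
  classical
  unfold missing
  rw [Finset.sum_eq_zero_iff_of_nonneg fun p _ => by split_ifs <;> norm_num]
  constructor
  · intro h a ha b hb hab
    by_contra hn
    have h1 := h (a, b) (Finset.mem_offDiag.mpr ⟨ha, hb, hab⟩)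
    rw [if_neg hn] at h1
    exact one_ne_zero h1
  · intro h p hp
    obtain ⟨h1, h2, h3⟩ := Finset.mem_offDiag.mp hp
    exact if_pos (h _ h1 _ h2 h3)

theorem missing_smul (D : Finset (Fin n)) (g : Equiv.Perm (Fin n)) (hg : g • D = D)
    (G : SimpleGraph (Fin n)) : missing D (g • G) = missing D G := by
  classical
  unfold missing
  have hmem : ∀ a, g a ∈ D ↔ a ∈ D := by
    intro a
    conv_lhs => rw [← hg]
    exact Finset.smul_mem_smul_finset_iff g
  refine (Finset.sum_equiv (Equiv.prodCongr g g) (fun p => ?_) (fun p _ => ?_)).symm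
  · rw [Finset.mem_offDiag, Finset.mem_offDiag]
    show p.1 ∈ D ∧ p.2 ∈ D ∧ p.1 ≠ p.2 ↔ g p.1 ∈ D ∧ g p.2 ∈ D ∧ g p.1 ≠ g p.2
    rw [hmem, hmem, g.injective.ne_iff]
  · show (if G.Adj p.1 p.2 then (0 : ℚ) else 1) =
      if (g • G).Adj (g p.1) (g p.2) then (0 : ℚ) else 1
    rw [smul_adj, inv_self, inv_self]

theorem missing_mem (d : ℕ) (hd : 2 ≤ d) (D : Finset (Fin n)) :
    (fun G => missing D G) ∈ LocalGraph n d ℚ := by
  classical
  have h1 : (fun G => missing D G) = ∑ p ∈ D.offDiag, fun G : SimpleGraph (Fin n) =>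
      if G.Adj p.1 p.2 then (0 : ℚ) else 1 := by
    funext G
    rw [Finset.sum_apply]
    unfold missing
    refine Finset.sum_congr rfl fun p _ => ?_
    congr 1
  rw [h1]
  refine Submodule.sum_mem _ fun p _ => Submodule.subset_span ⟨{p.1, p.2}, ?_, fun G G' h => ?_⟩
  · exact Finset.card_le_two.trans hd
  · have h2 := h p.1 (Finset.mem_insert_self _ _) p.2
      (Finset.mem_insert_of_mem (Finset.mem_singleton_self _))
    show (if G.Adj p.1 p.2 then (0 : ℚ) else 1) = if G'.Adj p.1 p.2 then (0 : ℚ) else 1
    by_cases h3 : G.Adj p.1 p.2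
    · rw [if_pos h3, if_pos (h2.mp h3)]
    · rw [if_neg h3, if_neg fun h4 => h3 (h2.mpr h4)]

/-- Exhaustive search is a program with two gates. -/
theorem clique_exhaustive {k : ℕ} (hk : k ≤ n) (d : ℕ) (hd : 2 ≤ d) :
    ∃ (v : Fin 2 → SimpleGraph (Fin n) → Prop) (H : Fin 2 → Subgroup (Equiv.Perm (Fin n))),
      IsProgram (Equiv.Perm (Fin n)) (LocalGraph n d) v H (fun _ => 1) (fun _ => 2) ∧
      (∀ G, v 1 G ↔ HasClique k G) ∧ ∑ j, 1 ^ 2 * (H j).index ≤ n.choose k + 1 := by
  classical
  let f₀ : Fin k ↪ Fin n := Fin.castLEEmb hk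
  let D : Finset (Fin n) := univ.map f₀
  have hD : D.card = k := by
    rw [Finset.card_map, Finset.card_univ, Fintype.card_fin]
  let S : Subgroup (Equiv.Perm (Fin n)) := MulAction.stabilizer (Equiv.Perm (Fin n)) D
  have hS : S.index ≤ n.choose k := by
    have h1 : S.index = (MulAction.orbit (Equiv.Perm (Fin n)) D).ncard :=
      MulAction.index_stabilizer _ _
    have h2 : MulAction.orbit (Equiv.Perm (Fin n)) D ⊆
        ((univ : Finset (Fin n)).powersetCard k : Finset (Finset (Fin n))) := by
      rintro _ ⟨g, rfl⟩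
      refine Finset.mem_coe.mpr (Finset.mem_powersetCard.mpr ⟨Finset.subset_univ _, ?_⟩)
      show (g • D).card = k
      rw [Finset.card_smul_finset, hD]
    have h3 := Set.ncard_le_ncard h2 (Finset.finite_toSet _)
    rw [Set.ncard_coe_finset, Finset.card_powersetCard, Finset.card_univ, Fintype.card_fin] at h3
    rw [h1]
    exact h3
  let v : Fin 2 → SimpleGraph (Fin n) → Prop := ![fun G => missing D G = 0, HasClique k]
  let H : Fin 2 → Subgroup (Equiv.Perm (Fin n)) := ![S, ⊤]
  refine ⟨v, H, ?_, fun x => Iff.rfl, ?_⟩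
  · intro j
    refine ⟨Nat.one_pos, ℚ, inferInstance, by norm_num, Or.inl ⟨rfl, ?_⟩⟩
    fin_cases j
    · show ClassGate ℚ S 1 (Usable (Equiv.Perm (Fin n)) ℚ (LocalGraph n d ℚ) v 0) (v 0)
      refine gate_of_numberG _ _ (fun G => missing D G)
        (Submodule.mem_sup_left (missing_mem d hd D)) ?_ (v 0) ?_
      · intro g hg G
        exact missing_smul D g (MulAction.mem_stabilizer_iff.mp hg) G
      · intro G G' h
        have h1 : missing D G = missing D G' := h
        show (missing D G = 0) = (missing D G' = 0)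
        rw [h1]
    · show ClassGate ℚ ⊤ 1 (Usable (Equiv.Perm (Fin n)) ℚ (LocalGraph n d ℚ) v 1) (v 1)
      let φ : Prop → ℚ := fun P => if P then 1 else 0
      have hφt : ∀ P : Prop, P → φ P = 1 := fun P h => if_pos h
      have hφf : ∀ P : Prop, ¬ P → φ P = 0 := fun P h => if_neg h
      have hφ0 : ∀ P : Prop, 0 ≤ φ P := by
        intro P
        by_cases hP : P
        · rw [hφt _ hP]
          norm_num
        · rw [hφf _ hP]
      refine gate_of_numberG ⊤ _
        (fun G => ∑ g : Equiv.Perm (Fin n), φ (v 0 (g • G))) ?_ ?_ (v 1) ?_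
      · have h1 : (fun G : SimpleGraph (Fin n) => ∑ g : Equiv.Perm (Fin n), φ (v 0 (g • G))) =
            ∑ g : Equiv.Perm (Fin n), fun G : SimpleGraph (Fin n) => φ (v 0 (g • G)) := by
          funext G
          rw [Finset.sum_apply]
        rw [h1]
        exact Submodule.sum_mem _ fun g _ => Submodule.mem_sup_right
          (Submodule.subset_span ⟨0, by decide, g, φ, rfl⟩)
      · intro h _ G
        show ∑ g : Equiv.Perm (Fin n), φ (v 0 (g • h • G)) =
          ∑ g : Equiv.Perm (Fin n), φ (v 0 (g • G))
        refine Fintype.sum_equiv (Equiv.mulRight h) _ _ fun g => ?_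
        show φ (v 0 (g • h • G)) = φ (v 0 ((g * h) • G))
        rw [mul_smul]
      · have h1 : ∀ G, HasClique k G ↔ ∑ g : Equiv.Perm (Fin n), φ (v 0 (g • G)) ≠ 0 := by
          intro G
          rw [Ne, Finset.sum_eq_zero_iff_of_nonneg fun g _ => hφ0 _]
          push Not
          constructor
          · rintro ⟨c, hc⟩
            have hinj : Function.Injective c := by
              intro i j hij
              by_contra hn
              have h2 := hc i j hn
              rw [hij] at h2
              exact G.loopless.irrefl _ h2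
            have htr := Equiv.Perm.isMultiplyPretransitive (Fin n) k
            obtain ⟨g, hg⟩ := MulAction.exists_smul_eq (Equiv.Perm (Fin n)) (⟨c, hinj⟩ : Fin k ↪ Fin n) f₀
            have hg' : ∀ i, g (c i) = f₀ i := fun i => by
              have := congrArg (fun f : Fin k ↪ Fin n => f i) hg
              exact this
            refine ⟨g, mem_univ _, ?_⟩
            have h3 : v 0 (g • G) := by
              show missing D (g • G) = 0
              rw [missing_eq_zero]
              intro a ha b hb hab
              obtain ⟨i, _, rfl⟩ := Finset.mem_map.mp ha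
              obtain ⟨j, _, rfl⟩ := Finset.mem_map.mp hb
              have hij : i ≠ j := fun h => hab (by rw [h])
              rw [smul_adj, ← hg' i, ← hg' j, inv_self, inv_self]
              exact hc i j hij
            rw [hφt _ h3]
            exact one_ne_zero
          · rintro ⟨g, _, hg⟩
            have h3 : v 0 (g • G) := by
              by_contra hn
              exact hg (hφf _ hn)
            have h4 : missing D (g • G) = 0 := h3
            rw [missing_eq_zero] at h4
            refine ⟨fun i => g⁻¹ (f₀ i), fun i j hij => ?_⟩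
            have h5 := h4 (f₀ i) (Finset.mem_map_of_mem _ (mem_univ i)) (f₀ j)
              (Finset.mem_map_of_mem _ (mem_univ j)) (f₀.injective.ne hij)
            exact h5
        intro G G' h
        show HasClique k G = HasClique k G'
        rw [propext (h1 G), propext (h1 G')]
        have h' : ∑ g : Equiv.Perm (Fin n), φ (v 0 (g • G)) =
          ∑ g : Equiv.Perm (Fin n), φ (v 0 (g • G')) := h
        rw [h']
  · rw [Fin.sum_univ_two]
    show 1 ^ 2 * S.index + 1 ^ 2 * (⊤ : Subgroup (Equiv.Perm (Fin n))).index ≤ _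
    rw [Subgroup.index_top]
    omega

end Pool.Agent.TH658.Xg
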