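import Pool.Agent.TH658.Xg.Prog

set_option autoImplicit false
set_option linter.unusedSectionVars false

/-! From the average case to randomized programs. -/

namespace Pool.Agent.TH658.Xg

open Finset

/-- double counting -/
theorem double_count {R Ω : Type} [Fintype R] [Fintype Ω] (P : R → Ω → Prop) :
    ∑ ρ, (Nat.card {ω // P ρ ω} : ℝ) = ∑ ω, (Nat.card {ρ // P ρ ω} : ℝ) := by
  classical
  have h1 : ∀ ρ, (Nat.card {ω // P ρ ω} : ℝ) = ∑ ω, if P ρ ω then 1 else 0 := by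
    intro ρ
    rw [Nat.card_eq_fintype_card, Fintype.card_subtype, Finset.card_filter]
    push_cast
    rfl
  have h2 : ∀ ω, (Nat.card {ρ // P ρ ω} : ℝ) = ∑ ρ, if P ρ ω then 1 else 0 := by
    intro ω
    rw [Nat.card_eq_fintype_card, Fintype.card_subtype, Finset.card_filter]
    push_cast
    rfl
  rw [Finset.sum_congr rfl fun ρ _ => h1 ρ, Finset.sum_congr rfl fun ω _ => h2 ω,
    Finset.sum_comm]

/-- randomized programs which are correct with probability `2 / 3` -/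
theorem randomized_core {X Ω R : Type} [Fintype Ω] [Nonempty Ω] [Fintype R] (F G : Ω → X)
    (A : R → X → Prop) (c : R → ℝ) (P : ℝ) (hP : 0 ≤ P)
    (h : ∀ ρ, |(Nat.card {ω // A ρ (F ω)} : ℝ) - Nat.card {ω // A ρ (G ω)}| * P ≤
      c ρ * Nat.card Ω)
    (hF : ∀ ω, 2 / 3 * (Nat.card R : ℝ) ≤ Nat.card {ρ // A ρ (F ω)})
    (hG : ∀ ω, (Nat.card {ρ // A ρ (G ω)} : ℝ) ≤ 1 / 3 * Nat.card R) :
    1 / 3 * P * Nat.card R ≤ ∑ ρ, c ρ := by
  have hΩ : (0 : ℝ) < Nat.card Ω := by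
    rw [Nat.card_eq_fintype_card]
    exact_mod_cast Fintype.card_pos
  have h3 : ∀ ρ, ((Nat.card {ω // A ρ (F ω)} : ℝ) - Nat.card {ω // A ρ (G ω)}) * P ≤
      c ρ * Nat.card Ω := fun ρ =>
    (mul_le_mul_of_nonneg_right (le_abs_self _) hP).trans (h ρ)
  have h4 := Finset.sum_le_sum fun (ρ : R) (_ : ρ ∈ Finset.univ) => h3 ρ
  rw [← Finset.sum_mul, ← Finset.sum_mul, Finset.sum_sub_distrib,
    double_count fun ρ ω => A ρ (F ω), double_count fun ρ ω => A ρ (G ω)] at h4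
  have h5 : (Nat.card Ω : ℝ) * (2 / 3 * Nat.card R) ≤ ∑ ω, (Nat.card {ρ // A ρ (F ω)} : ℝ) := by
    rw [Nat.card_eq_fintype_card (α := Ω), ← nsmul_eq_mul, ← Finset.card_univ,
      ← Finset.sum_const]
    exact Finset.sum_le_sum fun ω _ => hF ω
  have h6 : ∑ ω, (Nat.card {ρ // A ρ (G ω)} : ℝ) ≤ (Nat.card Ω : ℝ) * (1 / 3 * Nat.card R) := by
    rw [Nat.card_eq_fintype_card (α := Ω), ← nsmul_eq_mul, ← Finset.card_univ,
      ← Finset.sum_const]
    exact Finset.sum_le_sum fun ω _ => hG ω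
  have h7 : (Nat.card Ω : ℝ) * (1 / 3 * Nat.card R) * P ≤ (∑ ρ, c ρ) * Nat.card Ω := by
    refine le_trans (mul_le_mul_of_nonneg_right ?_ hP) h4
    linarith
  refine le_of_mul_le_mul_right ?_ hΩ
  refine le_trans (le_of_eq ?_) h7
  ring

end Pool.Agent.TH658.Xg
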