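import Pool.Agent.TH658.Xg.Core

set_option autoImplicit false
set_option linter.unusedSectionVars false

/-! The average case bound for programs over a finite group. -/

namespace Pool.Agent.TH658.Xg

open Finset Pool.Agent.H30R2.PS Pool.Agent.TH658.Eq Pool.Agent.TH658.Xr

variable {𝔊 : Type} [Group 𝔊] [Finite 𝔊] {W Γ S : Type} [Fintype W] [Nonempty W]
  [AddCommGroup Γ] [Module (ZMod 2) Γ] [Fintype Γ] [Fintype S] [DecidableEq S] {s : ℕ}
  {X V : Type} [MulAction 𝔊 X]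

/-- The main theorem for programs over finite groups. -/
theorem average_core (B : W → (Γ →ₗ[ZMod 2] (S → ZMod 2))) (τ : ℕ) (β P : ℝ) (hP : 0 < P)
    (hβ : ∀ ψ : Chr Γ, (Nat.card {w : W // ∃ l : S → ZMod 2, τ < wt l ∧ wt l ≤ 2 * τ ∧
      ∀ h, dot l (B w h) = ψ h} : ℝ) ≤ β) (hβP : β * P ≤ Nat.card W)
    (φ : Multiplicative Γ →* 𝔊) (x : W → (S → ZMod 2) → X)
    (hx : ∀ w t h, x w (t + B w h) = φ (Multiplicative.ofAdd h) • x w t)
    (e : W → S → ZMod 2)
    (he : ∀ w, ∀ l : S → ZMod 2, wt l ≤ τ → (∀ h : Γ, dot l (B w h) = 0) → dot l (e w) = 0)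
    (L : ∀ (K : Type) [Field K], Submodule K (X → K))
    (hinv : ∀ (K : Type) [Field K], ∀ g : 𝔊, ∀ f ∈ L K, (fun x => f (g • x)) ∈ L K)
    (hL : ∀ (K : Type) [Field K], (2 : K) ≠ 0 → ∀ w, ∀ f ∈ L K,
      (fun t => f (x w t)) ∈ Sp K {l : S → ZMod 2 | wt l ≤ τ})
    (v : Fin s → X → V) (H : Fin s → Subgroup 𝔊) (r p : Fin s → ℕ)
    (hp : IsProgram 𝔊 L v H r p) (j₀ : Fin s) (T : Set V) :
    |(Nat.card {ω : W × Γ // v j₀ (x ω.1 (B ω.1 ω.2)) ∈ T} : ℝ) -
      Nat.card {ω : W × Γ // v j₀ (x ω.1 (B ω.1 ω.2 + e ω.1)) ∈ T}| * P ≤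
      ((∑ j, r j ^ p j * (H j).index : ℕ) : ℝ) * Nat.card (W × Γ) := by
  classical
  obtain ⟨s', v', Hs, Kf, iK, h2, C, hC, hcost, E, hE, hv, j₁, hj₁⟩ :=
    transfer φ S L hinv v H r p hp j₀
  set act : Γ → X → X := fun γ x => φ (Multiplicative.ofAdd γ) • x with hact
  set σ : ℝ := ((∑ j, r j ^ p j * (H j).index : ℕ) : ℝ) with hσ
  have hσ0 : 0 ≤ σ := Nat.cast_nonneg _
  have hβ' : ∀ ψ : Chr Γ, ((univ.filter fun w : W => ∃ l : S → ZMod 2,
      τ < wt l ∧ wt l ≤ 2 * τ ∧ ∀ h, dot l (B w h) = ψ h).card : ℝ) ≤ β := by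
    intro ψ
    have h1 := hβ ψ
    rwa [Nat.card_eq_fintype_card, Fintype.card_subtype] at h1
  have hβ0 : 0 ≤ β := le_trans (Nat.cast_nonneg _) (hβ' 0)
  -- the bad wirings
  have hbad : ((univ.filter fun w : W => ∃ j, ¬ Sd.GoodG (Hs j) (C j) (B w) τ).card : ℝ) ≤
      σ * β := by
    have h3 := count_bad B τ β hβ' Hs C
    refine le_trans (le_of_eq ?_) (h3.trans (mul_le_mul_of_nonneg_right ?_ hβ0))
    · congr!
    · rw [hσ]
      exact_mod_cast hcost
  let a : W → ℕ := fun w => (univ.filter fun h : Γ => v j₀ (x w (B w h)) ∈ T).card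
  let b : W → ℕ := fun w => (univ.filter fun h : Γ => v j₀ (x w (B w h + e w)) ∈ T).card
  have ha : ∀ w, a w ≤ Fintype.card Γ := fun w => Finset.card_le_univ _
  have hb : ∀ w, b w ≤ Fintype.card Γ := fun w => Finset.card_le_univ _
  have hab : ∀ w : W, (∀ j, Sd.GoodG (Hs j) (C j) (B w) τ) → a w = b w := by
    intro w hgood
    have hrun := run act (B w) (x w) (fun t h => hx w t h) Hs C hC Kf iK h2 E v' hv τ hgood
      (fun j => @L (Kf j) (iK j)) (fun j f hf => @hL (Kf j) (iK j) (h2 j) w f hf) hE j₁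
    rw [hj₁] at hrun
    have hU : ∀ l, l ∈ Sd.lightU (Hs j₁) (C j₁) (hC j₁) (B w) τ (hgood j₁) ↔
        (wt l ≤ τ ∧ ∀ h : Hs j₁, dot l (B w (h : Γ)) = 0) := fun l => Iff.rfl
    obtain ⟨h', hh⟩ := equi (B w) (Sd.lightU (Hs j₁) (C j₁) (hC j₁) (B w) τ (hgood j₁))
      (fun t => v j₀ (x w t) ∈ T) (fun e' he' t => by
        show v j₀ (x w (t + e')) ∈ T ↔ v j₀ (x w t) ∈ T
        rw [hrun e' (fun l hl hadj => he' l ((hU l).mpr ⟨hl, hadj⟩)) t]) (e w)
      (fun l hl hadj => he w l ((hU l).mp hl).1 hadj)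
    symm
    refine Finset.card_bij (fun h _ => h + h') ?_ ?_ ?_
    · intro h hm
      exact Finset.mem_filter.mpr ⟨mem_univ _, (hh h).mp (Finset.mem_filter.mp hm).2⟩
    · intro c _ d _ hcd
      exact add_right_cancel hcd
    · intro c hc
      refine ⟨c - h', Finset.mem_filter.mpr ⟨mem_univ _, (hh _).mpr ?_⟩, sub_add_cancel _ _⟩
      rw [sub_add_cancel]
      exact (Finset.mem_filter.mp hc).2
  have hcard : ∀ (Q : W × Γ → Prop), (Nat.card {ω // Q ω} : ℝ) =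
      ∑ w : W, (((univ.filter fun h : Γ => Q (w, h)).card : ℕ) : ℝ) := by
    intro Q
    rw [Nat.card_eq_fintype_card, Fintype.card_subtype, Finset.card_filter,
      Fintype.sum_prod_type]
    push_cast
    refine Finset.sum_congr rfl fun w _ => ?_
    rw [Finset.card_filter]
    push_cast
    rfl
  have hdiff : |(Nat.card {ω : W × Γ // v j₀ (x ω.1 (B ω.1 ω.2)) ∈ T} : ℝ) -
      Nat.card {ω : W × Γ // v j₀ (x ω.1 (B ω.1 ω.2 + e ω.1)) ∈ T}| ≤
      σ * β * Fintype.card Γ := by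
    rw [hcard, hcard, ← Finset.sum_sub_distrib]
    refine (Finset.abs_sum_le_sum_abs _ _).trans ?_
    have h3 : ∀ w : W, |(a w : ℝ) - (b w : ℝ)| ≤
        if ∃ j, ¬ Sd.GoodG (Hs j) (C j) (B w) τ then (Fintype.card Γ : ℝ) else 0 := by
      intro w
      split_ifs with hw
      · have h4 : (a w : ℝ) ≤ Fintype.card Γ := by exact_mod_cast ha w
        have h5 : (b w : ℝ) ≤ Fintype.card Γ := by exact_mod_cast hb w
        have h6 : (0 : ℝ) ≤ a w := Nat.cast_nonneg _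
        have h7 : (0 : ℝ) ≤ b w := Nat.cast_nonneg _
        rw [abs_le]
        constructor <;> linarith
      · push Not at hw
        rw [hab w hw, sub_self, abs_zero]
    refine (Finset.sum_le_sum fun w _ => h3 w).trans ?_
    rw [← Finset.sum_filter, Finset.sum_const, nsmul_eq_mul]
    refine mul_le_mul_of_nonneg_right ?_ (Nat.cast_nonneg _)
    exact le_trans (le_of_eq (by congr!)) hbad
  have hΩ : (Nat.card (W × Γ) : ℝ) = Nat.card W * Fintype.card Γ := by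
    rw [Nat.card_prod, Nat.card_eq_fintype_card (α := Γ)]
    push_cast
    rfl
  rw [hΩ]
  have hΓ : (0 : ℝ) ≤ Fintype.card Γ := Nat.cast_nonneg _
  calc _ ≤ σ * β * Fintype.card Γ * P := mul_le_mul_of_nonneg_right hdiff hP.le
    _ = σ * Fintype.card Γ * (β * P) := by ring
    _ ≤ σ * Fintype.card Γ * Nat.card W :=
        mul_le_mul_of_nonneg_left hβP (mul_nonneg hσ0 hΓ)
    _ = _ := by ring

end Pool.Agent.TH658.Xg
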