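import Pool.Agent.TH658.Xg.Avg
import Pool.Agent.TH658.Xr.Small

set_option autoImplicit false
set_option linter.unusedSectionVars false

/-! Random systems of tests by the Hadamard code. -/

namespace Pool.Agent.TH658.Xg

open Finset Pool.Agent.H30R2.PS Pool.Agent.TH658.Eq Pool.Agent.TH658.Xr

/-- the places of a test -/
abbrev BgU (f : ℕ) := Fin f → ZMod 2

/-- the words of the code -/
abbrev BgA (f : ℕ) := Fin (f + 1) → ZMod 2

/-- a place as a functional -/
def bgPt {f : ℕ} (u : BgU f) : BgA f := Fin.cons 1 u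

/-- the places of all tests -/
abbrev BgS (f m : ℕ) := Fin m × BgU f

/-- the variables at the places -/
abbrev BgW (f m n : ℕ) := BgS f m → Fin n

/-- the values of the variables, and words for all tests -/
abbrev BgG (f m n : ℕ) := GX n × (Fin m → BgA f)

variable {f m n : ℕ}

/-- the left sides of the equations -/
def bgB (w : BgW f m n) : BgG f m n →ₗ[ZMod 2] (BgS f m → ZMod 2) where
  toFun h := fun s => h.1 (w s) + dot (bgPt s.2) (h.2 s.1)
  map_add' h h' := by
    funext s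
    show (h.1 (w s) + h'.1 (w s)) + dot (bgPt s.2) (h.2 s.1 + h'.2 s.1) =
      (h.1 (w s) + dot (bgPt s.2) (h.2 s.1)) + (h'.1 (w s) + dot (bgPt s.2) (h'.2 s.1))
    rw [dot_add]
    ring
  map_smul' a h := by
    funext s
    show a * h.1 (w s) + dot (bgPt s.2) (a • h.2 s.1) =
      a * (h.1 (w s) + dot (bgPt s.2) (h.2 s.1))
    rw [dot_comm, smul_dot, dot_comm]
    ring

theorem bgB_apply (w : BgW f m n) (h : BgG f m n) (s : BgS f m) :
    bgB w h s = h.1 (w s) + dot (bgPt s.2) (h.2 s.1) := rfl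

theorem dot_bgB_left (w : BgW f m n) (l : BgS f m → ZMod 2) (x : GX n) :
    dot l (bgB w (x, 0)) = ∑ s, l s * x (w s) := by
  unfold dot
  refine Finset.sum_congr rfl fun s _ => ?_
  rw [bgB_apply]
  show l s * (x (w s) + dot (bgPt s.2) 0) = _
  rw [dot_zero, add_zero]

theorem dot_bgB_right (w : BgW f m n) (l : BgS f m → ZMod 2) (i : Fin m) (a : BgA f) :
    dot l (bgB w (0, Pi.single i a)) = ∑ u, l (i, u) * dot (bgPt u) a := by
  have h1 : dot l (bgB w (0, Pi.single i a)) =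
      ∑ s : BgS f m, l s * bgB w (0, Pi.single i a) s := rfl
  rw [h1, Fintype.sum_prod_type, Finset.sum_eq_single i]
  · refine Finset.sum_congr rfl fun u _ => ?_
    rw [bgB_apply]
    show l (i, u) * (0 + dot (bgPt u) ((Pi.single i a : Fin m → BgA f) i)) = _
    rw [zero_add, Pi.single_eq_same]
  · intro j _ hj
    refine Finset.sum_eq_zero fun u _ => ?_
    rw [bgB_apply]
    show l (j, u) * (0 + dot (bgPt u) ((Pi.single i a : Fin m → BgA f) j)) = 0
    rw [Pi.single_eq_of_ne hj, dot_zero, add_zero, mul_zero]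
  · intro h
    exact absurd (mem_univ _) h

/-- random equations with one variable each -/
theorem frac_one {S : Type} [Fintype S] [DecidableEq S] (hn : 0 < n) (l : S → ZMod 2)
    (hl : 0 < wt l) (ψ : Chr (GX n)) (x : ℝ) (hx : 0 < x) (hx2 : x ^ 2 = (wt l : ℝ) / n)
    [DecidablePred fun w : S → Fin n => ∀ h : GX n, ∑ s, l s * h (w s) = ψ h] :
    ((univ.filter fun w : S → Fin n => ∀ h : GX n, ∑ s, l s * h (w s) = ψ h).card : ℝ) ≤
      2 * (x * Real.exp (1 / 2)) ^ wt l * n ^ Fintype.card S := by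
  classical
  let σ : S ≃ Fin (Fintype.card S) := Fintype.equivFin S
  let l' : Fin (Fintype.card S) → ZMod 2 := fun i => l (σ.symm i)
  have hwt : wt l' = wt l := by
    unfold wt
    refine Finset.card_bij (fun i _ => σ.symm i) ?_ ?_ ?_
    · intro i hi
      exact Finset.mem_filter.mpr ⟨mem_univ _, (Finset.mem_filter.mp hi).2⟩
    · intro i _ j _ h
      exact σ.symm.injective h
    · intro s hs
      refine ⟨σ s, Finset.mem_filter.mpr ⟨mem_univ _, ?_⟩, σ.symm_apply_apply s⟩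
      show l (σ.symm (σ s)) ≠ 0
      rw [σ.symm_apply_apply]
      exact (Finset.mem_filter.mp hs).2
  have h1 := frac_le (n := n) (k := 1) (m := Fintype.card S) hn Nat.one_pos l' (by omega) ψ x hx
    (by
      rw [hx2, hwt]
      push_cast
      rw [one_mul])
  rw [one_mul, one_mul, hwt] at h1
  refine le_trans ?_ h1
  have h2 : (univ.filter fun w : S → Fin n => ∀ h : GX n, ∑ s, l s * h (w s) = ψ h).card ≤
      (univ.filter fun w : WX n 1 (Fintype.card S) => ∀ h, dot l' (BX w h) = ψ h).card := by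
    refine Finset.card_le_card_of_injOn (fun w p => w (σ.symm p.1)) ?_ ?_
    · intro w hw
      refine Finset.mem_coe.mpr (Finset.mem_filter.mpr ⟨mem_univ _, fun h => ?_⟩)
      rw [← (Finset.mem_filter.mp (Finset.mem_coe.mp hw)).2 h, ← σ.symm.sum_comp]
      unfold dot
      refine Finset.sum_congr rfl fun i _ => ?_
      rw [BX_apply, Fin.sum_univ_one]
    · intro w _ w' _ h
      funext s
      have h3 := congrFun h (σ s, 0)
      simp only [σ.symm_apply_apply] at h3
      exact h3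
  exact_mod_cast h2

/-- the sum over the support -/
theorem sum_supp {S : Type} [Fintype S] (l c : S → ZMod 2) :
    ∑ s, l s * c s = ∑ s ∈ univ.filter (fun s => l s ≠ 0), c s := by
  rw [Finset.sum_filter]
  refine Finset.sum_congr rfl fun s _ => ?_
  have h2 : ∀ x : ZMod 2, x ≠ 0 → x = 1 := by decide
  by_cases hs : l s ≠ 0
  · rw [if_pos hs, h2 _ hs, one_mul]
  · rw [if_neg hs]
    rw [not_not] at hs
    rw [hs, zero_mul]

/-- the relations of a test have weight at least three -/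
theorem three_le_wt (l : BgU f → ZMod 2) (hl : l ≠ 0)
    (h : ∀ a : BgA f, ∑ u, l u * dot (bgPt u) a = 0) : 3 ≤ wt l := by
  classical
  by_contra hn
  set Z := univ.filter fun u : BgU f => l u ≠ 0 with hZ
  have hcard : Z.card ≤ 2 := by
    have h1 : Z.card = wt l := rfl
    omega
  have hsum : ∀ a : BgA f, ∑ u ∈ Z, dot (bgPt u) a = 0 := fun a => by
    rw [← h a, sum_supp l fun u => dot (bgPt u) a]
  have hsingle : ∀ (u : BgU f) (i : Fin (f + 1)), dot (bgPt u) (Pi.single i 1) = bgPt u i :=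
    fun u i => by rw [dot_comm, dot_single]
  have hnz : Z.card ≠ 0 := by
    intro h0
    rw [Finset.card_eq_zero] at h0
    refine hl (funext fun u => ?_)
    by_contra hu
    have h1 : u ∈ Z := Finset.mem_filter.mpr ⟨mem_univ _, hu⟩
    rw [h0] at h1
    exact absurd h1 (Finset.notMem_empty u)
  have h12 : Z.card = 1 ∨ Z.card = 2 := by omega
  rcases h12 with h1 | h1
  · obtain ⟨u, hu⟩ := Finset.card_eq_one.mp h1
    have h2 := hsum (Pi.single 0 1)
    rw [hu, Finset.sum_singleton, hsingle] at h2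
    exact one_ne_zero h2
  · obtain ⟨u, u', huu, hu⟩ := Finset.card_eq_two.mp h1
    refine huu (funext fun i => ?_)
    have h2 := hsum (Pi.single i.succ 1)
    rw [hu, Finset.sum_pair huu, hsingle, hsingle] at h2
    have h3 : ∀ x y : ZMod 2, x + y = 0 → x = y := by decide
    exact h3 _ _ h2

open Classical in
/-- the coefficients in a test for which the combination is a given functional -/
noncomputable def bgL (ψ : Chr (BgG f m n)) (i : Fin m) : Finset (BgU f → ZMod 2) :=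
  univ.filter fun l => ∀ a : BgA f, ∑ u, l u * dot (bgPt u) a = ψ (0, Pi.single i a)

theorem card_BgU : Fintype.card (BgU f) = 2 ^ f := by
  rw [Fintype.card_fun, ZMod.card, Fintype.card_fin]

theorem wt_pos_of_ne {S : Type} [Fintype S] (l : S → ZMod 2) (hl : l ≠ 0) : 1 ≤ wt l := by
  by_contra h
  refine hl (funext fun s => ?_)
  by_contra hs
  have h1 : s ∈ univ.filter fun s => l s ≠ 0 := Finset.mem_filter.mpr ⟨mem_univ _, hs⟩
  have h2 : 0 < wt l := Finset.card_pos.mpr ⟨s, h1⟩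
  omega

/-- the weight enumerator of one test -/
theorem enum_one (ψ : Chr (BgG f m n)) (i : Fin m) (y : ℝ) (hy : 0 < y)
    (hy1 : 2 ^ (2 ^ f) * y ≤ 1) :
    ∑ l ∈ bgL ψ i, y ^ wt l ≤ 1 + 2 ^ (2 ^ f) * y ^ 3 := by
  classical
  have hy2 : y ≤ 1 := by
    have h1 : (1 : ℝ) ≤ 2 ^ (2 ^ f) := one_le_pow₀ (by norm_num)
    nlinarith
  have hcard : ((bgL ψ i).card : ℝ) ≤ 2 ^ (2 ^ f) := by
    have h1 : (bgL ψ i).card ≤ 2 ^ (2 ^ f) := by
      refine (Finset.card_le_univ _).trans (le_of_eq ?_)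
      rw [Fintype.card_fun, ZMod.card, card_BgU]
    exact_mod_cast h1
  by_cases h0 : (0 : BgU f → ZMod 2) ∈ bgL ψ i
  · have hψ : ∀ a : BgA f, ψ (0, Pi.single i a) = 0 := by
      intro a
      rw [← (Finset.mem_filter.mp h0).2 a]
      exact Finset.sum_eq_zero fun u _ => zero_mul _
    have h1 : ∀ l ∈ (bgL ψ i).erase 0, y ^ wt l ≤ y ^ 3 := by
      intro l hl
      obtain ⟨h2, h3⟩ := Finset.mem_erase.mp hl
      refine pow_le_pow_of_le_one hy.le hy2 (three_le_wt l h2 fun a => ?_)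
      rw [(Finset.mem_filter.mp h3).2 a, hψ]
    rw [← Finset.add_sum_erase _ _ h0, wt_zero, pow_zero]
    have h2 := Finset.sum_le_sum h1
    rw [Finset.sum_const, nsmul_eq_mul] at h2
    have h3 : (((bgL ψ i).erase 0).card : ℝ) ≤ 2 ^ (2 ^ f) := by
      refine le_trans ?_ hcard
      exact_mod_cast Finset.card_erase_le
    have h4 : 0 ≤ y ^ 3 := by positivity
    have h5 := mul_le_mul_of_nonneg_right h3 h4
    linarith
  · have h1 : ∀ l ∈ bgL ψ i, y ^ wt l ≤ y ^ 1 := by
      intro l hl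
      refine pow_le_pow_of_le_one hy.le hy2 (wt_pos_of_ne l fun h => ?_)
      rw [h] at hl
      exact h0 hl
    have h2 := Finset.sum_le_sum h1
    rw [Finset.sum_const, nsmul_eq_mul, pow_one] at h2
    have h4 := mul_le_mul_of_nonneg_right hcard hy.le
    have h5 : 0 ≤ 2 ^ (2 ^ f) * y ^ 3 := by positivity
    linarith

theorem wt_curry (l : BgS f m → ZMod 2) : wt l = ∑ i : Fin m, wt fun u => l (i, u) := by
  classical
  unfold wt
  rw [Finset.card_filter, Fintype.sum_prod_type]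
  refine Finset.sum_congr rfl fun i _ => ?_
  rw [Finset.card_filter]

open Classical in
/-- the weight enumerator of all tests -/
theorem enum_all (ψ : Chr (BgG f m n)) (y : ℝ) (hy : 0 < y) (hy1 : 2 ^ (2 ^ f) * y ≤ 1) :
    ∑ l ∈ univ.filter (fun l : BgS f m → ZMod 2 => ∀ i, (fun u => l (i, u)) ∈ bgL ψ i),
      y ^ wt l ≤ (1 + 2 ^ (2 ^ f) * y ^ 3) ^ m := by
  rw [Finset.sum_filter]
  have h1 : ∀ l : BgS f m → ZMod 2,
      (if ∀ i, (fun u => l (i, u)) ∈ bgL ψ i then y ^ wt l else 0) =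
      ∏ i, if (fun u => l (i, u)) ∈ bgL ψ i then y ^ wt (fun u => l (i, u)) else 0 := by
    intro l
    by_cases h : ∀ i, (fun u => l (i, u)) ∈ bgL ψ i
    · rw [if_pos h, wt_curry, ← Finset.prod_pow_eq_pow_sum]
      exact Finset.prod_congr rfl fun i _ => (if_pos (h i)).symm
    · rw [if_neg h]
      push Not at h
      obtain ⟨i, hi⟩ := h
      exact (Finset.prod_eq_zero (mem_univ i) (if_neg hi)).symm
  rw [Finset.sum_congr rfl fun l _ => h1 l]
  have h2 : (∑ l : BgS f m → ZMod 2, ∏ i,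
      if (fun u => l (i, u)) ∈ bgL ψ i then y ^ wt (fun u => l (i, u)) else 0) =
      ∑ l : Fin m → BgU f → ZMod 2, ∏ i, if l i ∈ bgL ψ i then y ^ wt (l i) else 0 :=
    Fintype.sum_equiv (Equiv.curry (Fin m) (BgU f) (ZMod 2)) _ _ fun l => rfl
  rw [h2]
  have h3 := Finset.prod_univ_sum (fun _ : Fin m => (univ : Finset (BgU f → ZMod 2)))
    (fun i l => if l ∈ bgL ψ i then y ^ wt l else 0)
  rw [Fintype.piFinset_univ] at h3
  rw [← h3]
  have h4 : ∀ i : Fin m, (∑ l : BgU f → ZMod 2, if l ∈ bgL ψ i then y ^ wt l else 0) ≤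
      1 + 2 ^ (2 ^ f) * y ^ 3 := by
    intro i
    rw [← Finset.sum_filter, Finset.filter_mem_eq_inter, Finset.univ_inter]
    exact enum_one ψ i y hy hy1
  refine (Finset.prod_le_prod (fun i _ => Finset.sum_nonneg fun l _ => ?_)
    fun i _ => h4 i).trans (le_of_eq ?_)
  · split_ifs
    · positivity
    · exact le_refl 0
  · rw [Finset.prod_const, Finset.card_univ, Fintype.card_fin]

/-- the number of wirings with a combination of medium weight equal to a given one -/
theorem bad_big (hn : 0 < n) (τ : ℕ) (y : ℝ) (hy : 0 < y) (hy1 : 2 ^ (2 ^ f) * y ≤ 1)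
    (hτ : 22300 * (τ : ℝ) ≤ y ^ 2 * n) (hm : 2 ^ (2 ^ f) * y ^ 3 * m ≤ τ)
    (ψ : Chr (BgG f m n))
    [DecidablePred fun w : BgW f m n => ∃ l : BgS f m → ZMod 2, τ < wt l ∧ wt l ≤ 2 * τ ∧
      ∀ h, dot l (bgB w h) = ψ h] :
    ((univ.filter fun w : BgW f m n => ∃ l : BgS f m → ZMod 2, τ < wt l ∧ wt l ≤ 2 * τ ∧
      ∀ h, dot l (bgB w h) = ψ h).card : ℝ) ≤
        2 * (1 / 16) ^ τ * (n : ℝ) ^ Fintype.card (BgS f m) := by
  classical
  have hn0 : (0 : ℝ) < n := by exact_mod_cast hn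
  let ψ₁ : Chr (GX n) := ψ.comp (LinearMap.inl (ZMod 2) (GX n) (Fin m → BgA f))
  let Cn : (BgS f m → ZMod 2) → Finset (BgW f m n) := fun l =>
    univ.filter fun w : BgW f m n => ∀ h : GX n, ∑ s, l s * h (w s) = ψ₁ h
  let L2 : Finset (BgS f m → ZMod 2) := univ.filter fun l => ∀ i, (fun u => l (i, u)) ∈ bgL ψ i
  let Z := L2.filter fun l => τ < wt l ∧ wt l ≤ 2 * τ
  have hsub : (univ.filter fun w : BgW f m n => ∃ l : BgS f m → ZMod 2, τ < wt l ∧
      wt l ≤ 2 * τ ∧ ∀ h, dot l (bgB w h) = ψ h) ⊆ Z.biUnion Cn := by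
    intro w hw
    obtain ⟨l, h1, h2, h3⟩ := (Finset.mem_filter.mp hw).2
    refine Finset.mem_biUnion.mpr ⟨l, Finset.mem_filter.mpr ⟨Finset.mem_filter.mpr
      ⟨mem_univ _, fun i => Finset.mem_filter.mpr ⟨mem_univ _, fun a => ?_⟩⟩, h1, h2⟩,
      Finset.mem_filter.mpr ⟨mem_univ _, fun h => ?_⟩⟩
    · rw [← dot_bgB_right w l i a]
      exact h3 _
    · rw [← dot_bgB_left w l h]
      exact h3 _
  have h1 : ((univ.filter fun w : BgW f m n => ∃ l : BgS f m → ZMod 2, τ < wt l ∧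
      wt l ≤ 2 * τ ∧ ∀ h, dot l (bgB w h) = ψ h).card : ℝ) ≤ ∑ l ∈ Z, ((Cn l).card : ℝ) := by
    have h2 := (Finset.card_le_card hsub).trans Finset.card_biUnion_le
    exact_mod_cast h2
  refine h1.trans ?_
  have he : Real.exp 1 < 2.7182818286 := Real.exp_one_lt_d9
  have he2 : Real.exp (1 / 2) ^ 2 = Real.exp 1 := by
    rw [← Real.exp_nat_mul]
    congr 1
    norm_num
  -- one combination
  have h2 : ∀ l ∈ Z, ((Cn l).card : ℝ) ≤
      2 * (n : ℝ) ^ Fintype.card (BgS f m) * ((1 / 64) ^ τ * y ^ wt l) := by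
    intro l hl
    obtain ⟨_, h3, h4⟩ := Finset.mem_filter.mp hl
    have hw0 : 0 < wt l := by omega
    have hwR : (0 : ℝ) < wt l := by exact_mod_cast hw0
    have hw2 : (wt l : ℝ) ≤ 2 * τ := by exact_mod_cast h4
    set x : ℝ := Real.sqrt ((wt l : ℝ) / n) with hx
    have hx0 : 0 < x := Real.sqrt_pos.mpr (by positivity)
    have hx2 : x ^ 2 = (wt l : ℝ) / n := Real.sq_sqrt (by positivity)
    have h5 := frac_one hn l hw0 ψ₁ x hx0 hx2
    have h6 : x * Real.exp (1 / 2) ≤ 1 / 64 * y := by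
      refine le_of_sq_le_sq ?_ (by positivity)
      rw [mul_pow, mul_pow, hx2, he2, div_mul_eq_mul_div, div_le_iff₀ hn0]
      have h7 : (wt l : ℝ) * Real.exp 1 ≤ 2 * τ * 2.7182818286 :=
        mul_le_mul hw2 he.le (Real.exp_pos _).le (by positivity)
      nlinarith
    refine h5.trans ?_
    have h7 : (x * Real.exp (1 / 2)) ^ wt l ≤ (1 / 64) ^ τ * y ^ wt l := by
      refine (pow_le_pow_left₀ (by positivity) h6 _).trans ?_
      rw [mul_pow]
      refine mul_le_mul_of_nonneg_right ?_ (by positivity)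
      exact pow_le_pow_of_le_one (by norm_num) (by norm_num) h3.le
    calc 2 * (x * Real.exp (1 / 2)) ^ wt l * (n : ℝ) ^ Fintype.card (BgS f m)
        = 2 * (n : ℝ) ^ Fintype.card (BgS f m) * (x * Real.exp (1 / 2)) ^ wt l := by ring
      _ ≤ _ := mul_le_mul_of_nonneg_left h7 (by positivity)
  refine (Finset.sum_le_sum h2).trans ?_
  rw [← Finset.mul_sum, ← Finset.mul_sum]
  have h3 : ∑ l ∈ Z, y ^ wt l ≤ 4 ^ τ := by
    refine (Finset.sum_le_sum_of_subset_of_nonneg (Finset.filter_subset _ _)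
      fun l _ _ => by positivity).trans ((enum_all ψ y hy hy1).trans ?_)
    have h4 : 1 + 2 ^ (2 ^ f) * y ^ 3 ≤ Real.exp (2 ^ (2 ^ f) * y ^ 3) := by
      rw [add_comm]
      exact Real.add_one_le_exp _
    refine (pow_le_pow_left₀ (by positivity) h4 m).trans ?_
    rw [← Real.exp_nat_mul]
    have h5 : Real.exp ((m : ℝ) * (2 ^ (2 ^ f) * y ^ 3)) ≤ Real.exp τ := by
      refine Real.exp_le_exp.mpr ?_
      linarith
    refine h5.trans ?_
    have h6 : Real.exp (τ : ℝ) = Real.exp 1 ^ τ := by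
      rw [← Real.exp_nat_mul, mul_one]
    rw [h6]
    exact pow_le_pow_left₀ (Real.exp_pos _).le (by linarith) τ
  have h4 : (1 / 64 : ℝ) ^ τ * ∑ l ∈ Z, y ^ wt l ≤ (1 / 16) ^ τ := by
    have h5 : (1 / 64 : ℝ) ^ τ * 4 ^ τ = (1 / 16) ^ τ := by
      rw [← mul_pow]
      norm_num
    rw [← h5]
    exact mul_le_mul_of_nonneg_left h3 (by positivity)
  calc 2 * (n : ℝ) ^ Fintype.card (BgS f m) * ((1 / 64) ^ τ * ∑ l ∈ Z, y ^ wt l)
      ≤ 2 * (n : ℝ) ^ Fintype.card (BgS f m) * (1 / 16) ^ τ :=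
        mul_le_mul_of_nonneg_left h4 (by positivity)
    _ = _ := by ring

end Pool.Agent.TH658.Xg
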