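import Pool.Agent.TH658.Xg.BigA

set_option autoImplicit false
set_option linter.unusedSectionVars false

/-! Random systems of tests: few tests can be passed, and families of tests. -/

namespace Pool.Agent.TH658.Xg

open Finset Pool.Agent.H30R2.PS Pool.Agent.TH658.Eq Pool.Agent.TH658.Xr

/-- There are vectors far from all left sides and invisible for few light relations. -/
theorem exists_farS {S Γ : Type} [Fintype S] [DecidableEq S] [AddCommGroup Γ]
    [Module (ZMod 2) Γ] [Fintype Γ]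
    (B : Γ → (S → ZMod 2)) (U : Submodule (ZMod 2) (S → ZMod 2))
    (Near : Finset (S → ZMod 2))
    (hc : Nat.card U * (Fintype.card Γ * Near.card) < 2 ^ Fintype.card S) :
    ∃ e, (∀ l ∈ U, dot l e = 0) ∧ ∀ h, e + B h ∉ Near := by
  classical
  by_contra hcon
  push Not at hcon
  -- the map to the dual of `U`
  let f : (S → ZMod 2) → Chr U := fun e =>
    { toFun := fun l => dot l.1 e
      map_add' := fun l l' => add_dot _ _ _
      map_smul' := fun c l => smul_dot _ _ _ }
  let A : Finset (S → ZMod 2) := univ.filter fun e => ∀ l ∈ U, dot l e = 0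
  have hA : A.card ≤ Fintype.card Γ * Near.card := by
    have h1 : A ⊆ (univ : Finset Γ).biUnion fun h => Near.image fun y => y - B h := by
      intro e he
      obtain ⟨h, hh⟩ := hcon e (Finset.mem_filter.mp he).2
      exact Finset.mem_biUnion.mpr ⟨h, mem_univ _, Finset.mem_image.mpr
        ⟨_, hh, add_sub_cancel_right _ _⟩⟩
    refine (Finset.card_le_card h1).trans (Finset.card_biUnion_le.trans ?_)
    refine (Finset.sum_le_sum fun h _ => Finset.card_image_le).trans (le_of_eq ?_)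
    rw [Finset.sum_const, Finset.card_univ, smul_eq_mul]
  have hfib : ∀ a ∈ (univ : Finset (S → ZMod 2)).image f,
      ((univ : Finset (S → ZMod 2)).filter fun e => f e = a).card ≤ A.card := by
    intro a ha
    obtain ⟨e0, _, rfl⟩ := Finset.mem_image.mp ha
    refine Finset.card_le_card_of_injOn (fun e => e + e0) ?_ ?_
    · intro e he
      refine Finset.mem_coe.mpr (Finset.mem_filter.mpr ⟨mem_univ _, fun l hl => ?_⟩)
      have h1 := (Finset.mem_filter.mp (Finset.mem_coe.mp he)).2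
      have h2 : dot l e = dot l e0 := congrArg (fun g : Chr U => g ⟨l, hl⟩) h1
      show dot l (e + e0) = 0
      rw [dot_add, h2]
      exact zmod2_add_self _
    · intro e _ e' _ h
      exact add_right_cancel h
  have h1 := Finset.card_le_mul_card_image (f := f) (univ : Finset (S → ZMod 2)) A.card hfib
  have h2 : ((univ : Finset (S → ZMod 2)).image f).card ≤ Nat.card U := by
    refine (Finset.card_le_univ _).trans (le_of_eq ?_)
    rw [card_Chr, Nat.card_eq_fintype_card]
  rw [Finset.card_univ, Fintype.card_fun, ZMod.card] at h1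
  have h3 : 2 ^ Fintype.card S ≤ Nat.card U * (Fintype.card Γ * Near.card) := by
    refine h1.trans ?_
    rw [mul_comm]
    exact Nat.mul_le_mul h2 hA
  omega

/-- the number of light vectors -/
theorem card_lightS {S : Type} [Fintype S] [DecidableEq S] (s : ℕ) (x : ℝ) (hx : 0 < x)
    (hx1 : x ≤ 1) :
    ((univ.filter fun l : S → ZMod 2 => wt l ≤ s).card : ℝ) * x ^ s ≤
      (1 + x) ^ Fintype.card S := by
  classical
  have h0 : ∑ l : S → ZMod 2, x ^ wt l = (1 + x) ^ Fintype.card S := by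
    have h1 : ∀ l : S → ZMod 2, x ^ wt l = ∏ s, if l s ≠ 0 then x else 1 := by
      intro l
      rw [Finset.prod_ite, Finset.prod_const_one, mul_one, Finset.prod_const]
      rfl
    rw [Finset.sum_congr rfl fun l _ => h1 l]
    have h3 := Finset.prod_univ_sum (fun _ : S => (univ : Finset (ZMod 2)))
      (fun _ c => if c ≠ 0 then x else 1)
    rw [Fintype.piFinset_univ] at h3
    rw [← h3, Finset.prod_const, Finset.card_univ]
    congr 1
    have h4 : (∑ c : ZMod 2, if c ≠ 0 then x else 1) = ∑ c : Fin 2, if c ≠ 0 then x else 1 := rfl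
    rw [h4, Fin.sum_univ_two]
    simp
  rw [← h0, ← nsmul_eq_mul, ← Finset.sum_const]
  refine (Finset.sum_le_sum fun l hl => ?_).trans (Finset.sum_le_sum_of_subset_of_nonneg
    (Finset.filter_subset _ _) fun l _ _ => by positivity)
  exact pow_le_pow_of_le_one hx.le hx1 (Finset.mem_filter.mp hl).2

variable {f m n : ℕ}

/-- the `i`-th part is a word of the code -/
def bgIn (y : BgS f m → ZMod 2) (i : Fin m) : Prop := ∃ a : BgA f, ∀ u, y (i, u) = dot (bgPt u) a

open Classical in
/-- the vectors with more than `M` words of the code -/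
noncomputable def bgNear (f m M : ℕ) : Finset (BgS f m → ZMod 2) :=
  univ.filter fun y => M < (univ.filter fun i : Fin m => bgIn y i).card

theorem card_bgNear (M : ℕ) :
    ((bgNear f m M).card : ℝ) * 8 ^ M ≤
      2 ^ Fintype.card (BgS f m) * Real.exp (m * (2 ^ (f + 4) / 2 ^ (2 ^ f))) := by
  classical
  let V : Finset (BgU f → ZMod 2) := univ.filter fun l => ∃ a : BgA f, ∀ u, l u = dot (bgPt u) a
  have hV : (V.card : ℝ) ≤ 2 ^ (f + 1) := by
    have h1 : V ⊆ (univ : Finset (BgA f)).image fun a => fun u => dot (bgPt u) a := by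
      intro l hl
      obtain ⟨a, ha⟩ := (Finset.mem_filter.mp hl).2
      exact Finset.mem_image.mpr ⟨a, mem_univ _, (funext ha).symm⟩
    have h2 := (Finset.card_le_card h1).trans Finset.card_image_le
    rw [Finset.card_univ, Fintype.card_fun, ZMod.card, Fintype.card_fin] at h2
    exact_mod_cast h2
  have h0 : ∑ y : BgS f m → ZMod 2, (8 : ℝ) ^ (univ.filter fun i : Fin m => bgIn y i).card =
      (2 ^ (2 ^ f) + 7 * V.card) ^ m := by
    have h1 : ∀ y : BgS f m → ZMod 2, (8 : ℝ) ^ (univ.filter fun i : Fin m => bgIn y i).card =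
        ∏ i, if (fun u => y (i, u)) ∈ V then (8 : ℝ) else 1 := by
      intro y
      rw [Finset.prod_ite, Finset.prod_const_one, mul_one, Finset.prod_const]
      congr 2
      ext i
      rw [Finset.mem_filter, Finset.mem_filter, Finset.mem_filter]
      exact ⟨fun h => ⟨h.1, mem_univ _, h.2⟩, fun h => ⟨h.1, h.2.2⟩⟩
    rw [Finset.sum_congr rfl fun l _ => h1 l]
    have h2 : (∑ l : BgS f m → ZMod 2, ∏ i, if (fun u => l (i, u)) ∈ V then (8 : ℝ) else 1) =
        ∑ l : Fin m → BgU f → ZMod 2, ∏ i, if l i ∈ V then (8 : ℝ) else 1 :=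
      Fintype.sum_equiv (Equiv.curry (Fin m) (BgU f) (ZMod 2)) _ _ fun l => rfl
    rw [h2]
    have h3 := Finset.prod_univ_sum (fun _ : Fin m => (univ : Finset (BgU f → ZMod 2)))
      (fun _ l => if l ∈ V then (8 : ℝ) else 1)
    rw [Fintype.piFinset_univ] at h3
    rw [← h3, Finset.prod_const, Finset.card_univ, Fintype.card_fin]
    congr 1
    have h4 : ∀ l : BgU f → ZMod 2, (if l ∈ V then (8 : ℝ) else 1) =
        1 + if l ∈ V then (7 : ℝ) else 0 := by
      intro l
      split_ifs <;> norm_num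
    rw [Finset.sum_congr rfl fun l _ => h4 l, Finset.sum_add_distrib, Finset.sum_const,
      Finset.card_univ, Fintype.card_fun, ZMod.card, card_BgU, nsmul_eq_mul, mul_one,
      ← Finset.sum_filter, Finset.filter_mem_eq_inter, Finset.univ_inter, Finset.sum_const,
      nsmul_eq_mul]
    push_cast
    ring
  have h1 : ((bgNear f m M).card : ℝ) * 8 ^ M ≤ (2 ^ (2 ^ f) + 7 * V.card) ^ m := by
    rw [← h0, ← nsmul_eq_mul, ← Finset.sum_const]
    refine (Finset.sum_le_sum fun y hy => ?_).trans (Finset.sum_le_sum_of_subset_of_nonneg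
      (Finset.filter_subset _ _) fun l _ _ => by positivity)
    exact pow_le_pow_right₀ (by norm_num) (Finset.mem_filter.mp hy).2.le
  refine h1.trans ?_
  have hK : (0 : ℝ) < 2 ^ (2 ^ f) := by positivity
  have h2 : (2 : ℝ) ^ (2 ^ f) + 7 * V.card ≤
      2 ^ (2 ^ f) * Real.exp (2 ^ (f + 4) / 2 ^ (2 ^ f)) := by
    have h3 : (2 : ℝ) ^ (f + 4) / 2 ^ (2 ^ f) + 1 ≤ Real.exp (2 ^ (f + 4) / 2 ^ (2 ^ f)) :=
      Real.add_one_le_exp _
    have h4 : (2 : ℝ) ^ (2 ^ f) * (2 ^ (f + 4) / 2 ^ (2 ^ f) + 1) = 2 ^ (f + 4) + 2 ^ (2 ^ f) := by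
      field_simp
    have h5 : (2 : ℝ) ^ (f + 4) = 8 * 2 ^ (f + 1) := by ring
    have h6 : (0 : ℝ) < 2 ^ (f + 1) := by positivity
    have h7 := mul_le_mul_of_nonneg_left h3 hK.le
    rw [h4, h5] at h7
    rw [h5]
    linarith
  refine (pow_le_pow_left₀ (by positivity) h2 m).trans (le_of_eq ?_)
  rw [mul_pow, ← Real.exp_nat_mul, Fintype.card_prod, Fintype.card_fin, card_BgU, ← pow_mul,
    mul_comm m (2 ^ f)]

/-- There are tuples of tests which are rarely contained in small sets of tests. -/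
theorem exists_tuples {m t T M : ℕ} (hm : 0 < m) (hT : (T : ℝ) * ((M : ℝ) / m) ^ t ≤ m) :
    ∃ c : Fin T → Fin t → Fin m, ∀ A : Finset (Fin m), A.card ≤ M →
      (univ.filter fun j => ∀ p, c j p ∈ A).card < 3 * m := by
  classical
  by_contra hcon
  push Not at hcon
  have hm0 : (0 : ℝ) < m := by exact_mod_cast hm
  let Bad : Finset (Fin m) → Finset (Fin T → Fin t → Fin m) := fun A =>
    univ.filter fun c => 3 * m ≤ (univ.filter fun j => ∀ p, c j p ∈ A).card
  have h1 : ∀ A : Finset (Fin m), A.card ≤ M →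
      ((Bad A).card : ℝ) * 4 ^ (3 * m) ≤ ((m : ℝ) ^ t) ^ T * Real.exp (3 * m) := by
    intro A hA
    have h0 : ∑ c : Fin T → Fin t → Fin m,
        (4 : ℝ) ^ (univ.filter fun j => ∀ p, c j p ∈ A).card =
        ((m : ℝ) ^ t + 3 * (A.card : ℝ) ^ t) ^ T := by
      have h1 : ∀ c : Fin T → Fin t → Fin m,
          (4 : ℝ) ^ (univ.filter fun j => ∀ p, c j p ∈ A).card =
          ∏ j, if ∀ p, c j p ∈ A then (4 : ℝ) else 1 := by
        intro c
        rw [Finset.prod_ite, Finset.prod_const_one, mul_one, Finset.prod_const]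
      rw [Finset.sum_congr rfl fun l _ => h1 l]
      have h3 := Finset.prod_univ_sum (fun _ : Fin T => (univ : Finset (Fin t → Fin m)))
        (fun _ z => if ∀ p, z p ∈ A then (4 : ℝ) else 1)
      rw [Fintype.piFinset_univ] at h3
      rw [← h3, Finset.prod_const, Finset.card_univ, Fintype.card_fin]
      congr 1
      have h4 : ∀ z : Fin t → Fin m, (if ∀ p, z p ∈ A then (4 : ℝ) else 1) =
          1 + if ∀ p, z p ∈ A then (3 : ℝ) else 0 := by
        intro z
        split_ifs <;> norm_num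
      have h5 : (univ.filter fun z : Fin t → Fin m => ∀ p, z p ∈ A) =
          Fintype.piFinset fun _ => A := by
        ext z
        rw [Finset.mem_filter, Fintype.mem_piFinset]
        exact ⟨fun h => h.2, fun h => ⟨mem_univ _, h⟩⟩
      rw [Finset.sum_congr rfl fun l _ => h4 l, Finset.sum_add_distrib, Finset.sum_const,
        Finset.card_univ, Fintype.card_fun, Fintype.card_fin, Fintype.card_fin, nsmul_eq_mul,
        mul_one, ← Finset.sum_filter, Finset.sum_const, nsmul_eq_mul, h5, Fintype.card_piFinset,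
        Finset.prod_const, Finset.card_univ, Fintype.card_fin]
      push_cast
      ring
    have h2 : ((Bad A).card : ℝ) * 4 ^ (3 * m) ≤ ((m : ℝ) ^ t + 3 * (A.card : ℝ) ^ t) ^ T := by
      rw [← h0, ← nsmul_eq_mul, ← Finset.sum_const]
      refine (Finset.sum_le_sum fun c hc => ?_).trans (Finset.sum_le_sum_of_subset_of_nonneg
        (Finset.filter_subset _ _) fun l _ _ => by positivity)
      exact pow_le_pow_right₀ (by norm_num) (Finset.mem_filter.mp hc).2
    refine h2.trans ?_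
    have h3 : (m : ℝ) ^ t + 3 * (A.card : ℝ) ^ t ≤
        (m : ℝ) ^ t * Real.exp (3 * ((M : ℝ) / m) ^ t) := by
      have h4 : 3 * ((M : ℝ) / m) ^ t + 1 ≤ Real.exp (3 * ((M : ℝ) / m) ^ t) :=
        Real.add_one_le_exp _
      have h5 : (A.card : ℝ) ^ t ≤ (M : ℝ) ^ t :=
        pow_le_pow_left₀ (Nat.cast_nonneg _) (by exact_mod_cast hA) t
      have h6 : (m : ℝ) ^ t * (3 * ((M : ℝ) / m) ^ t + 1) = 3 * (M : ℝ) ^ t + (m : ℝ) ^ t := by
        rw [div_pow]
        field_simp
      have h7 := mul_le_mul_of_nonneg_left h4 (by positivity : (0 : ℝ) ≤ (m : ℝ) ^ t)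
      rw [h6] at h7
      linarith
    refine (pow_le_pow_left₀ (by positivity) h3 T).trans ?_
    rw [mul_pow, ← Real.exp_nat_mul]
    refine mul_le_mul_of_nonneg_left (Real.exp_le_exp.mpr ?_) (by positivity)
    linarith
  have h2 : (univ : Finset (Fin T → Fin t → Fin m)) ⊆
      (univ.filter fun A : Finset (Fin m) => A.card ≤ M).biUnion Bad := by
    intro c _
    obtain ⟨A, hA, hA2⟩ := hcon c
    exact Finset.mem_biUnion.mpr ⟨A, Finset.mem_filter.mpr ⟨mem_univ _, hA⟩,
      Finset.mem_filter.mpr ⟨mem_univ _, hA2⟩⟩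
  have h3 : (((m : ℝ) ^ t) ^ T) * 4 ^ (3 * m) ≤
      2 ^ m * (((m : ℝ) ^ t) ^ T * Real.exp (3 * m)) := by
    have h4 := (Finset.card_le_card h2).trans Finset.card_biUnion_le
    rw [Finset.card_univ, Fintype.card_fun, Fintype.card_fun, Fintype.card_fin, Fintype.card_fin,
      Fintype.card_fin] at h4
    have h5 : (((m : ℝ) ^ t) ^ T) ≤
        ∑ A ∈ univ.filter (fun A : Finset (Fin m) => A.card ≤ M), ((Bad A).card : ℝ) := by
      exact_mod_cast h4
    have h6 := mul_le_mul_of_nonneg_right h5 (by positivity : (0 : ℝ) ≤ 4 ^ (3 * m))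
    rw [Finset.sum_mul] at h6
    refine h6.trans ((Finset.sum_le_sum fun A hA => h1 A (Finset.mem_filter.mp hA).2).trans ?_)
    rw [Finset.sum_const, nsmul_eq_mul]
    refine mul_le_mul_of_nonneg_right ?_ (by positivity)
    have h7 : (univ.filter fun A : Finset (Fin m) => A.card ≤ M).card ≤ 2 ^ m := by
      refine (Finset.card_le_univ _).trans (le_of_eq ?_)
      rw [Fintype.card_finset, Fintype.card_fin]
    exact_mod_cast h7
  have h4 : (4 : ℝ) ^ (3 * m) ≤ 2 ^ m * Real.exp (3 * m) := by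
    have h5 : (0 : ℝ) < ((m : ℝ) ^ t) ^ T := by positivity
    refine le_of_mul_le_mul_left ?_ h5
    calc ((m : ℝ) ^ t) ^ T * 4 ^ (3 * m) ≤ 2 ^ m * (((m : ℝ) ^ t) ^ T * Real.exp (3 * m)) := h3
      _ = _ := by ring
  have h5 : (2 : ℝ) ^ m * Real.exp (3 * m) < 4 ^ (3 * m) := by
    have h6 : Real.exp (3 * (m : ℝ)) = (Real.exp 1 ^ 3) ^ m := by
      rw [← Real.exp_nat_mul, ← Real.exp_nat_mul]
      congr 1
      push_cast
      ring
    have he : Real.exp 1 < 2.7182818286 := Real.exp_one_lt_d9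
    have he0 : 0 < Real.exp 1 := Real.exp_pos 1
    have h7 : 2 * Real.exp 1 ^ 3 < 4 ^ 3 := by
      have h8 : Real.exp 1 ^ 3 < 3 ^ 3 := pow_lt_pow_left₀ (by linarith) he0.le (by norm_num)
      linarith
    rw [h6, ← mul_pow, pow_mul]
    exact pow_lt_pow_left₀ h7 (by positivity) hm.ne'
  linarith

/-- The family of the systems used. -/
theorem big_family {f m n τ M : ℕ} (hτ : 2 ≤ τ) (hn : n = 2 ^ (4 * 2 ^ f + 47) * τ)
    (hm : m = 2 ^ (2 ^ f) * n) (hM : M = 2 ^ (f + 4) * n) :
    ∃ (W : Type) (_ : Fintype W) (_ : Nonempty W) (w : W → BgW f m n)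
      (e : W → BgS f m → ZMod 2),
      (∀ ψ : Chr (BgG f m n), (Nat.card {i : W // ∃ l : BgS f m → ZMod 2, τ < wt l ∧
        wt l ≤ 2 * τ ∧ ∀ h, dot l (bgB (w i) h) = ψ h} : ℝ) * 8 ^ τ ≤ Nat.card W) ∧
      ∀ i, (∀ l : BgS f m → ZMod 2, wt l ≤ τ → (∀ h : BgG f m n, dot l (bgB (w i) h) = 0) →
          dot l (e i) = 0) ∧
        ∀ x : GX n, e i + bgB (w i) (x, 0) ∉ bgNear f m M := by
  classical
  have hn0 : 0 < n := by
    rw [hn]
    positivity
  have hnR : (0 : ℝ) < n := by exact_mod_cast hn0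
  have hnτ : (n : ℝ) = 2 ^ (4 * 2 ^ f + 47) * τ := by exact_mod_cast hn
  have hmR : (m : ℝ) = 2 ^ (2 ^ f) * n := by exact_mod_cast hm
  have hMR : (M : ℝ) = 2 ^ (f + 4) * n := by exact_mod_cast hM
  have hτR : (2 : ℝ) ≤ τ := by exact_mod_cast hτ
  set K : ℕ := 2 ^ f with hK
  have hK1 : 1 ≤ K := Nat.one_le_two_pow
  set Q : ℝ := (n : ℝ) ^ Fintype.card (BgS f m) with hQ
  have hQ0 : 0 < Q := by positivity
  -- the number of the bad wirings
  have hbad : ∀ ψ : Chr (BgG f m n), ((univ.filter fun w : BgW f m n =>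
      ∃ l : BgS f m → ZMod 2, τ < wt l ∧ wt l ≤ 2 * τ ∧
      ∀ h, dot l (bgB w h) = ψ h).card : ℝ) ≤ 2 * (1 / 16) ^ τ * Q := by
    intro ψ
    have hy2 : (1 / (2 : ℝ) ^ (2 * K + 16)) ^ 2 * n = 32768 * τ := by
      rw [hnτ, div_pow, one_pow, ← pow_mul, one_div, ← mul_assoc]
      have h1 : (4 * K + 47) = (2 * K + 16) * 2 + 15 := by ring
      rw [h1, pow_add, ← mul_assoc, inv_mul_cancel₀ (by positivity)]
      norm_num
    refine bad_big hn0 τ (1 / 2 ^ (2 * K + 16)) (by positivity) ?_ ?_ ?_ ψ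
    · rw [← hK, mul_one_div, div_le_one (by positivity)]
      exact pow_le_pow_right₀ (by norm_num) (by omega)
    · rw [hy2]
      linarith
    · rw [← hK, hmR]
      have h1 : (2 : ℝ) ^ K * (1 / 2 ^ (2 * K + 16)) ^ 3 * (2 ^ K * n) =
          (2 ^ K * 2 ^ K * (1 / 2 ^ (2 * K + 16))) * ((1 / 2 ^ (2 * K + 16)) ^ 2 * n) := by ring
      have h2 : (2 : ℝ) ^ K * 2 ^ K * (1 / 2 ^ (2 * K + 16)) = 1 / 65536 := by
        have h3 : 2 * K + 16 = K + K + 16 := by ring
        rw [h3, pow_add, pow_add]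
        field_simp
        norm_num
      rw [h1, h2, hy2]
      linarith
  have h16 : (1 / 16 : ℝ) ^ τ ≤ (1 / 16) ^ 2 := pow_le_pow_of_le_one (by norm_num) (by norm_num) hτ
  have hβ1 : 2 * (1 / 16 : ℝ) ^ τ * Q ≤ 1 / 2 * Q := by
    refine mul_le_mul_of_nonneg_right ?_ hQ0.le
    norm_num at h16
    linarith
  have h2 := count_bad (bgB (f := f) (m := m) (n := n)) τ (2 * (1 / 16) ^ τ * Q)
    (fun ψ => le_trans (le_of_eq (by congr!)) (hbad ψ)) (J := Unit)
    (fun _ => (⊤ : Submodule (ZMod 2) (BgG f m n))) (fun _ => {0})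
  have h3 : (∑ _j : Unit, ({0} : Finset (Chr (⊤ : Submodule (ZMod 2) (BgG f m n)))).card ^ 2 *
      (⊤ : Submodule (ZMod 2) (BgG f m n)).toAddSubgroup.index : ℕ) = 1 := by
    have h4 : (⊤ : Submodule (ZMod 2) (BgG f m n)).toAddSubgroup = ⊤ := rfl
    rw [Finset.card_singleton, h4, AddSubgroup.index_top]
    rfl
  rw [h3, Nat.cast_one, one_mul] at h2
  let Ok : BgW f m n → Prop := fun w =>
    Sd.GoodG (⊤ : Submodule (ZMod 2) (BgG f m n)) {0} (bgB w) τ
  have hok : 1 / 2 * Q ≤ ((univ.filter fun w : BgW f m n => Ok w).card : ℝ) := by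
    have h5 : (univ : Finset (BgW f m n)) ⊆ (univ.filter fun w : BgW f m n => Ok w) ∪
        (univ.filter fun w : BgW f m n => ∃ _j : Unit,
          ¬ Sd.GoodG (⊤ : Submodule (ZMod 2) (BgG f m n)) {0} (bgB w) τ) := by
      intro w _
      by_cases hb : Ok w
      · exact Finset.mem_union_left _ (Finset.mem_filter.mpr ⟨mem_univ _, hb⟩)
      · exact Finset.mem_union_right _ (Finset.mem_filter.mpr ⟨mem_univ _, (), hb⟩)
    have h6 := (Finset.card_le_card h5).trans (Finset.card_union_le _ _)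
    have h7 : (Fintype.card (BgW f m n) : ℝ) ≤
        ((univ.filter fun w : BgW f m n => Ok w).card : ℝ) +
        ((univ.filter fun w : BgW f m n => ∃ _j : Unit,
          ¬ Sd.GoodG (⊤ : Submodule (ZMod 2) (BgG f m n)) {0} (bgB w) τ).card : ℝ) := by
      rw [Finset.card_univ] at h6
      exact_mod_cast h6
    have h8 : (Fintype.card (BgW f m n) : ℝ) = Q := by
      rw [Fintype.card_fun, Fintype.card_fin]
      push_cast
      rfl
    rw [h8] at h7
    linarith
  have hokpos : 0 < (univ.filter fun w : BgW f m n => Ok w).card := by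
    have h1 : (0 : ℝ) < ((univ.filter fun w : BgW f m n => Ok w).card : ℝ) :=
      lt_of_lt_of_le (by positivity) hok
    exact_mod_cast h1
  obtain ⟨w0, hw0⟩ := Finset.card_pos.mp hokpos
  -- the twists
  have htwist : ∀ w : {w : BgW f m n // Ok w}, ∃ e : BgS f m → ZMod 2,
      (∀ l : BgS f m → ZMod 2, wt l ≤ τ → (∀ h : BgG f m n, dot l (bgB w.1 h) = 0) →
        dot l e = 0) ∧ ∀ x : GX n, e + bgB w.1 (x, 0) ∉ bgNear f m M := by
    intro w
    let U := Sd.lightU (⊤ : Submodule (ZMod 2) (BgG f m n)) {0} ⟨0, Finset.mem_singleton_self 0⟩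
      (bgB w.1) τ w.2
    have hU : (Nat.card U : ℝ) ≤ Real.exp n * 2 ^ n := by
      have h1 : Function.Injective (fun l : U => (⟨l.1, Finset.mem_filter.mpr ⟨mem_univ _,
          l.2.1.trans (by omega)⟩⟩ :
          (univ.filter fun l : BgS f m → ZMod 2 => wt l ≤ 2 * τ))) :=
        fun a b hab => Subtype.ext (congrArg (fun x => x.1) hab)
      have h2 := Nat.card_le_card_of_injective _ h1
      rw [Nat.card_eq_fintype_card (α := (univ.filter fun l : BgS f m → ZMod 2 => wt l ≤ 2 * τ)),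
        Fintype.card_coe] at h2
      have h3 := card_lightS (S := BgS f m) (2 * τ) (1 / 2 ^ (2 * K)) (by positivity) (by
        rw [div_le_one (by positivity)]
        exact one_le_pow₀ (by norm_num))
      have h4 : (1 + 1 / (2 : ℝ) ^ (2 * K)) ^ Fintype.card (BgS f m) ≤ Real.exp n := by
        have h5 : 1 + 1 / (2 : ℝ) ^ (2 * K) ≤ Real.exp (1 / 2 ^ (2 * K)) := by
          rw [add_comm]
          exact Real.add_one_le_exp _
        refine (pow_le_pow_left₀ (by positivity) h5 _).trans ?_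
        rw [← Real.exp_nat_mul]
        refine Real.exp_le_exp.mpr ?_
        rw [Fintype.card_prod, Fintype.card_fin, card_BgU, ← hK]
        push_cast
        rw [hmR, mul_one_div, div_le_iff₀ (by positivity)]
        have h6 : (K : ℝ) ≤ 2 ^ K := by
          have h7 : K ≤ 2 ^ K := Nat.lt_two_pow_self.le
          exact_mod_cast h7
        have h7 : (2 : ℝ) ^ (2 * K) = 2 ^ K * 2 ^ K := by
          rw [two_mul, pow_add]
        rw [h7]
        have h8 : (0 : ℝ) ≤ 2 ^ K * n := by positivity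
        nlinarith
      have h5 : (2 : ℝ) ^ (4 * K * τ) ≤ 2 ^ n := by
        refine pow_le_pow_right₀ (by norm_num) ?_
        rw [hn]
        refine Nat.mul_le_mul_right τ ?_
        calc 4 * K ≤ 4 * K + 47 := by omega
          _ ≤ 2 ^ (4 * K + 47) := Nat.lt_two_pow_self.le
      have h6 : (Nat.card U : ℝ) * (1 / 2 ^ (2 * K)) ^ (2 * τ) ≤ Real.exp n := by
        refine le_trans (mul_le_mul_of_nonneg_right ?_ (by positivity)) (h3.trans h4)
        exact_mod_cast h2
      have h7 : ((1 : ℝ) / 2 ^ (2 * K)) ^ (2 * τ) * 2 ^ (4 * K * τ) = 1 := by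
        rw [div_pow, one_pow, ← pow_mul]
        have h8 : 2 * K * (2 * τ) = 4 * K * τ := by ring
        rw [h8, one_div, inv_mul_cancel₀ (by positivity)]
      calc (Nat.card U : ℝ) = (Nat.card U : ℝ) * (1 / 2 ^ (2 * K)) ^ (2 * τ) *
            2 ^ (4 * K * τ) := by rw [mul_assoc, h7, mul_one]
        _ ≤ Real.exp n * 2 ^ n := mul_le_mul h6 h5 (by positivity) (Real.exp_pos _).le
    have hNear := card_bgNear (f := f) (m := m) M
    have hexp : (m : ℝ) * (2 ^ (f + 4) / 2 ^ (2 ^ f)) = M := by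
      rw [hmR, hMR, ← hK]
      field_simp
    rw [hexp] at hNear
    have hc : Nat.card U * (Fintype.card (GX n) * (bgNear f m M).card) <
        2 ^ Fintype.card (BgS f m) := by
      have h1 : ((Nat.card U * (Fintype.card (GX n) * (bgNear f m M).card) : ℕ) : ℝ) <
          ((2 ^ Fintype.card (BgS f m) : ℕ) : ℝ) := by
        push_cast
        have hGX : (Fintype.card (GX n) : ℝ) = 2 ^ n := by
          rw [Fintype.card_fun, ZMod.card, Fintype.card_fin]
          push_cast
          rfl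
        rw [hGX]
        have h8 : (0 : ℝ) < 8 ^ M := by positivity
        refine lt_of_mul_lt_mul_right ?_ h8.le
        have h3 : (Nat.card U : ℝ) * (2 ^ n * ((bgNear f m M).card : ℝ)) * 8 ^ M ≤
            Real.exp n * 2 ^ n * (2 ^ n * (2 ^ Fintype.card (BgS f m) * Real.exp M)) := by
          calc (Nat.card U : ℝ) * (2 ^ n * ((bgNear f m M).card : ℝ)) * 8 ^ M
              = (Nat.card U : ℝ) * (2 ^ n * (((bgNear f m M).card : ℝ) * 8 ^ M)) := by ring
            _ ≤ _ := mul_le_mul hU (mul_le_mul_of_nonneg_left hNear (by positivity))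
                (by positivity) (by positivity)
        refine lt_of_le_of_lt h3 ?_
        have he : Real.exp 1 < 2.7182818286 := Real.exp_one_lt_d9
        have he0 : 0 < Real.exp 1 := Real.exp_pos 1
        have h4 : Real.exp (n : ℝ) * 2 ^ n * 2 ^ n ≤ (16 : ℝ) ^ n := by
          have h5 : Real.exp (n : ℝ) = Real.exp 1 ^ n := by
            rw [← Real.exp_nat_mul, mul_one]
          rw [h5, ← mul_pow, ← mul_pow]
          exact pow_le_pow_left₀ (by positivity) (by linarith) n
        have h5 : (16 : ℝ) ^ n < 2 ^ M := by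
          have h6 : (16 : ℝ) ^ n = 2 ^ (4 * n) := by
            rw [pow_mul]
            norm_num
          rw [h6]
          refine pow_lt_pow_right₀ (by norm_num) ?_
          rw [hM]
          refine Nat.mul_lt_mul_of_pos_right ?_ hn0
          calc 4 < 2 ^ 4 := by norm_num
            _ ≤ 2 ^ (f + 4) := Nat.pow_le_pow_right (by norm_num) (by omega)
        have h6 : Real.exp (M : ℝ) * 2 ^ M ≤ 8 ^ M := by
          have h7 : Real.exp (M : ℝ) = Real.exp 1 ^ M := by
            rw [← Real.exp_nat_mul, mul_one]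
          rw [h7, ← mul_pow]
          exact pow_le_pow_left₀ (by positivity) (by linarith) M
        have h7 : (0 : ℝ) < 2 ^ Fintype.card (BgS f m) := by positivity
        have h9 : (0 : ℝ) < Real.exp M := Real.exp_pos _
        calc Real.exp n * 2 ^ n * (2 ^ n * (2 ^ Fintype.card (BgS f m) * Real.exp M))
            = (Real.exp n * 2 ^ n * 2 ^ n) * (2 ^ Fintype.card (BgS f m) * Real.exp M) := by
              ring
          _ ≤ 16 ^ n * (2 ^ Fintype.card (BgS f m) * Real.exp M) :=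
              mul_le_mul_of_nonneg_right h4 (by positivity)
          _ < 2 ^ M * (2 ^ Fintype.card (BgS f m) * Real.exp M) :=
              mul_lt_mul_of_pos_right h5 (by positivity)
          _ = 2 ^ Fintype.card (BgS f m) * (Real.exp M * 2 ^ M) := by ring
          _ ≤ 2 ^ Fintype.card (BgS f m) * 8 ^ M := mul_le_mul_of_nonneg_left h6 h7.le
      exact_mod_cast h1
    obtain ⟨e, h1, h2⟩ := exists_farS (fun x : GX n => bgB w.1 (x, 0)) U (bgNear f m M) hc
    exact ⟨e, fun l hl hadj => h1 l ⟨hl, fun h => hadj h⟩, h2⟩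
  choose e he1 he2 using htwist
  refine ⟨{w : BgW f m n // Ok w}, inferInstance, ⟨⟨w0, (Finset.mem_filter.mp hw0).2⟩⟩,
    fun i => i.1, e, fun ψ => ?_, fun i => ⟨he1 i, he2 i⟩⟩
  have h1 := hbad ψ
  have h2 : Nat.card {i : {w : BgW f m n // Ok w} // ∃ l : BgS f m → ZMod 2,
      τ < wt l ∧ wt l ≤ 2 * τ ∧ ∀ h, dot l (bgB i.1 h) = ψ h} ≤
      (univ.filter fun w : BgW f m n => ∃ l : BgS f m → ZMod 2, τ < wt l ∧ wt l ≤ 2 * τ ∧
        ∀ h, dot l (bgB w h) = ψ h).card := by
    let F : {i : {w : BgW f m n // Ok w} // ∃ l : BgS f m → ZMod 2,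
        τ < wt l ∧ wt l ≤ 2 * τ ∧ ∀ h, dot l (bgB i.1 h) = ψ h} →
        (univ.filter fun w : BgW f m n => ∃ l : BgS f m → ZMod 2, τ < wt l ∧ wt l ≤ 2 * τ ∧
          ∀ h, dot l (bgB w h) = ψ h) := fun i => ⟨i.1.1, Finset.mem_filter.mpr ⟨mem_univ _, i.2⟩⟩
    have hF : Function.Injective F := fun a b hab => by
      have h3 : a.1.1 = b.1.1 := congrArg (fun x => x.1) hab
      exact Subtype.ext (Subtype.ext h3)
    have h3 := Nat.card_le_card_of_injective F hF
    rw [Nat.card_eq_fintype_card (α := (univ.filter fun w : BgW f m n =>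
      ∃ l : BgS f m → ZMod 2, τ < wt l ∧ wt l ≤ 2 * τ ∧ ∀ h, dot l (bgB w h) = ψ h)),
      Fintype.card_coe] at h3
    exact h3
  have h3 : (Nat.card {w : BgW f m n // Ok w} : ℝ) =
      ((univ.filter fun w : BgW f m n => Ok w).card : ℝ) := by
    rw [Nat.card_eq_fintype_card, Fintype.card_subtype]
  have h4 : (Nat.card {i : {w : BgW f m n // Ok w} // ∃ l : BgS f m → ZMod 2,
      τ < wt l ∧ wt l ≤ 2 * τ ∧ ∀ h, dot l (bgB i.1 h) = ψ h} : ℝ) ≤
      2 * (1 / 16) ^ τ * Q := le_trans (by exact_mod_cast h2) h1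
  refine (mul_le_mul_of_nonneg_right h4 (by positivity)).trans ?_
  rw [h3]
  refine le_trans ?_ hok
  have h5 : (1 / 16 : ℝ) ^ τ * 8 ^ τ = (1 / 2) ^ τ := by
    rw [← mul_pow]
    norm_num
  have h6 : (1 / 2 : ℝ) ^ τ ≤ (1 / 2) ^ 2 := pow_le_pow_of_le_one (by norm_num) (by norm_num) hτ
  calc 2 * (1 / 16) ^ τ * Q * 8 ^ τ = 2 * ((1 / 16) ^ τ * 8 ^ τ) * Q := by ring
    _ = 2 * (1 / 2) ^ τ * Q := by rw [h5]
    _ ≤ 1 / 2 * Q := by
        refine mul_le_mul_of_nonneg_right ?_ hQ0.le
        norm_num at h6 ⊢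
        linarith

end Pool.Agent.TH658.Xg
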