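import Pool.Agent.TH658.Xg.Avg
import Pool.Agent.TH658.Sd.Good
import Mathlib.GroupTheory.Perm.ViaEmbedding

set_option autoImplicit false
set_option linter.unusedSectionVars false

/-! Graphs, cliques and the hard graphs. -/

namespace Pool.Agent.TH658.Xg

open Finset Pool.Agent.H30R2.PS Pool.Agent.TH658.Eq Pool.Agent.TH658.Xr Pool.Agent.TH658.Sd

section defs

variable {n : ℕ}

/-- The permutations of the vertices act on the graphs. -/
instance permAct : MulAction (Equiv.Perm (Fin n)) (SimpleGraph (Fin n)) where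
  smul g G := G.comap (g⁻¹ : Equiv.Perm (Fin n))
  one_smul G := by
    ext a b
    rfl
  mul_smul g h G := by
    ext a b
    show G.Adj ((g * h)⁻¹ a) ((g * h)⁻¹ b) ↔ G.Adj (h⁻¹ (g⁻¹ a)) (h⁻¹ (g⁻¹ b))
    rw [mul_inv_rev]
    rfl

/-- There are `k` pairwise adjacent vertices. -/
def HasClique (k : ℕ) (G : SimpleGraph (Fin n)) : Prop :=
  ∃ c : Fin k → Fin n, ∀ i j, i ≠ j → G.Adj (c i) (c j)

/-- The span of the functions of a graph which depend only on its restriction to some set of at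
most `d` vertices. -/
def LocalGraph (n d : ℕ) (K : Type) [Field K] : Submodule K (SimpleGraph (Fin n) → K) :=
  Submodule.span K {f | ∃ D : Finset (Fin n), D.card ≤ d ∧ ∀ G G' : SimpleGraph (Fin n),
    (∀ a ∈ D, ∀ b ∈ D, (G.Adj a b ↔ G'.Adj a b)) → f G = f G'}

end defs

theorem smul_adj {n : ℕ} (g : Equiv.Perm (Fin n)) (G : SimpleGraph (Fin n)) (a b : Fin n) :
    (g • G).Adj a b ↔ G.Adj (g⁻¹ a) (g⁻¹ b) := Iff.rfl

theorem localGraph_inv {n d : ℕ} (K : Type) [Field K] (g : Equiv.Perm (Fin n))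
    (f : SimpleGraph (Fin n) → K) (hf : f ∈ LocalGraph n d K) :
    (fun G => f (g • G)) ∈ LocalGraph n d K := by
  classical
  refine Submodule.span_induction (p := fun f _ => (fun G => f (g • G)) ∈ LocalGraph n d K)
    ?_ ?_ ?_ ?_ hf
  · rintro f ⟨D, hD, hf⟩
    refine Submodule.subset_span ⟨D.image (g⁻¹ : Equiv.Perm (Fin n)),
      Finset.card_image_le.trans hD, fun G G' h => hf _ _ fun a ha b hb => ?_⟩
    rw [smul_adj, smul_adj]
    exact h _ (Finset.mem_image_of_mem _ ha) _ (Finset.mem_image_of_mem _ hb)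
  · exact Submodule.zero_mem _
  · intro f f' _ _ h h'
    exact Submodule.add_mem _ h h'
  · intro c f _ h
    exact Submodule.smul_mem _ c h

variable {k ℓ : ℕ}

/-- the group of a slot -/
def gp (s : SL (k * ℓ)) : Fin k := (finProdFinEquiv.symm s.1).1

/-- the position of a slot in its group -/
def ps (s : SL (k * ℓ)) : Fin ℓ × Bool := ((finProdFinEquiv.symm s.1).2, s.2)

/-- the slot with a given group and a given position -/
def sl (g : Fin k) (q : Fin ℓ × Bool) : SL (k * ℓ) := (finProdFinEquiv (g, q.1), q.2)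

theorem gp_sl (g : Fin k) (q : Fin ℓ × Bool) : gp (sl g q) = g := by
  unfold gp sl
  rw [Equiv.symm_apply_apply]

theorem ps_sl (g : Fin k) (q : Fin ℓ × Bool) : ps (sl g q) = q := by
  unfold ps sl
  rw [Equiv.symm_apply_apply]

theorem sl_gp (s : SL (k * ℓ)) : sl (gp s) (ps s) = s := by
  unfold gp ps sl
  rw [Prod.mk.eta, Equiv.apply_symm_apply]

/-- labels of vertices: a group and the values of the rows and columns of its slots -/
abbrev Lab (k ℓ : ℕ) := Fin k × (Fin ℓ × Bool → ZMod 2 × ZMod 2)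

/-- the values at a slot -/
def val (y : Lab k ℓ) (s : SL (k * ℓ)) : ZMod 2 × ZMod 2 := y.2 (ps s)

variable [NeZero (k * ℓ)]

/-- the values of a sign change at a slot -/
def aa (h : GA (k * ℓ)) (s : SL (k * ℓ)) : ZMod 2 × ZMod 2 := (h.1 s.1, h.2.1 (cl s))

theorem aa_add (h h' : GA (k * ℓ)) (s : SL (k * ℓ)) : aa (h + h') s = aa h s + aa h' s := rfl

/-- the action of the sign changes on the labels -/
def shiftL (h : GA (k * ℓ)) (y : Lab k ℓ) : Lab k ℓ := (y.1, fun q => y.2 q + aa h (sl y.1 q))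

theorem shiftL_zero (y : Lab k ℓ) : shiftL 0 y = y := by
  refine Prod.ext rfl (funext fun q => ?_)
  show y.2 q + aa 0 (sl y.1 q) = y.2 q
  have h1 : aa (0 : GA (k * ℓ)) (sl y.1 q) = 0 := rfl
  rw [h1, add_zero]

theorem shiftL_add (h h' : GA (k * ℓ)) (y : Lab k ℓ) :
    shiftL (h + h') y = shiftL h (shiftL h' y) := by
  refine Prod.ext rfl (funext fun q => ?_)
  show y.2 q + aa (h + h') (sl y.1 q) = y.2 q + aa h' (sl y.1 q) + aa h (sl y.1 q)
  rw [aa_add]
  abel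

theorem val_shiftL (h : GA (k * ℓ)) (y : Lab k ℓ) (s : SL (k * ℓ)) (hs : gp s = y.1) :
    val (shiftL h y) s = val y s + aa h s := by
  show y.2 (ps s) + aa h (sl y.1 (ps s)) = _
  rw [← hs, sl_gp]
  rfl

/-- the sign changes as permutations of the labels -/
def shiftHom : Multiplicative (GA (k * ℓ)) →* Equiv.Perm (Lab k ℓ) where
  toFun h :=
    { toFun := shiftL (Multiplicative.toAdd h)
      invFun := shiftL (-Multiplicative.toAdd h)
      left_inv := fun y => by rw [← shiftL_add, neg_add_cancel, shiftL_zero]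
      right_inv := fun y => by rw [← shiftL_add, add_neg_cancel, shiftL_zero] }
  map_one' := Equiv.ext fun y => shiftL_zero y
  map_mul' h h' := Equiv.ext fun y => shiftL_add _ _ y

theorem shiftHom_apply (h : GA (k * ℓ)) (y : Lab k ℓ) :
    shiftHom (Multiplicative.ofAdd h) y = shiftL h y := rfl

/-- two values are compatible -/
def Ok (w : WR (k * ℓ)) (t : SL (k * ℓ) → ZMod 2) (s : SL (k * ℓ)) (a : ZMod 2 × ZMod 2)
    (s' : SL (k * ℓ)) (a' : ZMod 2 × ZMod 2) : Prop :=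
  (s.1 = s'.1 → a.1 = a'.1) ∧ (cl s = cl s' → a.2 = a'.2) ∧
    (vr w s = vr w s' → t s + a.1 + a.2 = t s' + a'.1 + a'.2)

theorem Ok_symm {w : WR (k * ℓ)} {t : SL (k * ℓ) → ZMod 2} {s s' : SL (k * ℓ)}
    {a a' : ZMod 2 × ZMod 2} (h : Ok w t s a s' a') : Ok w t s' a' s a :=
  ⟨fun e => (h.1 e.symm).symm, fun e => (h.2.1 e.symm).symm, fun e => (h.2.2 e.symm).symm⟩

theorem Ok_shift (w : WR (k * ℓ)) (t : SL (k * ℓ) → ZMod 2) (h : GA (k * ℓ))
    (s s' : SL (k * ℓ)) (a a' : ZMod 2 × ZMod 2) :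
    Ok w (t + BW w h) s a s' a' ↔ Ok w t s (a + aa h s) s' (a' + aa h s') := by
  have h3 : ∀ x a b : ZMod 2, a + x = b + x ↔ a = b := by decide
  have hB : ∀ s : SL (k * ℓ), (t + BW w h) s = t s + (h.1 s.1 + h.2.1 (cl s) + h.2.2 (vr w s)) :=
    fun s => rfl
  unfold Ok
  refine and_congr ?_ (and_congr ?_ ?_)
  · refine forall_congr' fun e => ?_
    show a.1 = a'.1 ↔ a.1 + h.1 s.1 = a'.1 + h.1 s'.1
    rw [e, h3]
  · refine forall_congr' fun e => ?_
    show a.2 = a'.2 ↔ a.2 + h.2.1 (cl s) = a'.2 + h.2.1 (cl s')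
    rw [e, h3]
  · refine forall_congr' fun e => ?_
    show (t + BW w h) s + a.1 + a.2 = (t + BW w h) s' + a'.1 + a'.2 ↔
      t s + (a.1 + h.1 s.1) + (a.2 + h.2.1 (cl s)) =
        t s' + (a'.1 + h.1 s'.1) + (a'.2 + h.2.1 (cl s'))
    rw [hB, hB, e]
    have h4 : t s + (h.1 s.1 + h.2.1 (cl s) + h.2.2 (vr w s')) + a.1 + a.2 =
        (t s + (a.1 + h.1 s.1) + (a.2 + h.2.1 (cl s))) + h.2.2 (vr w s') := by ring
    have h5 : t s' + (h.1 s'.1 + h.2.1 (cl s') + h.2.2 (vr w s')) + a'.1 + a'.2 =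
        (t s' + (a'.1 + h.1 s'.1) + (a'.2 + h.2.1 (cl s'))) + h.2.2 (vr w s') := by ring
    rw [h4, h5, h3]

/-- the values of two labels are compatible -/
def Fit (w : WR (k * ℓ)) (t : SL (k * ℓ) → ZMod 2) (y y' : Lab k ℓ) : Prop :=
  ∀ s s', gp s = y.1 → gp s' = y'.1 → Ok w t s (val y s) s' (val y' s')

theorem Fit_symm {w : WR (k * ℓ)} {t : SL (k * ℓ) → ZMod 2} {y y' : Lab k ℓ}
    (h : Fit w t y y') : Fit w t y' y := fun s s' hs hs' => Ok_symm (h s' s hs' hs)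

theorem Fit_shift (w : WR (k * ℓ)) (t : SL (k * ℓ) → ZMod 2) (h : GA (k * ℓ)) (y y' : Lab k ℓ) :
    Fit w (t + BW w h) y y' ↔ Fit w t (shiftL h y) (shiftL h y') := by
  refine forall_congr' fun s => forall_congr' fun s' => forall_congr' fun hs =>
    forall_congr' fun hs' => ?_
  rw [Ok_shift, val_shiftL h y s hs, val_shiftL h y' s' hs']

/-- the graph on the labels -/
def labG (w : WR (k * ℓ)) (t : SL (k * ℓ) → ZMod 2) : SimpleGraph (Lab k ℓ) where
  Adj y y' := y.1 ≠ y'.1 ∧ Fit w t y y ∧ Fit w t y' y' ∧ Fit w t y y'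
  symm := ⟨fun _ _ h => ⟨h.1.symm, h.2.2.1, h.2.1, Fit_symm h.2.2.2⟩⟩
  loopless := ⟨fun _ h => h.1 rfl⟩

theorem labG_shift (w : WR (k * ℓ)) (t : SL (k * ℓ) → ZMod 2) (h : GA (k * ℓ)) (y y' : Lab k ℓ) :
    (labG w (t + BW w h)).Adj y y' ↔ (labG w t).Adj (shiftL h y) (shiftL h y') := by
  show (y.1 ≠ y'.1 ∧ Fit w (t + BW w h) y y ∧ Fit w (t + BW w h) y' y' ∧
    Fit w (t + BW w h) y y') ↔ (y.1 ≠ y'.1 ∧ Fit w t (shiftL h y) (shiftL h y) ∧
    Fit w t (shiftL h y') (shiftL h y') ∧ Fit w t (shiftL h y) (shiftL h y'))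
  rw [Fit_shift, Fit_shift, Fit_shift]

variable {n : ℕ}

/-- the hard graphs -/
def hardG (ι : Lab k ℓ ↪ Fin n) (w : WR (k * ℓ)) (t : SL (k * ℓ) → ZMod 2) :
    SimpleGraph (Fin n) := (labG w t).map ι

/-- the sign changes as permutations of the vertices -/
noncomputable def phi (ι : Lab k ℓ ↪ Fin n) :
    Multiplicative (GA (k * ℓ)) →* Equiv.Perm (Fin n) :=
  (Equiv.Perm.viaEmbeddingHom ι).comp shiftHom

theorem phi_apply (ι : Lab k ℓ ↪ Fin n) (h : GA (k * ℓ)) (y : Lab k ℓ) :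
    phi ι (Multiplicative.ofAdd h) (ι y) = ι (shiftL h y) :=
  Equiv.Perm.viaEmbedding_apply _ ι y

theorem shiftL_self (h : GA (k * ℓ)) (y : Lab k ℓ) : shiftL h (shiftL h y) = y := by
  rw [← shiftL_add]
  have h1 : h + h = 0 := by
    have h3 : ∀ a : ZMod 2, a + a = 0 := zmod2_add_self
    refine Prod.ext (funext fun i => h3 _) (Prod.ext (funext fun i => h3 _)
      (funext fun i => h3 _))
  rw [h1, shiftL_zero]

theorem hardG_equi (ι : Lab k ℓ ↪ Fin n) (w : WR (k * ℓ)) (t : SL (k * ℓ) → ZMod 2)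
    (h : GA (k * ℓ)) :
    hardG ι w (t + BW w h) = phi ι (Multiplicative.ofAdd h) • hardG ι w t := by
  ext a b
  rw [smul_adj]
  unfold hardG
  rw [SimpleGraph.map_adj, SimpleGraph.map_adj]
  constructor
  · rintro ⟨y, y', hy, rfl, rfl⟩
    refine ⟨shiftL h y, shiftL h y', (labG_shift w t h y y').mp hy, ?_, ?_⟩
    · rw [eq_comm, Equiv.Perm.inv_eq_iff_eq, phi_apply, shiftL_self]
    · rw [eq_comm, Equiv.Perm.inv_eq_iff_eq, phi_apply, shiftL_self]
  · rintro ⟨z, z', hz, h1, h2⟩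
    refine ⟨shiftL h z, shiftL h z', (labG_shift w t h _ _).mpr ?_, ?_, ?_⟩
    · rw [shiftL_self, shiftL_self]
      exact hz
    · rw [← phi_apply, h1]
      exact Equiv.apply_symm_apply _ a
    · rw [← phi_apply, h2]
      exact Equiv.apply_symm_apply _ b

end Pool.Agent.TH658.Xg
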