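import Pool.Agent.TH658.Xg.BigB
import Pool.Agent.TH658.Xg.Clq

set_option autoImplicit false
set_option linter.unusedSectionVars false

/-! The graph of a random system of tests. -/

namespace Pool.Agent.TH658.Xg

open Finset Pool.Agent.H30R2.PS Pool.Agent.TH658.Eq Pool.Agent.TH658.Xr Pool.Agent.TH658.Sd

/-- labels: a tuple of tests and a word for each of its tests -/
abbrev BgLab (f z T : ℕ) := Fin T × (Fin z → BgA f)

variable {f m n z T N : ℕ}

/-- the value which a label gives to the variable at a place of one of its tests -/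
def bgVal (c : Fin T → Fin z → Fin m) (t : BgS f m → ZMod 2) (y : BgLab f z T) (p : Fin z)
    (u : BgU f) : ZMod 2 := t (c y.1 p, u) + dot (bgPt u) (y.2 p)

/-- two labels give the same values to the variables -/
def BgFit (w : BgW f m n) (c : Fin T → Fin z → Fin m) (t : BgS f m → ZMod 2)
    (y y' : BgLab f z T) : Prop :=
  ∀ p u p' u', w (c y.1 p, u) = w (c y'.1 p', u') → bgVal c t y p u = bgVal c t y' p' u'

theorem BgFit_symm {w : BgW f m n} {c : Fin T → Fin z → Fin m} {t : BgS f m → ZMod 2}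
    {y y' : BgLab f z T} (h : BgFit w c t y y') : BgFit w c t y' y :=
  fun p u p' u' hw => (h p' u' p u hw.symm).symm

/-- the action on the labels -/
def bgSh (c : Fin T → Fin z → Fin m) (h : BgG f m n) (y : BgLab f z T) : BgLab f z T :=
  (y.1, fun p => y.2 p + h.2 (c y.1 p))

theorem bgSh_zero (c : Fin T → Fin z → Fin m) (y : BgLab f z T) :
    bgSh c (0 : BgG f m n) y = y := by
  refine Prod.ext rfl (funext fun p => ?_)
  show y.2 p + 0 = y.2 p
  rw [add_zero]

theorem bgSh_add (c : Fin T → Fin z → Fin m) (h h' : BgG f m n) (y : BgLab f z T) :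
    bgSh c (h + h') y = bgSh c h (bgSh c h' y) := by
  refine Prod.ext rfl (funext fun p => ?_)
  show y.2 p + (h.2 (c y.1 p) + h'.2 (c y.1 p)) = y.2 p + h'.2 (c y.1 p) + h.2 (c y.1 p)
  abel

theorem bgSh_self (c : Fin T → Fin z → Fin m) (h : BgG f m n) (y : BgLab f z T) :
    bgSh c h (bgSh c h y) = y := by
  rw [← bgSh_add]
  have h1 : h + h = 0 := Prod.ext (funext fun j => zmod2_add_self _)
    (funext fun j => funext fun i => zmod2_add_self _)
  rw [h1, bgSh_zero]

/-- the permutations of the labels -/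
def bgShHom (c : Fin T → Fin z → Fin m) :
    Multiplicative (BgG f m n) →* Equiv.Perm (BgLab f z T) where
  toFun h :=
    { toFun := bgSh c h.toAdd
      invFun := bgSh c h.toAdd
      left_inv := bgSh_self c h.toAdd
      right_inv := bgSh_self c h.toAdd }
  map_one' := Equiv.ext fun y => bgSh_zero c y
  map_mul' h h' := Equiv.ext fun y => bgSh_add c h.toAdd h'.toAdd y

theorem bgVal_shift (w : BgW f m n) (c : Fin T → Fin z → Fin m) (t : BgS f m → ZMod 2)
    (h : BgG f m n) (y : BgLab f z T) (p : Fin z) (u : BgU f) :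
    bgVal c (t + bgB w h) y p u = bgVal c t (bgSh c h y) p u + h.1 (w (c y.1 p, u)) := by
  show t (c y.1 p, u) + (h.1 (w (c y.1 p, u)) + dot (bgPt u) (h.2 (c y.1 p))) +
    dot (bgPt u) (y.2 p) = t (c y.1 p, u) + dot (bgPt u) (y.2 p + h.2 (c y.1 p)) +
      h.1 (w (c y.1 p, u))
  rw [dot_add]
  ring

theorem BgFit_shift (w : BgW f m n) (c : Fin T → Fin z → Fin m) (t : BgS f m → ZMod 2)
    (h : BgG f m n) (y y' : BgLab f z T) :
    BgFit w c (t + bgB w h) y y' ↔ BgFit w c t (bgSh c h y) (bgSh c h y') := by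
  refine forall_congr' fun p => forall_congr' fun u => forall_congr' fun p' =>
    forall_congr' fun u' => forall_congr' fun hw => ?_
  rw [bgVal_shift, bgVal_shift]
  have h1 : h.1 (w (c y.1 p, u)) = h.1 (w (c y'.1 p', u')) := congrArg h.1 hw
  rw [h1]
  exact add_left_inj _

/-- the graph on the labels -/
def bgLabG (w : BgW f m n) (c : Fin T → Fin z → Fin m) (t : BgS f m → ZMod 2) :
    SimpleGraph (BgLab f z T) where
  Adj y y' := y.1 ≠ y'.1 ∧ BgFit w c t y y ∧ BgFit w c t y' y' ∧ BgFit w c t y y'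
  symm := ⟨fun _ _ h => ⟨h.1.symm, h.2.2.1, h.2.1, BgFit_symm h.2.2.2⟩⟩
  loopless := ⟨fun _ h => h.1 rfl⟩

theorem bgLabG_shift (w : BgW f m n) (c : Fin T → Fin z → Fin m) (t : BgS f m → ZMod 2)
    (h : BgG f m n) (y y' : BgLab f z T) :
    (bgLabG w c (t + bgB w h)).Adj y y' ↔ (bgLabG w c t).Adj (bgSh c h y) (bgSh c h y') := by
  show (y.1 ≠ y'.1 ∧ BgFit w c (t + bgB w h) y y ∧ BgFit w c (t + bgB w h) y' y' ∧
    BgFit w c (t + bgB w h) y y') ↔ (y.1 ≠ y'.1 ∧ BgFit w c t (bgSh c h y) (bgSh c h y) ∧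
    BgFit w c t (bgSh c h y') (bgSh c h y') ∧ BgFit w c t (bgSh c h y) (bgSh c h y'))
  rw [BgFit_shift, BgFit_shift, BgFit_shift]

/-- the hard graphs -/
def bgHard (ι : BgLab f z T ↪ Fin N) (w : BgW f m n) (c : Fin T → Fin z → Fin m)
    (t : BgS f m → ZMod 2) : SimpleGraph (Fin N) := (bgLabG w c t).map ι

/-- the permutations of the vertices -/
noncomputable def bgPhi (ι : BgLab f z T ↪ Fin N) (c : Fin T → Fin z → Fin m) :
    Multiplicative (BgG f m n) →* Equiv.Perm (Fin N) :=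
  (Equiv.Perm.viaEmbeddingHom ι).comp (bgShHom c)

theorem bgPhi_apply (ι : BgLab f z T ↪ Fin N) (c : Fin T → Fin z → Fin m) (h : BgG f m n)
    (y : BgLab f z T) :
    bgPhi ι c (Multiplicative.ofAdd h) (ι y) = ι (bgSh c h y) :=
  Equiv.Perm.viaEmbedding_apply _ ι y

theorem bgHard_equi (ι : BgLab f z T ↪ Fin N) (w : BgW f m n) (c : Fin T → Fin z → Fin m)
    (t : BgS f m → ZMod 2) (h : BgG f m n) :
    bgHard ι w c (t + bgB w h) = bgPhi ι c (Multiplicative.ofAdd h) • bgHard ι w c t := by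
  ext a b
  rw [smul_adj]
  unfold bgHard
  rw [SimpleGraph.map_adj, SimpleGraph.map_adj]
  constructor
  · rintro ⟨y, y', hy, rfl, rfl⟩
    refine ⟨bgSh c h y, bgSh c h y', (bgLabG_shift w c t h y y').mp hy, ?_, ?_⟩
    · rw [eq_comm, Equiv.Perm.inv_eq_iff_eq, bgPhi_apply, bgSh_self]
    · rw [eq_comm, Equiv.Perm.inv_eq_iff_eq, bgPhi_apply, bgSh_self]
  · rintro ⟨v, v', hv, h1, h2⟩
    refine ⟨bgSh c h v, bgSh c h v', (bgLabG_shift w c t h _ _).mpr ?_, ?_, ?_⟩
    · rw [bgSh_self, bgSh_self]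
      exact hv
    · rw [← bgPhi_apply, h1]
      exact Equiv.apply_symm_apply _ a
    · rw [← bgPhi_apply, h2]
      exact Equiv.apply_symm_apply _ b

/-- the solvable case -/
theorem clique_bgHard (ι : BgLab f z T ↪ Fin N) (w : BgW f m n) (c : Fin T → Fin z → Fin m)
    (h : BgG f m n) : HasClique T (bgHard ι w c (bgB w h)) := by
  have hval : ∀ (j : Fin T) (p : Fin z) (u : BgU f),
      bgVal c (bgB w h) (j, fun p => h.2 (c j p)) p u = h.1 (w (c j p, u)) := by
    intro j p u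
    show h.1 (w (c j p, u)) + dot (bgPt u) (h.2 (c j p)) + dot (bgPt u) (h.2 (c j p)) = _
    rw [add_assoc, zmod2_add_self, add_zero]
  have hfit : ∀ j j' : Fin T, BgFit w c (bgB w h) (j, fun p => h.2 (c j p))
      (j', fun p => h.2 (c j' p)) := by
    intro j j' p u p' u' hw
    rw [hval, hval]
    exact congrArg h.1 hw
  refine ⟨fun j => ι (j, fun p => h.2 (c j p)), fun i j hij => ?_⟩
  unfold bgHard
  rw [SimpleGraph.map_adj]
  exact ⟨_, _, ⟨hij, hfit i i, hfit j j, hfit i j⟩, rfl, rfl⟩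

/-- a clique gives a partial solution -/
theorem bg_of_clique {q : ℕ} (hq : 2 ≤ q) (ι : BgLab f z T ↪ Fin N) (w : BgW f m n)
    (c : Fin T → Fin z → Fin m) (t : BgS f m → ZMod 2) (hc : HasClique q (bgHard ι w c t)) :
    ∃ (x : GX n) (J : Finset (Fin T)), J.card = q ∧
      ∀ j ∈ J, ∀ p, bgIn (t + bgB w (x, 0)) (c j p) := by
  classical
  obtain ⟨a, ha⟩ := hc
  have hother : ∀ i : Fin q, ∃ j, i ≠ j := by
    intro i
    have : Nontrivial (Fin q) := Fin.nontrivial_iff_two_le.mpr hq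
    obtain ⟨j, hj⟩ := exists_ne i
    exact ⟨j, hj.symm⟩
  -- the labels
  have h1 : ∀ i, ∃ y, ι y = a i := by
    intro i
    obtain ⟨j, hj⟩ := hother i
    have h2 := ha i j hj
    unfold bgHard at h2
    rw [SimpleGraph.map_adj] at h2
    obtain ⟨y, _, _, hy, _⟩ := h2
    exact ⟨y, hy⟩
  choose y hy using h1
  have hadj : ∀ i j, i ≠ j → (bgLabG w c t).Adj (y i) (y j) := by
    intro i j hij
    have h2 := ha i j hij
    unfold bgHard at h2
    rw [← hy i, ← hy j, SimpleGraph.map_adj] at h2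
    obtain ⟨v, v', hv, h3, h4⟩ := h2
    rw [ι.injective h3, ι.injective h4] at hv
    exact hv
  have hinj : Function.Injective fun i => (y i).1 := by
    intro i j hij
    by_contra hn
    exact (hadj i j hn).1 hij
  have hfit : ∀ i j, BgFit w c t (y i) (y j) := by
    intro i j
    by_cases hij : i = j
    · obtain ⟨j', hj'⟩ := hother i
      rw [← hij]
      exact (hadj i j' hj').2.1
    · exact (hadj i j hij).2.2.2
  -- the values of the variables
  let x : GX n := fun v =>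
    if h : ∃ P : Fin q × Fin z × BgU f, w (c (y P.1).1 P.2.1, P.2.2) = v then
      bgVal c t (y h.choose.1) h.choose.2.1 h.choose.2.2 else 0
  have hx : ∀ (i : Fin q) (p : Fin z) (u : BgU f),
      x (w (c (y i).1 p, u)) = bgVal c t (y i) p u := by
    intro i p u
    have h : ∃ P : Fin q × Fin z × BgU f,
        w (c (y P.1).1 P.2.1, P.2.2) = w (c (y i).1 p, u) := ⟨(i, p, u), rfl⟩
    have h2 : x (w (c (y i).1 p, u)) = bgVal c t (y h.choose.1) h.choose.2.1 h.choose.2.2 :=
      dif_pos h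
    rw [h2]
    exact hfit _ _ _ _ _ _ h.choose_spec
  refine ⟨x, univ.image fun i => (y i).1, ?_, ?_⟩
  · rw [Finset.card_image_of_injective _ hinj, Finset.card_univ, Fintype.card_fin]
  · intro j hj p
    obtain ⟨i, _, rfl⟩ := Finset.mem_image.mp hj
    refine ⟨(y i).2 p, fun u => ?_⟩
    show t (c (y i).1 p, u) + (x (w (c (y i).1 p, u)) + dot (bgPt u) 0) = _
    rw [hx, dot_zero, add_zero]
    show t (c (y i).1 p, u) + (t (c (y i).1 p, u) + dot (bgPt u) ((y i).2 p)) = _
    rw [← add_assoc, zmod2_add_self, zero_add]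

/-- words of the code do not matter -/
theorem bgIn_add (w : BgW f m n) (h : BgG f m n) (e : BgS f m → ZMod 2) (x : GX n) (i : Fin m)
    (hi : bgIn (bgB w h + e + bgB w (x, 0)) i) : bgIn (e + bgB w (h.1 + x, 0)) i := by
  obtain ⟨a, ha⟩ := hi
  refine ⟨a + h.2 i, fun u => ?_⟩
  have h1 : h.1 (w (i, u)) + dot (bgPt u) (h.2 i) + e (i, u) + (x (w (i, u)) + dot (bgPt u) 0) =
    dot (bgPt u) a := ha u
  show e (i, u) + (h.1 (w (i, u)) + x (w (i, u)) + dot (bgPt u) 0) = _
  rw [dot_add, ← h1, dot_zero]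
  have h2 : ∀ a b c d : ZMod 2, c + (a + d + 0) = a + b + c + (d + 0) + b := by decide
  exact h2 _ _ _ _

/-- local functions have low degree -/
theorem bgLow {K : Type} [Field K] (h2 : (2 : K) ≠ 0) (ι : BgLab f z T ↪ Fin N)
    (w : BgW f m n) (c : Fin T → Fin z → Fin m) (d τ : ℕ) (hd : d * (z * 2 ^ f) ≤ τ)
    (F : SimpleGraph (Fin N) → K) (hF : F ∈ LocalGraph N d K) :
    (fun t => F (bgHard ι w c t)) ∈ Sp K {l : BgS f m → ZMod 2 | wt l ≤ τ} := by
  classical
  refine Submodule.span_induction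
    (p := fun F _ => (fun t => F (bgHard ι w c t)) ∈
      Sp K {l : BgS f m → ZMod 2 | wt l ≤ τ}) ?_ ?_ ?_ ?_ hF
  · rintro F ⟨D, hD, hF⟩
    -- the tuples of the vertices in `D`
    let J : Finset (Fin T) := (univ.filter fun y : BgLab f z T => ι y ∈ D).image fun y => y.1
    have hJ : J.card ≤ d := by
      refine Finset.card_image_le.trans (le_trans ?_ hD)
      refine Finset.card_le_card_of_injOn ι ?_ (fun _ _ _ _ h => ι.injective h)
      intro y hy
      exact (Finset.mem_filter.mp (Finset.mem_coe.mp hy)).2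
    let J' : Finset (BgS f m) := (J ×ˢ (univ : Finset (Fin z × BgU f))).image fun P =>
      (c P.1 P.2.1, P.2.2)
    have hJ' : J'.card ≤ τ := by
      refine Finset.card_image_le.trans ?_
      rw [Finset.card_product, Finset.card_univ, Fintype.card_prod, Fintype.card_fin, card_BgU]
      exact le_trans (Nat.mul_le_mul_right _ hJ) hd
    refine Sp_mono (fun l hl => (wt_le_of_supp l _ hl).trans hJ') (junta h2 _ J' ?_)
    intro t t' htt
    refine hF _ _ fun a ha b hb => ?_
    have hval : ∀ (y : BgLab f z T) (p : Fin z) (u : BgU f), ι y ∈ D →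
        bgVal c t y p u = bgVal c t' y p u := by
      intro y p u hy
      show t (c y.1 p, u) + dot (bgPt u) (y.2 p) = t' (c y.1 p, u) + dot (bgPt u) (y.2 p)
      rw [htt (c y.1 p, u) (Finset.mem_image.mpr ⟨(y.1, p, u), Finset.mem_product.mpr
        ⟨Finset.mem_image.mpr ⟨y, Finset.mem_filter.mpr ⟨mem_univ _, hy⟩, rfl⟩, mem_univ _⟩,
        rfl⟩)]
    have hfit : ∀ y y' : BgLab f z T, ι y ∈ D → ι y' ∈ D →
        (BgFit w c t y y' ↔ BgFit w c t' y y') := by
      intro y y' hy hy'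
      refine forall_congr' fun p => forall_congr' fun u => forall_congr' fun p' =>
        forall_congr' fun u' => forall_congr' fun hw => ?_
      rw [hval y p u hy, hval y' p' u' hy']
    unfold bgHard
    rw [SimpleGraph.map_adj, SimpleGraph.map_adj]
    refine exists_congr fun y => exists_congr fun y' => ?_
    constructor
    · rintro ⟨h3, h4, h5⟩
      have hy : ι y ∈ D := by rw [h4]; exact ha
      have hy' : ι y' ∈ D := by rw [h5]; exact hb
      exact ⟨⟨h3.1, (hfit y y hy hy).mp h3.2.1, (hfit y' y' hy' hy').mp h3.2.2.1,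
        (hfit y y' hy hy').mp h3.2.2.2⟩, h4, h5⟩
    · rintro ⟨h3, h4, h5⟩
      have hy : ι y ∈ D := by rw [h4]; exact ha
      have hy' : ι y' ∈ D := by rw [h5]; exact hb
      exact ⟨⟨h3.1, (hfit y y hy hy).mpr h3.2.1, (hfit y' y' hy' hy').mpr h3.2.2.1,
        (hfit y y' hy hy').mpr h3.2.2.2⟩, h4, h5⟩
  · exact Submodule.zero_mem _
  · intro F F' _ _ h3 h4
    exact Submodule.add_mem _ h3 h4
  · intro a F _ h3
    exact Submodule.smul_mem _ a h3

/-- The average case bound for approximating cliques within large factors. -/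
theorem big_average {f z τ m n T N d : ℕ} (hf : f + 4 ≤ 2 ^ f) (hτ : 2 ≤ τ)
    (hn : n = 2 ^ (4 * 2 ^ f + 47) * τ) (hm : m = 2 ^ (2 ^ f) * n)
    (hT : T = m * 2 ^ ((2 ^ f - (f + 4)) * z)) (hN : T * (2 ^ (f + 1)) ^ z ≤ N)
    (hd : d * (z * 2 ^ f) ≤ τ) :
    ∃ (Ω : Type) (_ : Fintype Ω) (_ : Nonempty Ω) (F G : Ω → SimpleGraph (Fin N)),
      (∀ ω, HasClique T (F ω) ∧ ¬ HasClique (3 * m) (G ω)) ∧
      ∀ (s : ℕ) (V : Type) (v : Fin s → SimpleGraph (Fin N) → V)
        (H : Fin s → Subgroup (Equiv.Perm (Fin N))) (r p : Fin s → ℕ),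
        IsProgram (Equiv.Perm (Fin N)) (LocalGraph N d) v H r p → ∀ (j₀ : Fin s) (T : Set V),
        |(Nat.card {ω // v j₀ (F ω) ∈ T} : ℝ) - Nat.card {ω // v j₀ (G ω) ∈ T}| *
          8 ^ τ ≤ ((∑ j, r j ^ p j * (H j).index : ℕ) : ℝ) * Nat.card Ω := by
  classical
  have hn0 : 0 < n := by
    rw [hn]
    positivity
  have hm0 : 0 < m := by
    rw [hm]
    positivity
  have hcard : Fintype.card (BgLab f z T) ≤ Fintype.card (Fin N) := by
    rw [Fintype.card_prod, Fintype.card_fun, Fintype.card_fun, ZMod.card, Fintype.card_fin,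
      Fintype.card_fin, Fintype.card_fin, Fintype.card_fin]
    exact hN
  obtain ⟨ι⟩ := Function.Embedding.nonempty_of_card_le hcard
  obtain ⟨W, i1, i2, w, e, hβ, hw⟩ := big_family (f := f) (M := 2 ^ (f + 4) * n) hτ hn hm rfl
  have htup : (T : ℝ) * (((2 ^ (f + 4) * n : ℕ) : ℝ) / m) ^ z ≤ m := by
    have hnR : (0 : ℝ) < n := by exact_mod_cast hn0
    have h1 : ((2 ^ (f + 4) * n : ℕ) : ℝ) / m = 1 / 2 ^ (2 ^ f - (f + 4)) := by
      have h2 : (2 : ℝ) ^ (2 ^ f) = 2 ^ (2 ^ f - (f + 4)) * 2 ^ (f + 4) := by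
        rw [← pow_add, Nat.sub_add_cancel hf]
      rw [hm]
      push_cast
      rw [h2]
      field_simp
    rw [h1, hT]
    push_cast
    rw [div_pow, one_pow, ← pow_mul, mul_one_div, mul_div_assoc, div_self (by positivity),
      mul_one]
  obtain ⟨c, hc⟩ := exists_tuples hm0 htup
  refine ⟨W × BgG f m n, inferInstance, inferInstance,
    fun ω => bgHard ι (w ω.1) c (bgB (w ω.1) ω.2),
    fun ω => bgHard ι (w ω.1) c (bgB (w ω.1) ω.2 + e ω.1), fun ω => ?_, ?_⟩
  · refine ⟨clique_bgHard ι _ _ _, fun hcl => ?_⟩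
    obtain ⟨x, J, hJ, hJ2⟩ := bg_of_clique (by omega) ι _ _ _ hcl
    have h1 := (hw ω.1).2 (ω.2.1 + x)
    have h2 : (univ.filter fun i : Fin m =>
        bgIn (e ω.1 + bgB (w ω.1) (ω.2.1 + x, 0)) i).card ≤ 2 ^ (f + 4) * n := by
      by_contra hcon
      exact h1 (Finset.mem_filter.mpr ⟨mem_univ _, not_le.mp hcon⟩)
    have h3 := hc _ h2
    have h4 : J ⊆ univ.filter fun j => ∀ p, c j p ∈ univ.filter fun i : Fin m =>
        bgIn (e ω.1 + bgB (w ω.1) (ω.2.1 + x, 0)) i := by
      intro j hj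
      refine Finset.mem_filter.mpr ⟨mem_univ _, fun p => Finset.mem_filter.mpr ⟨mem_univ _, ?_⟩⟩
      exact bgIn_add (w ω.1) ω.2 (e ω.1) x _ (hJ2 j hj p)
    have h5 := Finset.card_le_card h4
    omega
  · intro s V v H r p hp j₀ T'
    exact average_core (W := W) (fun i => bgB (w i)) τ (Nat.card W / 8 ^ τ) (8 ^ τ)
      (by positivity) (fun ψ => by
        rw [le_div_iff₀ (by positivity)]
        exact hβ ψ) (by rw [div_mul_cancel₀ _ (by positivity)]) (bgPhi ι c)
      (fun i t => bgHard ι (w i) c t) (fun i t h => bgHard_equi ι (w i) c t h) e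
      (fun i => (hw i).1) (LocalGraph N d)
      (fun K iK g F hF => localGraph_inv K g F hF)
      (fun K iK h2 i F hF => bgLow h2 ι (w i) c d τ hd F hF) v H r p hp j₀ T'

end Pool.Agent.TH658.Xg
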