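import Pool.Agent.TH658.Xg.BigC

set_option autoImplicit false
set_option linter.unusedSectionVars false

/-! The choice of the parameters. -/

namespace Pool.Agent.TH658.Xg

open Finset Pool.Agent.H30R2.PS Pool.Agent.TH658.Eq Pool.Agent.TH658.Xr

theorem HasClique_mono {n k k' : ℕ} (h : k ≤ k') {G : SimpleGraph (Fin n)}
    (hG : HasClique k' G) : HasClique k G := by
  obtain ⟨c, hc⟩ := hG
  exact ⟨fun i => c (Fin.castLE h i), fun i j hij => hc _ _ fun h' =>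
    hij (Fin.castLE_injective h h')⟩

theorem ex_eq {α : Type} (a : α) : ∃ x, x = a := ⟨a, rfl⟩

/-- a long code with few words -/
theorem exists_code {α : ℝ} (hα : 0 < α) :
    ∃ f : ℕ, f + 4 ≤ 2 ^ f ∧ ((f : ℝ) + 1) ≤ α / 2 * ((2 ^ f - (f + 4) + (f + 1) : ℕ) : ℝ) := by
  have h1 := tendsto_pow_const_div_const_pow_of_one_lt 1 (by norm_num : (1 : ℝ) < 2)
  have h2 : ∀ᶠ f : ℕ in Filter.atTop, (f : ℝ) ^ 1 / 2 ^ f < α / 8 :=
    h1.eventually (gt_mem_nhds (by positivity))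
  obtain ⟨f, hf1, hf2⟩ := (h2.and (Filter.eventually_ge_atTop 3)).exists
  have h3 : f + 4 ≤ 2 ^ f := by
    clear hf1 h1 h2
    induction f, hf2 using Nat.le_induction with
    | base => norm_num
    | succ f _ ih =>
      rw [pow_succ]
      omega
  refine ⟨f, h3, ?_⟩
  have h4 : (2 ^ f - (f + 4) + (f + 1) : ℕ) = 2 ^ f - 3 := by omega
  have h5 : 8 ≤ 2 ^ f := by
    calc 8 = 2 ^ 3 := by norm_num
      _ ≤ 2 ^ f := Nat.pow_le_pow_right (by norm_num) hf2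
  rw [h4, Nat.cast_sub (by omega)]
  push_cast
  rw [pow_one, div_lt_iff₀ (by positivity)] at hf1
  have h6 : (8 : ℝ) ≤ 2 ^ f := by exact_mod_cast h5
  have h7 : (3 : ℝ) ≤ f := by exact_mod_cast hf2
  nlinarith

/-- the average case bound with an unspecified constant -/
theorem big_average' (f : ℕ) (hf : f + 4 ≤ 2 ^ f) : ∃ A : ℕ, 0 < A ∧
    ∀ z τ N d : ℕ, 2 ≤ τ → A * τ * 2 ^ ((2 ^ f - (f + 4)) * z) * (2 ^ (f + 1)) ^ z ≤ N →
      d * (z * 2 ^ f) ≤ τ →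
      ∃ (Ω : Type) (_ : Fintype Ω) (_ : Nonempty Ω) (F G : Ω → SimpleGraph (Fin N)),
      (∀ ω, HasClique (A * τ * 2 ^ ((2 ^ f - (f + 4)) * z)) (F ω) ∧
        ¬ HasClique (3 * (A * τ)) (G ω)) ∧
      ∀ (s : ℕ) (V : Type) (v : Fin s → SimpleGraph (Fin N) → V)
        (H : Fin s → Subgroup (Equiv.Perm (Fin N))) (r p : Fin s → ℕ),
        IsProgram (Equiv.Perm (Fin N)) (LocalGraph N d) v H r p → ∀ (j₀ : Fin s) (T : Set V),
        |(Nat.card {ω // v j₀ (F ω) ∈ T} : ℝ) - Nat.card {ω // v j₀ (G ω) ∈ T}| *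
          8 ^ τ ≤ ((∑ j, r j ^ p j * (H j).index : ℕ) : ℝ) * Nat.card Ω := by
  obtain ⟨A, hA⟩ := ex_eq (2 ^ (2 ^ f) * 2 ^ (4 * 2 ^ f + 47))
  have hA0 : 0 < A := by
    rw [hA]
    positivity
  refine ⟨A, hA0, fun z τ N d hτ hN hd => ?_⟩
  obtain ⟨nn, hnn⟩ := ex_eq (2 ^ (4 * 2 ^ f + 47) * τ)
  have hm : A * τ = 2 ^ (2 ^ f) * nn := by rw [hA, hnn, mul_assoc]
  exact big_average hf hτ hnn hm rfl hN hd

theorem near_linear {α β : ℝ} (hα : 0 < α) (hβ : 0 < β) (hβ1 : β < 1) :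
    ∃ c : ℝ, 0 < c ∧ ∃ n₁ : ℕ, ∀ n k q d : ℕ, n₁ ≤ n → (k : ℝ) ≤ (n : ℝ) ^ (1 - α) →
      (n : ℝ) ^ β ≤ q → (d : ℝ) ≤ c * (n : ℝ) ^ β / Real.log n →
      ∃ (Ω : Type) (_ : Fintype Ω) (_ : Nonempty Ω) (F G : Ω → SimpleGraph (Fin n)),
        (∀ ω, HasClique k (F ω) ∧ ¬ HasClique q (G ω)) ∧
        ∀ (s : ℕ) (V : Type) (v : Fin s → SimpleGraph (Fin n) → V)
          (H : Fin s → Subgroup (Equiv.Perm (Fin n))) (r p : Fin s → ℕ),
          IsProgram (Equiv.Perm (Fin n)) (LocalGraph n d) v H r p → ∀ (j₀ : Fin s) (T : Set V),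
          |(Nat.card {ω // v j₀ (F ω) ∈ T} : ℝ) - Nat.card {ω // v j₀ (G ω) ∈ T}| *
            (3 * (2 : ℝ) ^ (c * (n : ℝ) ^ β)) ≤
            ((∑ j, r j ^ p j * (H j).index : ℕ) : ℝ) * Nat.card Ω := by
  classical
  obtain ⟨f, hf, hfα⟩ := exists_code hα
  obtain ⟨E, hE⟩ := ex_eq (2 ^ f - (f + 4) + (f + 1))
  rw [← hE] at hfα
  have hE1 : 1 ≤ E := by omega
  have hER : (1 : ℝ) ≤ E := by exact_mod_cast hE1
  obtain ⟨A, hA0, hbig⟩ := big_average' f hf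
  have hAR : (1 : ℝ) ≤ A := by exact_mod_cast hA0
  have hKR : (1 : ℝ) ≤ 2 ^ f := one_le_pow₀ (by norm_num)
  obtain ⟨c, hc⟩ := ex_eq (1 / (12 * (A : ℝ) * 2 ^ f))
  have hc0 : 0 < c := by
    rw [hc]
    positivity
  have ht1 : Filter.Tendsto (fun n : ℕ => (n : ℝ) ^ β) Filter.atTop Filter.atTop :=
    (tendsto_rpow_atTop hβ).comp tendsto_natCast_atTop_atTop
  have ht2 : Filter.Tendsto (fun n : ℕ => (n : ℝ) ^ (α / 2)) Filter.atTop Filter.atTop :=
    (tendsto_rpow_atTop (by positivity)).comp tendsto_natCast_atTop_atTop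
  obtain ⟨n₁, hn₁⟩ := Filter.eventually_atTop.mp
    ((ht1.eventually_ge_atTop (12 * A)).and ((ht2.eventually_ge_atTop (2 ^ E)).and
      (Filter.eventually_ge_atTop 2)))
  refine ⟨c, hc0, n₁, fun n k q d hn hk hq hd => ?_⟩
  obtain ⟨he1, he2, he3⟩ := hn₁ n hn
  have hn2 : (2 : ℝ) ≤ n := by exact_mod_cast he3
  have hn0 : (0 : ℝ) < n := by linarith
  have hlog : 0 < Real.log n := Real.log_pos (by linarith)
  obtain ⟨τ, hτ⟩ := ex_eq ⌊(n : ℝ) ^ β / (3 * A)⌋₊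
  have hnβ : 0 < (n : ℝ) ^ β := Real.rpow_pos_of_pos hn0 _
  have hτ1 : (τ : ℝ) ≤ (n : ℝ) ^ β / (3 * A) := by
    rw [hτ]
    exact Nat.floor_le (by positivity)
  have hτ2 : (n : ℝ) ^ β / (3 * A) < τ + 1 := by
    rw [hτ]
    exact Nat.lt_floor_add_one _
  have hq4 : 4 ≤ (n : ℝ) ^ β / (3 * A) := by
    rw [le_div_iff₀ (by positivity)]
    linarith
  have hτ3 : (n : ℝ) ^ β / (6 * A) ≤ τ := by
    have h1 : (n : ℝ) ^ β / (6 * A) = (n : ℝ) ^ β / (3 * A) / 2 := by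
      field_simp
      norm_num
    rw [h1]
    linarith
  have hτ4 : 2 ≤ τ := by
    have h1 : (3 : ℝ) < τ + 1 := by linarith
    have h2 : (2 : ℝ) < τ := by linarith
    have h3 : 2 < τ := by exact_mod_cast h2
    omega
  obtain ⟨m, hmA⟩ := ex_eq (A * τ)
  have hm0 : 0 < m := by
    rw [hmA]
    positivity
  have h3m : ((3 * m : ℕ) : ℝ) ≤ (n : ℝ) ^ β := by
    rw [hmA]
    push_cast
    rw [le_div_iff₀ (by positivity)] at hτ1
    linarith
  have hmn : m ≤ n := by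
    have h1 : ((3 * m : ℕ) : ℝ) ≤ n := by
      refine h3m.trans ?_
      calc (n : ℝ) ^ β ≤ (n : ℝ) ^ (1 : ℝ) :=
            Real.rpow_le_rpow_of_exponent_le (by linarith) hβ1.le
        _ = n := Real.rpow_one _
    have h2 : 3 * m ≤ n := by exact_mod_cast h1
    omega
  -- the number of tests of a tuple
  have hex : ∃ z, n < m * 2 ^ (E * (z + 1)) := by
    refine ⟨n, ?_⟩
    have h1 : n < 2 ^ (E * (n + 1)) := by
      refine lt_of_lt_of_le (Nat.lt_pow_self (by norm_num : 1 < 2)) ?_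
      refine Nat.pow_le_pow_right (by norm_num) ?_
      nlinarith
    exact lt_of_lt_of_le h1 (Nat.le_mul_of_pos_left _ hm0)
  obtain ⟨z, hz1, hz2⟩ : ∃ z, n < m * 2 ^ (E * (z + 1)) ∧ m * 2 ^ (E * z) ≤ n := by
    refine ⟨Nat.find hex, Nat.find_spec hex, ?_⟩
    rcases Nat.eq_zero_or_pos (Nat.find hex) with h | h
    · rw [h, mul_zero, pow_zero, mul_one]
      exact hmn
    · have h1 := Nat.find_min hex (m := Nat.find hex - 1) (by omega)
      rw [not_lt, Nat.sub_add_cancel h] at h1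
      exact h1
  obtain ⟨T, hT⟩ := ex_eq (m * 2 ^ ((2 ^ f - (f + 4)) * z))
  have hTz : T * (2 ^ (f + 1)) ^ z = m * 2 ^ (E * z) := by
    rw [hT, mul_assoc, ← pow_mul, ← pow_add, ← add_mul, hE]
  have hEz : (2 : ℝ) ^ (E * z) ≤ n := by
    have h1 : 2 ^ (E * z) ≤ n := le_trans (Nat.le_mul_of_pos_left _ hm0) hz2
    exact_mod_cast h1
  -- the size of the clique
  have hwords : ((2 : ℝ) ^ (f + 1)) ^ z ≤ (n : ℝ) ^ (α / 2) := by
    have h1 : ((2 : ℝ) ^ (f + 1)) ^ z = ((2 : ℝ) ^ (E * z)) ^ (((f : ℝ) + 1) / E) := by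
      rw [← pow_mul, ← Real.rpow_natCast, ← Real.rpow_natCast, ← Real.rpow_mul (by norm_num)]
      congr 1
      push_cast
      field_simp
    rw [h1]
    refine (Real.rpow_le_rpow (by positivity) hEz (by positivity)).trans ?_
    refine Real.rpow_le_rpow_of_exponent_le (by linarith) ?_
    rw [div_le_iff₀ (by linarith)]
    exact hfα
  have hkT : k ≤ T := by
    have h1 : (n : ℝ) ≤ T * (((2 : ℝ) ^ (f + 1)) ^ z * 2 ^ E) := by
      have h2 : (n : ℝ) ≤ m * 2 ^ (E * (z + 1)) := by exact_mod_cast hz1.le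
      have h3 : ((T * (2 ^ (f + 1)) ^ z : ℕ) : ℝ) = ((m * 2 ^ (E * z) : ℕ) : ℝ) := by
        exact_mod_cast hTz
      push_cast at h3
      refine h2.trans (le_of_eq ?_)
      rw [← mul_assoc, h3, mul_add, mul_one, pow_add]
      ring
    have h2 : ((2 : ℝ) ^ (f + 1)) ^ z * 2 ^ E ≤ (n : ℝ) ^ α := by
      have h3 : (n : ℝ) ^ α = (n : ℝ) ^ (α / 2) * (n : ℝ) ^ (α / 2) := by
        rw [← Real.rpow_add hn0]
        congr 1
        ring
      rw [h3]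
      exact mul_le_mul hwords he2 (by positivity) (by positivity)
    have h3 : (k : ℝ) * (n : ℝ) ^ α ≤ T * (n : ℝ) ^ α := by
      have h4 : (n : ℝ) ^ (1 - α) * (n : ℝ) ^ α = n := by
        rw [← Real.rpow_add hn0, sub_add_cancel, Real.rpow_one]
      have h5 : (0 : ℝ) ≤ (n : ℝ) ^ α := Real.rpow_nonneg hn0.le _
      calc (k : ℝ) * (n : ℝ) ^ α ≤ (n : ℝ) ^ (1 - α) * (n : ℝ) ^ α :=
            mul_le_mul_of_nonneg_right hk h5
        _ = n := h4
        _ ≤ T * (((2 : ℝ) ^ (f + 1)) ^ z * 2 ^ E) := h1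
        _ ≤ T * (n : ℝ) ^ α := mul_le_mul_of_nonneg_left h2 (Nat.cast_nonneg _)
    have h4 : (k : ℝ) ≤ T := le_of_mul_le_mul_right h3 (Real.rpow_pos_of_pos hn0 _)
    exact_mod_cast h4
  -- the local functions
  have hdz : d * (z * 2 ^ f) ≤ τ := by
    have h1 : (z : ℝ) ≤ 2 * Real.log n := by
      have h2 : (2 : ℝ) ^ z ≤ n := by
        refine le_trans (pow_le_pow_right₀ (by norm_num) ?_) hEz
        exact Nat.le_mul_of_pos_left z hE1
      have h3 := Real.log_le_log (by positivity) h2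
      rw [Real.log_pow] at h3
      have h4 := Real.log_two_gt_d9
      have h5 : (0 : ℝ) ≤ z := Nat.cast_nonneg z
      nlinarith
    have h2 : ((d * (z * 2 ^ f) : ℕ) : ℝ) ≤ τ := by
      push_cast
      have h3 : (d : ℝ) * (z * 2 ^ f) ≤ c * (n : ℝ) ^ β / Real.log n *
          (2 * Real.log n * 2 ^ f) :=
        mul_le_mul hd (mul_le_mul_of_nonneg_right h1 (by positivity)) (by positivity)
          (by positivity)
      refine h3.trans (le_trans (le_of_eq ?_) hτ3)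
      rw [hc]
      field_simp
      norm_num
    exact_mod_cast h2
  obtain ⟨Ω, i1, i2, F, G, h1, h2⟩ := hbig z τ n d hτ4
    (by rw [← hmA, ← hT, hTz]; exact hz2) hdz
  rw [← hmA, ← hT] at h1
  refine ⟨Ω, i1, i2, F, G, fun ω => ⟨HasClique_mono hkT (h1 ω).1, fun h =>
    (h1 ω).2 (HasClique_mono ?_ h)⟩, ?_⟩
  · have h3 : ((3 * m : ℕ) : ℝ) ≤ q := h3m.trans hq
    exact_mod_cast h3
  · intro s V v H r p hp j₀ T'
    refine le_trans (mul_le_mul_of_nonneg_left ?_ (abs_nonneg _)) (h2 s V v H r p hp j₀ T')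
    have h3 : c * (n : ℝ) ^ β ≤ τ := by
      refine le_trans ?_ hτ3
      rw [hc, div_mul_eq_mul_div, one_mul]
      refine div_le_div_of_nonneg_left hnβ.le (by positivity) ?_
      nlinarith
    have h4 : (2 : ℝ) ^ (c * (n : ℝ) ^ β) ≤ 2 ^ τ := by
      rw [← Real.rpow_natCast]
      exact Real.rpow_le_rpow_of_exponent_le (by norm_num) h3
    have h5 : (8 : ℝ) ^ τ = 4 ^ τ * 2 ^ τ := by
      rw [← mul_pow]
      norm_num
    have h6 : (4 : ℝ) ^ 1 ≤ 4 ^ τ := pow_le_pow_right₀ (by norm_num) (by omega)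
    rw [pow_one] at h6
    have h7 : (0 : ℝ) < 2 ^ (c * (n : ℝ) ^ β) := Real.rpow_pos_of_pos (by norm_num) _
    rw [h5]
    refine mul_le_mul (by linarith) h4 h7.le (by positivity)

end Pool.Agent.TH658.Xg
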