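import Pool.Agent.TH658.Xg.Clq

set_option autoImplicit false
set_option linter.unusedSectionVars false

/-! Cliques in the hard graphs, locality, and the bound for programs. -/

namespace Pool.Agent.TH658.Xg

open Finset Pool.Agent.H30R2.PS Pool.Agent.TH658.Eq Pool.Agent.TH658.Xr Pool.Agent.TH658.Sd

variable {k ℓ n : ℕ} [NeZero (k * ℓ)]

/-- the solvable case -/
theorem clique_hardG (ι : Lab k ℓ ↪ Fin n) (w : WR (k * ℓ)) (h : GA (k * ℓ)) :
    HasClique k (hardG ι w (BW w h)) := by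
  have h0 : ∀ y y' : Lab k ℓ, y.2 = 0 → y'.2 = 0 → Fit w 0 y y' := by
    intro y y' hy hy' s s' _ _
    have h1 : val y s = 0 := by
      unfold val
      rw [hy]
      rfl
    have h2 : val y' s' = 0 := by
      unfold val
      rw [hy']
      rfl
    rw [h1, h2]
    exact ⟨fun _ => rfl, fun _ => rfl, fun _ => rfl⟩
  refine ⟨fun g => ι (shiftL h (g, 0)), fun i j hij => ?_⟩
  unfold hardG
  rw [SimpleGraph.map_adj]
  refine ⟨_, _, ?_, rfl, rfl⟩
  have h1 : BW w h = 0 + BW w h := (zero_add _).symm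
  rw [h1, labG_shift, shiftL_self, shiftL_self]
  exact ⟨hij, h0 _ _ rfl rfl, h0 _ _ rfl rfl, h0 _ _ rfl rfl⟩

theorem sum_BW (w : WR (k * ℓ)) (h : GA (k * ℓ)) :
    dot (1 : SL (k * ℓ) → ZMod 2) (BW w h) = 0 := by
  have h2 : (1 : ZMod 2) + 1 = 0 := rfl
  rw [dot_BW]
  have h3 : ∀ a : ZMod 2, a * ((1 : SL (k * ℓ) → ZMod 2) (0, false) +
      (1 : SL (k * ℓ) → ZMod 2) (0, true)) = 0 := fun a => by
    show a * (1 + 1) = 0
    rw [h2, mul_zero]
  have h4 : ∀ (f : Fin (k * ℓ) → ZMod 2), ∑ i, f i * ((1 : ZMod 2) + 1) = 0 := fun f =>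
    Finset.sum_eq_zero fun i _ => by rw [h2, mul_zero]
  show ∑ i, h.1 i * ((1 : ZMod 2) + 1) + ∑ j, h.2.1 j * ((1 : ZMod 2) + 1) +
    ∑ v, h.2.2 v * ((1 : ZMod 2) + 1) = 0
  rw [h4, h4, h4]
  rfl

theorem cl_true (j : Fin (k * ℓ)) : cl ((j, true) : SL (k * ℓ)) = j := rfl

theorem vr_true (w : WR (k * ℓ)) (v : Fin (k * ℓ)) :
    vr w ((w.2 v, true) : SL (k * ℓ)) = v := w.2.symm_apply_apply v

/-- a clique gives a solution -/
theorem solution_of_clique (hk : 2 ≤ k) (ι : Lab k ℓ ↪ Fin n) (w : WR (k * ℓ))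
    (t : SL (k * ℓ) → ZMod 2) (hc : HasClique k (hardG ι w t)) : ∃ h, t = BW w h := by
  classical
  obtain ⟨c, hc⟩ := hc
  -- the labels
  have h1 : ∀ i, ∃ y, ι y = c i := by
    intro i
    obtain ⟨j, hj⟩ : ∃ j : Fin k, i ≠ j := by
      have : Nontrivial (Fin k) := Fin.nontrivial_iff_two_le.mpr hk
      obtain ⟨j, hj⟩ := exists_ne i
      exact ⟨j, hj.symm⟩
    have h2 := hc i j hj
    unfold hardG at h2
    rw [SimpleGraph.map_adj] at h2
    obtain ⟨y, _, _, hy, _⟩ := h2
    exact ⟨y, hy⟩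
  choose y hy using h1
  have hadj : ∀ i j, i ≠ j → (labG w t).Adj (y i) (y j) := by
    intro i j hij
    have h2 := hc i j hij
    unfold hardG at h2
    rw [← hy i, ← hy j, SimpleGraph.map_adj] at h2
    obtain ⟨z, z', hz, h3, h4⟩ := h2
    rw [ι.injective h3, ι.injective h4] at hz
    exact hz
  have hinj : Function.Injective fun i => (y i).1 := by
    intro i j hij
    by_contra hn
    exact (hadj i j hn).1 hij
  have hsurj : Function.Surjective fun i => (y i).1 := Finite.injective_iff_surjective.mp hinj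
  choose σ hσ using hsurj
  -- the compatible values
  let u : SL (k * ℓ) → ZMod 2 × ZMod 2 := fun s => val (y (σ (gp s))) s
  have hOk : ∀ s s', Ok w t s (u s) s' (u s') := by
    intro s s'
    have hs : gp s = (y (σ (gp s))).1 := (hσ (gp s)).symm
    have hs' : gp s' = (y (σ (gp s'))).1 := (hσ (gp s')).symm
    by_cases h2 : σ (gp s) = σ (gp s')
    · obtain ⟨j, hj⟩ : ∃ j : Fin k, σ (gp s) ≠ j := by
        have : Nontrivial (Fin k) := Fin.nontrivial_iff_two_le.mpr hk
        obtain ⟨j, hj⟩ := exists_ne (σ (gp s))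
        exact ⟨j, hj.symm⟩
      have h3 := (hadj _ j hj).2.1 s s' hs (by rw [h2]; exact hs')
      have h4 : val (y (σ (gp s))) s' = u s' := by
        show _ = val (y (σ (gp s'))) s'
        rw [h2]
      rw [h4] at h3
      exact h3
    · exact (hadj _ _ h2).2.2.2 s s' hs hs'
  refine ⟨(fun i => (u (i, true)).1, fun j => (u (j, true)).2,
    fun v => t (w.2 v, true) + (u (w.2 v, true)).1 + (u (w.2 v, true)).2), funext fun s => ?_⟩
  have h2 : (u s).1 = (u (s.1, true)).1 := (hOk s (s.1, true)).1 rfl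
  have h3 : (u s).2 = (u (cl s, true)).2 := (hOk s (cl s, true)).2.1 (cl_true (cl s)).symm
  have h4 := (hOk s (w.2 (vr w s), true)).2.2 (vr_true w (vr w s)).symm
  show t s = (u (s.1, true)).1 + (u (cl s, true)).2 + (t (w.2 (vr w s), true) +
    (u (w.2 (vr w s), true)).1 + (u (w.2 (vr w s), true)).2)
  rw [← h2, ← h3, ← h4]
  have h5 : ∀ a b c : ZMod 2, c = a + b + (c + a + b) := by decide
  exact h5 _ _ _

theorem no_clique (hk : 2 ≤ k) (ι : Lab k ℓ ↪ Fin n) (w : WR (k * ℓ))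
    (t : SL (k * ℓ) → ZMod 2) (ht : dot (1 : SL (k * ℓ) → ZMod 2) t ≠ 0) :
    ¬ HasClique k (hardG ι w t) := by
  intro hc
  obtain ⟨h, rfl⟩ := solution_of_clique hk ι w t hc
  exact ht (sum_BW w h)

/-- light relations vanish -/
theorem light_zero (w : WR (k * ℓ)) (l : SL (k * ℓ) → ZMod 2) (τ : ℕ) (hτ : 8 * τ ≤ k * ℓ)
    (hl : wt l ≤ τ) (h : ∀ h : GA (k * ℓ), dot l (BW w h) = 0) : l = 0 := by
  rcases two_sol 0 l (fun i => by
      rw [← dot_row w l i, h]
      rfl) (fun j => by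
      rw [← dot_col w l j, h]
      rfl) with h1 | h1
  · exact h1
  · exfalso
    rw [zero_add] at h1
    rw [h1] at hl
    have h3 : wt (1 : SL (k * ℓ) → ZMod 2) = (k * ℓ) * 2 := by
      have h4 : (univ.filter fun j : SL (k * ℓ) => (1 : SL (k * ℓ) → ZMod 2) j ≠ 0) = univ :=
        Finset.filter_true_of_mem fun j _ => one_ne_zero
      unfold wt
      rw [h4, Finset.card_univ, Fintype.card_prod, Fintype.card_fin, Fintype.card_bool]
    rw [h3] at hl
    have h4 := NeZero.pos (k * ℓ)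
    omega

/-- local functions have low degree -/
theorem low_graph {K : Type} [Field K] (h2 : (2 : K) ≠ 0) (ι : Lab k ℓ ↪ Fin n)
    (w : WR (k * ℓ)) (d τ : ℕ) (hd : 2 * (d * ℓ) ≤ τ) (f : SimpleGraph (Fin n) → K)
    (hf : f ∈ LocalGraph n d K) :
    (fun t => f (hardG ι w t)) ∈ Sp K {l : SL (k * ℓ) → ZMod 2 | wt l ≤ τ} := by
  classical
  refine Submodule.span_induction
    (p := fun f _ => (fun t => f (hardG ι w t)) ∈
      Sp K {l : SL (k * ℓ) → ZMod 2 | wt l ≤ τ}) ?_ ?_ ?_ ?_ hf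
  · rintro f ⟨D, hD, hf⟩
    -- the groups of the vertices in `D`
    let J : Finset (Fin k) := (univ.filter fun y : Lab k ℓ => ι y ∈ D).image fun y => y.1
    have hJ : J.card ≤ d := by
      refine Finset.card_image_le.trans (le_trans ?_ hD)
      refine Finset.card_le_card_of_injOn ι ?_ (fun _ _ _ _ h => ι.injective h)
      intro y hy
      exact (Finset.mem_filter.mp (Finset.mem_coe.mp hy)).2
    let J' : Finset (SL (k * ℓ)) := (J ×ˢ univ).image fun z => sl z.1 z.2
    have hJ' : J'.card ≤ τ := by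
      refine Finset.card_image_le.trans ?_
      rw [Finset.card_product, Finset.card_univ, Fintype.card_prod, Fintype.card_fin,
        Fintype.card_bool]
      refine le_trans (Nat.mul_le_mul_right _ hJ) (le_trans (le_of_eq ?_) hd)
      ring
    refine Sp_mono (fun l hl => (wt_le_of_supp l _ hl).trans hJ') (junta h2 _ J' ?_)
    intro t t' htt
    refine hf _ _ fun a ha b hb => ?_
    have hmem : ∀ (y : Lab k ℓ) (s : SL (k * ℓ)), ι y ∈ D → gp s = y.1 → t s = t' s := by
      intro y s hy hs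
      refine htt s (Finset.mem_image.mpr ⟨(gp s, ps s), Finset.mem_product.mpr ⟨?_, mem_univ _⟩,
        sl_gp s⟩)
      exact Finset.mem_image.mpr ⟨y, Finset.mem_filter.mpr ⟨mem_univ _, hy⟩, hs.symm⟩
    have hfit : ∀ y y' : Lab k ℓ, ι y ∈ D → ι y' ∈ D → (Fit w t y y' ↔ Fit w t' y y') := by
      intro y y' hy hy'
      refine forall_congr' fun s => forall_congr' fun s' => forall_congr' fun hs =>
        forall_congr' fun hs' => ?_
      unfold Ok
      rw [hmem y s hy hs, hmem y' s' hy' hs']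
    unfold hardG
    rw [SimpleGraph.map_adj, SimpleGraph.map_adj]
    refine exists_congr fun y => exists_congr fun y' => ?_
    constructor
    · rintro ⟨h3, h4, h5⟩
      have hy : ι y ∈ D := by rw [h4]; exact ha
      have hy' : ι y' ∈ D := by rw [h5]; exact hb
      exact ⟨⟨h3.1, (hfit y y hy hy).mp h3.2.1, (hfit y' y' hy' hy').mp h3.2.2.1,
        (hfit y y' hy hy').mp h3.2.2.2⟩, h4, h5⟩
    · rintro ⟨h3, h4, h5⟩
      have hy : ι y ∈ D := by rw [h4]; exact ha
      have hy' : ι y' ∈ D := by rw [h5]; exact hb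
      exact ⟨⟨h3.1, (hfit y y hy hy).mpr h3.2.1, (hfit y' y' hy' hy').mpr h3.2.2.1,
        (hfit y y' hy hy').mpr h3.2.2.2⟩, h4, h5⟩
  · exact Submodule.zero_mem _
  · intro f g _ _ h3 h4
    exact Submodule.add_mem _ h3 h4
  · intro c f _ h3
    exact Submodule.smul_mem _ c h3

end Pool.Agent.TH658.Xg
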