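import Pool.Agent.TH658.Xg.Clq2

set_option autoImplicit false
set_option linter.unusedSectionVars false

/-! The average case bound for cliques. -/

namespace Pool.Agent.TH658.Xg

open Finset Pool.Agent.H30R2.PS Pool.Agent.TH658.Eq Pool.Agent.TH658.Xr Pool.Agent.TH658.Sd

theorem clique_average {k ℓ n d : ℕ} (hk : 2 ≤ k) (hℓ : 0 < ℓ) (hn : k * 16 ^ ℓ ≤ n)
    (hd : 16 * d ≤ k) :
    ∃ (Ω : Type) (_ : Fintype Ω) (_ : Nonempty Ω) (F G : Ω → SimpleGraph (Fin n)),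
      (∀ ω, HasClique k (F ω) ∧ ¬ HasClique k (G ω)) ∧
      ∀ (s : ℕ) (V : Type) (v : Fin s → SimpleGraph (Fin n) → V)
        (H : Fin s → Subgroup (Equiv.Perm (Fin n))) (r p : Fin s → ℕ),
        IsProgram (Equiv.Perm (Fin n)) (LocalGraph n d) v H r p → ∀ (j₀ : Fin s) (T : Set V),
        |(Nat.card {ω // v j₀ (F ω) ∈ T} : ℝ) - Nat.card {ω // v j₀ (G ω) ∈ T}| *
          2 ^ (k * ℓ / 8) ≤ ((∑ j, r j ^ p j * (H j).index : ℕ) : ℝ) * Nat.card Ω := by
  classical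
  have hkl : 0 < k * ℓ := Nat.mul_pos (by omega) hℓ
  have : NeZero (k * ℓ) := ⟨hkl.ne'⟩
  have hcard : Fintype.card (Lab k ℓ) ≤ Fintype.card (Fin n) := by
    rw [Fintype.card_prod, Fintype.card_fun, Fintype.card_prod, Fintype.card_prod, ZMod.card,
      Fintype.card_fin, Fintype.card_fin, Fintype.card_bool, Fintype.card_fin]
    have h1 : (2 * 2) ^ (ℓ * 2) = 16 ^ ℓ := by
      rw [mul_comm ℓ 2, pow_mul]
      norm_num
    rw [h1]
    exact hn
  obtain ⟨ι⟩ := Function.Embedding.nonempty_of_card_le hcard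
  set τ := k * ℓ / 8 with hτ
  have hτ8 : 8 * τ ≤ k * ℓ := Nat.mul_div_le _ 8
  let s0 : SL (k * ℓ) := (⟨0, hkl⟩, true)
  let e : SL (k * ℓ) → ZMod 2 := Pi.single s0 1
  have he1 : dot (1 : SL (k * ℓ) → ZMod 2) e = 1 := by
    show ∑ s, (1 : ZMod 2) * e s = 1
    rw [Finset.sum_eq_single s0]
    · show (1 : ZMod 2) * (Pi.single s0 (1 : ZMod 2) : SL (k * ℓ) → ZMod 2) s0 = 1
      rw [Pi.single_eq_same, one_mul]
    · intro s _ hs
      show (1 : ZMod 2) * (Pi.single s0 (1 : ZMod 2) : SL (k * ℓ) → ZMod 2) s = 0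
      rw [Pi.single_eq_of_ne hs, mul_zero]
    · intro h
      exact absurd (mem_univ _) h
  have hWpos : (0 : ℝ) < Nat.card (WR (k * ℓ)) := by
    rw [Nat.card_eq_fintype_card]
    exact_mod_cast Fintype.card_pos
  refine ⟨WR (k * ℓ) × GA (k * ℓ), inferInstance, inferInstance,
    fun ω => hardG ι ω.1 (BW ω.1 ω.2), fun ω => hardG ι ω.1 (BW ω.1 ω.2 + e), fun ω => ?_, ?_⟩
  · refine ⟨clique_hardG ι ω.1 ω.2, no_clique hk ι ω.1 _ ?_⟩
    rw [dot_add, sum_BW, he1]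
    decide
  · intro s V v H r p hp j₀ T
    refine average_core (W := WR (k * ℓ)) BW τ (Nat.card (WR (k * ℓ)) / 2 ^ τ) (2 ^ τ)
      (by positivity) ?_ ?_ (phi ι) (hardG ι) (hardG_equi ι) (fun _ => e) ?_ (LocalGraph n d)
      (fun K iK g f hf => localGraph_inv K g f hf) (fun K iK h2 w f hf => low_graph h2 ι w d τ ?_
        f hf) v H r p hp j₀ T
    · intro ψ
      have h1 := bad_functional ψ τ hτ8
      rw [le_div_iff₀ (by positivity), Nat.card_eq_fintype_card, Fintype.card_subtype,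
        Nat.card_eq_fintype_card]
      exact_mod_cast h1
    · rw [div_mul_cancel₀ _ (by positivity)]
    · intro w l hl h
      rw [light_zero w l τ hτ8 hl h]
      exact zero_dot _
    · rw [hτ, Nat.le_div_iff_mul_le (by norm_num)]
      calc 2 * (d * ℓ) * 8 = 16 * d * ℓ := by ring
        _ ≤ k * ℓ := Nat.mul_le_mul_right _ hd

end Pool.Agent.TH658.Xg
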