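import Pool.Agent.TH658.Xg.Prog

set_option autoImplicit false
set_option linter.unusedSectionVars false

/-! From programs over a finite group to the abelian group of the wirings. -/

namespace Pool.Agent.TH658.Xg

open Finset Pool.Agent.H30R2.PS Pool.Agent.TH658.Eq Pool.Agent.TH658.Xr

variable {𝔊 : Type} [Group 𝔊] [Finite 𝔊] {Γ : Type} [AddCommGroup Γ] [Module (ZMod 2) Γ]
  [Fintype Γ] {s : ℕ} {X V : Type} [MulAction 𝔊 X]

/-- Enumeration of a finite type over `Fin s` compatible with the order. -/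
theorem exists_enum {Q : Type} [Fintype Q] (f : Q → Fin s) :
    ∃ e : Fin (Fintype.card Q) ≃ Q, ∀ a b, f (e a) < f (e b) → a < b := by
  let e₀ := (Fintype.equivFin Q).symm
  refine ⟨(Tuple.sort (f ∘ e₀)).trans e₀, fun a b h => ?_⟩
  by_contra hn
  have h1 := Tuple.monotone_sort (f ∘ e₀) (not_lt.mp hn)
  exact absurd h (not_lt.mpr h1)

/-- a program over `𝔊` as a sequence of gates over `Γ` -/
theorem transfer (φ : Multiplicative Γ →* 𝔊) (S : Type) [Fintype S] [DecidableEq S]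
    (L : ∀ (K : Type) [Field K], Submodule K (X → K))
    (hinv : ∀ (K : Type) [Field K], ∀ g : 𝔊, ∀ f ∈ L K, (fun x => f (g • x)) ∈ L K)
    (v : Fin s → X → V) (H : Fin s → Subgroup 𝔊) (r p : Fin s → ℕ)
    (hp : IsProgram 𝔊 L v H r p) (j₀ : Fin s) :
    ∃ (s' : ℕ) (v' : Fin s' → X → V) (Hs : Fin s' → Submodule (ZMod 2) Γ)
      (Kf : Fin s' → Type) (iK : ∀ j, Field (Kf j)),
      (∀ j, (2 : Kf j) ≠ 0) ∧
      ∃ C : ∀ j, Finset (Chr (Hs j)), (∀ j, (C j).Nonempty) ∧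
        ∑ j, (C j).card ^ 2 * (Hs j).toAddSubgroup.index ≤ ∑ j, r j ^ p j * (H j).index ∧
        ∃ E : ∀ j, Set (X → Kf j),
          (∀ j, ∀ f ∈ E j, f ∈ AvailT (Kf j) (fun (γ : Γ) x => φ (Multiplicative.ofAdd γ) • x)
            (@L (Kf j) (iK j)) v' j) ∧
          (∀ j, Sd.InvG S (fun (γ : Γ) x => φ (Multiplicative.ofAdd γ) • x) (Hs j) (C j) (E j)
            (v' j)) ∧ ∃ j₁, v' j₁ = v j₀ := by
  classical
  have hvinv := gate_inv L v H r p hp
  choose Ω iΩ rep hrep1 hrep2 hrep3 using fun j => exists_reps (Γ := Γ) φ (H j)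
  let Q := (j : Fin s) × Ω j
  obtain ⟨e, he⟩ := exists_enum (Q := Q) (fun q => q.1)
  let act : Γ → X → X := fun γ x => φ (Multiplicative.ofAdd γ) • x
  have hact0 : ∀ x, act 0 x = x := fun x => by
    show φ (Multiplicative.ofAdd 0) • x = x
    rw [ofAdd_zero, map_one, one_smul]
  have hact : ∀ h h' x, act (h + h') x = act h (act h' x) := fun h h' x => by
    show φ (Multiplicative.ofAdd (h + h')) • x = φ (Multiplicative.ofAdd h) •
      φ (Multiplicative.ofAdd h') • x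
    rw [ofAdd_add, map_mul, mul_smul]
  let π : Fin (Fintype.card Q) → Fin s := fun j => (e j).1
  let g : Fin (Fintype.card Q) → 𝔊 := fun j => rep (e j).1 (e j).2
  let v' : Fin (Fintype.card Q) → X → V := fun j x => v (π j) ((g j)⁻¹ • x)
  let Hs : Fin (Fintype.card Q) → Submodule (ZMod 2) Γ := fun j =>
    AddSubgroup.toZModSubmodule 2 (fixer φ (H (π j)) (g j))
  -- the functions which the gates may use
  have havail : ∀ (K : Type) [Field K] (j : Fin (Fintype.card Q)) (f : X → K),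
      f ∈ Usable 𝔊 K (L K) v (π j) → (fun x => f ((g j)⁻¹ • x)) ∈ AvailT K act (L K) v' j := by
    intro K _ j f hf
    let P : Submodule K (X → K) :=
      { carrier := {f | (fun x => f ((g j)⁻¹ • x)) ∈ AvailT K act (L K) v' j}
        add_mem' := fun {f f'} hf hf' => (AvailT K act (L K) v' j).add_mem hf hf'
        zero_mem' := (AvailT K act (L K) v' j).zero_mem
        smul_mem' := fun c {f} hf => (AvailT K act (L K) v' j).smul_mem c hf }
    have h1 : Usable 𝔊 K (L K) v (π j) ≤ P := by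
      refine sup_le (fun f hf => Submodule.mem_sup_left (hinv K (g j)⁻¹ f hf))
        (Submodule.span_le.mpr ?_)
      rintro _ ⟨i, hi, γ, ψ, rfl⟩
      show (fun x => ψ (v i (γ • (g j)⁻¹ • x))) ∈ AvailT K act (L K) v' j
      obtain ⟨o, h, ho⟩ := hrep1 i (γ * (g j)⁻¹)⁻¹
      have hi' : e.symm ⟨i, o⟩ < j := by
        refine he _ _ ?_
        rw [Equiv.apply_symm_apply]
        exact hi
      have hval : ∀ x, v i (γ • (g j)⁻¹ • x) = v' (e.symm ⟨i, o⟩) (act (-h) x) := by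
        intro x
        show v i (γ • (g j)⁻¹ • x) = v (π (e.symm ⟨i, o⟩)) ((g (e.symm ⟨i, o⟩))⁻¹ •
          φ (Multiplicative.ofAdd (-h)) • x)
        have h2 : e (e.symm ⟨i, o⟩) = ⟨i, o⟩ := e.apply_symm_apply _
        have h3 : π (e.symm ⟨i, o⟩) = i := by
          show (e (e.symm ⟨i, o⟩)).1 = i
          rw [h2]
        have h4 : ∀ y, v (π (e.symm ⟨i, o⟩)) ((g (e.symm ⟨i, o⟩))⁻¹ • y) =
            v i ((rep i o)⁻¹ • y) := by
          intro y
          show v (e (e.symm ⟨i, o⟩)).1 ((rep (e (e.symm ⟨i, o⟩)).1 (e (e.symm ⟨i, o⟩)).2)⁻¹ • y) = _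
          rw [h2]
        rw [h4]
        have h5 := hvinv i _ ho ((rep i o)⁻¹ • φ (Multiplicative.ofAdd (-h)) • x)
        rw [← h5]
        congr 1
        rw [← mul_smul, ← mul_smul, ← mul_smul]
        congr 1
        rw [inv_inv, ofAdd_neg, map_inv]
        group
      have h6 : (fun x => ψ (v i (γ • (g j)⁻¹ • x))) =
          fun x => ψ (v' (e.symm ⟨i, o⟩) (act (-h) x)) := funext fun x => congrArg ψ (hval x)
      rw [h6]
      exact Submodule.mem_sup_right (Submodule.subset_span ⟨_, hi', -h, ψ, rfl⟩)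
    exact h1 hf
  have hfix : ∀ (j : Fin (Fintype.card Q)) (γ : Hs j),
      (g j)⁻¹ * φ (Multiplicative.ofAdd γ.1) * g j ∈ H (π j) := fun j γ => γ.2
  choose hr K iK h2 hg using hp
  have hgate : ∀ j : Fin (Fintype.card Q), ∃ C : Finset (Chr (Hs j)), C.Nonempty ∧
      C.card ^ 2 ≤ r (π j) ^ p (π j) ∧
      ∃ E : Set (X → K (π j)), (∀ f ∈ E, f ∈ AvailT (K (π j)) act (@L (K (π j)) (iK (π j))) v' j) ∧
        Sd.InvG S act (Hs j) C E (v' j) := by
    intro j
    have : Nonempty (Fin (r (π j))) := ⟨⟨0, hr (π j)⟩⟩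
    have hmove : ∀ (γ : Hs j) (x : X), (g j)⁻¹ • act γ.1 x =
        ((g j)⁻¹ * φ (Multiplicative.ofAdd γ.1) * g j) • (g j)⁻¹ • x := by
      intro γ x
      show (g j)⁻¹ • φ (Multiplicative.ofAdd γ.1) • x = _
      rw [← mul_smul, ← mul_smul]
      congr 1
      group
    rcases hg (π j) with ⟨hpj, Y, σ, c, M, ρ, hM, hsym, hcl⟩ | ⟨hpj, Y, M, hM, hsym, hcl⟩
    · obtain ⟨C, hC, hC', hv⟩ := Sd.inv_classG (V := V) (S := S) (h2 (π j)) σ c act
        (Hs j) (fun x y => M ((g j)⁻¹ • x) y)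
        (fun γ => ρ ⟨(g j)⁻¹ * φ (Multiplicative.ofAdd γ.1) * g j, hfix j γ⟩)
        (fun γ γ' => by
          rw [← map_mul]
          congr 1
          refine Subtype.ext ?_
          show (g j)⁻¹ * φ (Multiplicative.ofAdd (γ.1 + γ'.1)) * g j =
            ((g j)⁻¹ * φ (Multiplicative.ofAdd γ.1) * g j) *
            ((g j)⁻¹ * φ (Multiplicative.ofAdd γ'.1) * g j)
          rw [ofAdd_add, map_mul]
          group)
        (fun γ x y => by
          show M ((g j)⁻¹ • act γ.1 x) y = _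
          rw [hmove γ x]
          exact hsym ⟨_, hfix j γ⟩ ((g j)⁻¹ • x) y)
      refine ⟨C, hC, ?_, _, ?_, hv (v' j) (fun x x' hq => hcl _ _ hq)⟩
      · rw [hpj]
        refine Nat.pow_le_pow_left (hC'.trans (le_of_eq (Fintype.card_fin _))) 2
      · rintro f ⟨y, i, i', rfl⟩
        exact havail (K (π j)) j _ (hM y i i')
    · obtain ⟨C, hC, hC', hv⟩ := Sd.inv_wordsG (V := V) (S := S) (h2 (π j)) act hact0
        hact (Hs j) (fun x y => M ((g j)⁻¹ • x) y) (fun h hh => by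
          obtain ⟨q, hq⟩ := hsym _ (hfix j ⟨h, hh⟩)
          refine ⟨q, fun x y => ?_⟩
          show M ((g j)⁻¹ • act h x) y = _
          rw [hmove ⟨h, hh⟩ x]
          exact hq _ y)
      refine ⟨C, hC, ?_, _, ?_, hv (v' j) (fun x x' hq => hcl _ _ hq)⟩
      · rw [hpj]
        have h3 : C.card ≤ r (π j) ^ 2 := hC'.trans (le_of_eq (by rw [Fintype.card_fin]))
        calc C.card ^ 2 ≤ (r (π j) ^ 2) ^ 2 := Nat.pow_le_pow_left h3 2
          _ = r (π j) ^ 4 := by rw [← pow_mul]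
      · rintro f ⟨y, i, i', rfl⟩
        exact havail (K (π j)) j _ (hM y i i')
  choose C hC hC' E hE hv using hgate
  refine ⟨Fintype.card Q, v', Hs, fun j => K (π j), fun j => iK (π j), fun j => h2 (π j), C, hC,
    ?_, E, hE, hv, ?_⟩
  · calc ∑ j, (C j).card ^ 2 * (Hs j).toAddSubgroup.index
        ≤ ∑ j, r (e j).1 ^ p (e j).1 * (fixer φ (H (e j).1) (rep (e j).1 (e j).2)).index :=
          Finset.sum_le_sum fun j _ => Nat.mul_le_mul_right _ (hC' j)
      _ = ∑ q : Q, r q.1 ^ p q.1 * (fixer φ (H q.1) (rep q.1 q.2)).index :=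
          Equiv.sum_comp e fun q : Q => r q.1 ^ p q.1 * (fixer φ (H q.1) (rep q.1 q.2)).index
      _ = ∑ j, ∑ o, r j ^ p j * (fixer φ (H j) (rep j o)).index := Fintype.sum_sigma _
      _ = ∑ j, r j ^ p j * (H j).index := by
          refine Finset.sum_congr rfl fun j _ => ?_
          rw [← Finset.mul_sum, hrep3 j]
      _ ≤ _ := le_rfl
  · obtain ⟨o, ho⟩ := hrep2 j₀
    refine ⟨e.symm ⟨j₀, o⟩, funext fun x => ?_⟩
    show v (e (e.symm ⟨j₀, o⟩)).1
      ((rep (e (e.symm ⟨j₀, o⟩)).1 (e (e.symm ⟨j₀, o⟩)).2)⁻¹ • x) = _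
    rw [Equiv.apply_symm_apply]
    show v j₀ ((rep j₀ o)⁻¹ • x) = v j₀ x
    rw [ho, inv_one, one_smul]

end Pool.Agent.TH658.Xg
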