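import Pool.Agent.TH658.Xg.Avg
import Pool.Agent.TH658.Xr.Small

set_option autoImplicit false
set_option linter.unusedSectionVars false

/-! Random systems of equations between blocks of variables. -/

namespace Pool.Agent.TH658.Xg

open Finset Pool.Agent.H30R2.PS Pool.Agent.TH658.Eq Pool.Agent.TH658.Xr

/-- a block and a linear functional on the block -/
abbrev Pt (k b : ℕ) := Fin k × (Fin b → ZMod 2)

/-- the two functionals of each of the `m` equations -/
abbrev WG (k b m : ℕ) := Fin m × Fin 2 → Pt k b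

/-- the values of the blocks -/
abbrev GK (k b : ℕ) := Fin k → Fin b → ZMod 2

variable {k b m : ℕ}

/-- the left sides of the equations -/
def BG (w : WG k b m) : GK k b →ₗ[ZMod 2] (Fin m → ZMod 2) where
  toFun h := fun s => ∑ c, dot (w (s, c)).2 (h (w (s, c)).1)
  map_add' h h' := by
    funext s
    show (∑ c, dot (w (s, c)).2 (h (w (s, c)).1 + h' (w (s, c)).1)) =
      (∑ c, dot (w (s, c)).2 (h (w (s, c)).1)) + ∑ c, dot (w (s, c)).2 (h' (w (s, c)).1)
    rw [← Finset.sum_add_distrib]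
    exact Finset.sum_congr rfl fun c _ => dot_add _ _ _
  map_smul' a h := by
    funext s
    show (∑ c, dot (w (s, c)).2 (a • h (w (s, c)).1)) =
      a * ∑ c, dot (w (s, c)).2 (h (w (s, c)).1)
    rw [Finset.mul_sum]
    refine Finset.sum_congr rfl fun c _ => ?_
    rw [dot_comm, smul_dot, dot_comm]

theorem BG_apply (w : WG k b m) (h : GK k b) (s : Fin m) :
    BG w h s = ∑ c, dot (w (s, c)).2 (h (w (s, c)).1) := rfl

theorem dot_BG (w : WG k b m) (l : Fin m → ZMod 2) (h : GK k b) :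
    dot l (BG w h) = ∑ p : Fin m × Fin 2, l p.1 * dot (w p).2 (h (w p).1) := by
  unfold dot
  rw [Fintype.sum_prod_type]
  refine Finset.sum_congr rfl fun i _ => ?_
  rw [BG_apply, Finset.mul_sum]
  rfl

theorem card_GK : (Fintype.card (GK k b) : ℝ) = 2 ^ (k * b) := by
  rw [Fintype.card_fun, Fintype.card_fun, ZMod.card, Fintype.card_fin, Fintype.card_fin, ← pow_mul,
    mul_comm]
  push_cast
  rfl

theorem card_Pt : (Fintype.card (Pt k b) : ℝ) = k * 2 ^ b := by
  rw [Fintype.card_prod, Fintype.card_fun, ZMod.card, Fintype.card_fin, Fintype.card_fin]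
  push_cast
  rfl

theorem card_WG : (Fintype.card (WG k b m) : ℝ) = (k * 2 ^ b : ℝ) ^ (2 * m) := by
  rw [Fintype.card_fun]
  push_cast
  rw [card_Pt, Fintype.card_prod, Fintype.card_fin, Fintype.card_fin, mul_comm m 2]

/-- the number of the zero blocks -/
def zb (h : GK k b) : ℕ := (univ.filter fun j => h j = 0).card

/-- the sum of the signs of the functionals -/
theorem sum_sgnG (h : GK k b) : ∑ z : Pt k b, sK ℝ (dot z.2 (h z.1)) = 2 ^ b * zb h := by
  classical
  rw [Fintype.sum_prod_type]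
  have h1 : ∀ j : Fin k, ∑ χ : Fin b → ZMod 2, sK ℝ (dot χ (h j)) =
      if h j = 0 then (2 : ℝ) ^ b else 0 := by
    intro j
    let L : (Fin b → ZMod 2) →+ ZMod 2 :=
      { toFun := fun χ => dot χ (h j)
        map_zero' := zero_dot _
        map_add' := fun χ χ' => add_dot _ _ _ }
    have h3 : ∀ χ : Fin b → ZMod 2, sK ℝ (dot χ (h j)) = sK ℝ (L χ) := fun χ => rfl
    rw [Finset.sum_congr rfl fun χ _ => h3 χ, sum_sK]
    have h4 : (Fintype.card (Fin b → ZMod 2) : ℝ) = 2 ^ b := by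
      rw [Fintype.card_fun, ZMod.card, Fintype.card_fin]
      push_cast
      rfl
    rw [h4]
    refine if_congr ⟨fun h5 => ?_, fun h5 χ => ?_⟩ rfl rfl
    · funext i
      have h6 := h5 (Pi.single i 1)
      have h7 : dot (Pi.single i (1 : ZMod 2) : Fin b → ZMod 2) (h j) = h j i := by
        show ∑ i', (Pi.single i (1 : ZMod 2) : Fin b → ZMod 2) i' * h j i' = h j i
        rw [Finset.sum_eq_single i]
        · rw [Pi.single_eq_same, one_mul]
        · intro i' _ hi'
          rw [Pi.single_eq_of_ne hi', zero_mul]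
        · intro hi
          exact absurd (mem_univ _) hi
      exact h7.symm.trans h6
    · show dot χ (h j) = 0
      rw [h5, dot_zero]
  rw [Finset.sum_congr rfl fun j _ => h1 j, Finset.sum_ite, Finset.sum_const_zero, add_zero,
    Finset.sum_const, nsmul_eq_mul, mul_comm]
  rfl

open Classical in
/-- the number of the wirings for which the combination `l` of the equations is `ψ` -/
theorem count_eqG (l : Fin m → ZMod 2) (ψ : Chr (GK k b)) :
    ((univ.filter fun w : WG k b m => ∀ h, dot l (BG w h) = ψ h).card : ℝ) * 2 ^ (k * b) =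
      ∑ y : GK k b, sK ℝ (ψ y) *
        ∏ p : Fin m × Fin 2, ∑ z : Pt k b, sK ℝ (l p.1 * dot z.2 (y z.1)) := by
  have h1 : ∀ y : GK k b, (∏ p : Fin m × Fin 2, ∑ z : Pt k b, sK ℝ (l p.1 * dot z.2 (y z.1))) =
      ∑ w : WG k b m, sK ℝ (dot l (BG w y)) := by
    intro y
    rw [Finset.prod_univ_sum, Fintype.piFinset_univ]
    refine Finset.sum_congr rfl fun w _ => ?_
    rw [dot_BG, sK_sum]
  rw [Finset.sum_congr rfl fun y _ => by rw [h1 y, Finset.mul_sum], Finset.sum_comm]
  have h2 : ∀ w : WG k b m, ∑ y : GK k b, sK ℝ (ψ y) * sK ℝ (dot l (BG w y)) =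
      if ∀ h, dot l (BG w h) = ψ h then (2 : ℝ) ^ (k * b) else 0 := by
    intro w
    let L : GK k b →+ ZMod 2 :=
      { toFun := fun h => ψ h + dot l (BG w h)
        map_zero' := by rw [map_zero, map_zero, dot_zero, add_zero]
        map_add' := fun h h' => by
          rw [map_add, map_add, dot_add]
          ring }
    have h3 : ∀ y : GK k b, sK ℝ (ψ y) * sK ℝ (dot l (BG w y)) = sK ℝ (L y) := fun y =>
      (sK_add ℝ _ _).symm
    rw [Finset.sum_congr rfl fun y _ => h3 y, sum_sK, card_GK]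
    refine if_congr ⟨fun h y => (zmod2_eq (h y)).symm, fun h y => ?_⟩ rfl rfl
    show ψ y + dot l (BG w y) = 0
    rw [h y]
    exact zmod2_add_self _
  rw [Finset.sum_congr rfl fun w _ => h2 w, Finset.sum_ite, Finset.sum_const_zero, add_zero,
    Finset.sum_const, nsmul_eq_mul]

open Classical in
/-- the basic inequality -/
theorem count_leG (l : Fin m → ZMod 2) (ψ : Chr (GK k b)) :
    ((univ.filter fun w : WG k b m => ∀ h, dot l (BG w h) = ψ h).card : ℝ) * 2 ^ (k * b) ≤
      (∑ y : GK k b, (2 ^ b * zb y : ℝ) ^ (2 * wt l)) * (k * 2 ^ b : ℝ) ^ (2 * (m - wt l)) := by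
  rw [count_eqG, Finset.sum_mul]
  refine Finset.sum_le_sum fun y _ => ?_
  have hs : ∀ x : ZMod 2, |sK ℝ x| = 1 := by
    intro x
    have h2 : ∀ x : ZMod 2, x = 0 ∨ x = 1 := by decide
    unfold sK
    rcases h2 x with h | h
    · rw [h]
      have : sg 0 = 1 := rfl
      rw [this, Int.cast_one, abs_one]
    · rw [h]
      have : sg 1 = -1 := rfl
      rw [this, Int.cast_neg, abs_neg, Int.cast_one, abs_one]
  refine (le_abs_self _).trans ?_
  rw [abs_mul, hs, one_mul, Finset.abs_prod]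
  have h1 : ∀ p : Fin m × Fin 2, |∑ z : Pt k b, sK ℝ (l p.1 * dot z.2 (y z.1))| =
      if l p.1 ≠ 0 then (2 ^ b * zb y : ℝ) else k * 2 ^ b := by
    intro p
    have h2 : ∀ x : ZMod 2, x ≠ 0 → x = 1 := by decide
    by_cases hp : l p.1 ≠ 0
    · rw [if_pos hp, h2 _ hp, ← sum_sgnG]
      simp only [one_mul]
      rw [sum_sgnG]
      exact abs_of_nonneg (by positivity)
    · rw [if_neg hp]
      rw [not_not] at hp
      rw [hp]
      simp only [zero_mul]
      rw [sK_zero, Finset.sum_const, Finset.card_univ, nsmul_eq_mul, mul_one, card_Pt]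
      exact abs_of_nonneg (by positivity)
  rw [Finset.prod_congr rfl fun p _ => h1 p, Fintype.prod_prod_type]
  have h3 : ∀ i : Fin m, (∏ a : Fin 2, if l (i, a).1 ≠ 0 then (2 ^ b * zb y : ℝ) else k * 2 ^ b) =
      if l i ≠ 0 then (2 ^ b * zb y : ℝ) ^ 2 else (k * 2 ^ b : ℝ) ^ 2 := by
    intro i
    show (∏ _a : Fin 2, if l i ≠ 0 then (2 ^ b * zb y : ℝ) else k * 2 ^ b) = _
    rw [Finset.prod_const, Finset.card_univ, Fintype.card_fin]
    split_ifs <;> rfl
  rw [Finset.prod_congr rfl fun i _ => h3 i, Finset.prod_ite, Finset.prod_const,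
    Finset.prod_const, ← pow_mul, ← pow_mul]
  have h4 : (univ.filter fun i : Fin m => l i ≠ 0).card = wt l := rfl
  have h5 : (univ.filter fun i : Fin m => ¬ l i ≠ 0).card = m - wt l := by
    have h6 := Finset.card_filter_add_card_filter_not (s := (univ : Finset (Fin m)))
      (p := fun i => l i ≠ 0)
    rw [Finset.card_univ, Fintype.card_fin, h4] at h6
    omega
  rw [h4, h5]

theorem le_two_rpow (z : ℝ) (hz : 0 ≤ z) : z ≤ (2 : ℝ) ^ z := by
  have h1 : z < (⌊z⌋₊ : ℝ) + 1 := Nat.lt_floor_add_one z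
  have h2 : ((⌊z⌋₊ : ℕ) : ℝ) + 1 ≤ 2 ^ ⌊z⌋₊ := by
    have h3 : ⌊z⌋₊ + 1 ≤ 2 ^ ⌊z⌋₊ := Nat.lt_two_pow_self
    exact_mod_cast h3
  have h3 : (2 : ℝ) ^ ⌊z⌋₊ ≤ (2 : ℝ) ^ z := by
    rw [← Real.rpow_natCast]
    exact Real.rpow_le_rpow_of_exponent_le (by norm_num) (Nat.floor_le hz)
  linarith

/-- the key numerical inequality -/
theorem key_num (x R b k : ℕ) (hR : 0 < R) (hb : 0 < b) (hk : 0 < k) :
    ((x : ℝ) / k) ^ R ≤ ((R : ℝ) / (b * k)) ^ R * 2 ^ (b * x) := by
  have hR0 : (0 : ℝ) < R := by exact_mod_cast hR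
  have hb0 : (0 : ℝ) < b := by exact_mod_cast hb
  have hk0 : (0 : ℝ) < k := by exact_mod_cast hk
  set z : ℝ := b * x / R with hz
  have hz0 : 0 ≤ z := by positivity
  have h1 : ((x : ℝ) / k) = (R / (b * k)) * z := by
    rw [hz]
    field_simp
  rw [h1, mul_pow]
  refine mul_le_mul_of_nonneg_left ?_ (by positivity)
  have h2 := pow_le_pow_left₀ hz0 (le_two_rpow z hz0) R
  refine h2.trans (le_of_eq ?_)
  rw [← Real.rpow_natCast, ← Real.rpow_mul (by norm_num), ← Real.rpow_natCast]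
  congr 1
  rw [hz]
  push_cast
  field_simp

theorem sum_zb (k b : ℕ) : ∑ y : GK k b, (2 : ℝ) ^ (b * zb y) ≤ (2 * 2 ^ b : ℝ) ^ k := by
  classical
  have h0 : ∀ y : GK k b, (2 : ℝ) ^ (b * zb y) = ∏ j : Fin k, if y j = 0 then (2 : ℝ) ^ b else 1 := by
    intro y
    rw [Finset.prod_ite, Finset.prod_const, Finset.prod_const_one, mul_one, ← pow_mul]
    rfl
  rw [Finset.sum_congr rfl fun y _ => h0 y]
  have h1 := Finset.prod_univ_sum (fun _ : Fin k => (univ : Finset (Fin b → ZMod 2)))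
    (fun _ x => if x = 0 then (2 : ℝ) ^ b else 1)
  rw [Fintype.piFinset_univ] at h1
  have h2 : ∑ x : Fin b → ZMod 2, (if x = 0 then (2 : ℝ) ^ b else 1) ≤ 2 * 2 ^ b := by
    have h3 : ∀ x : Fin b → ZMod 2, (if x = 0 then (2 : ℝ) ^ b else 1) ≤
        (if x = 0 then (2 : ℝ) ^ b else 0) + 1 := by
      intro x
      split_ifs
      · linarith
      · linarith
    refine (Finset.sum_le_sum fun x _ => h3 x).trans ?_
    rw [Finset.sum_add_distrib, Finset.sum_ite_eq' univ (0 : Fin b → ZMod 2) (fun _ => (2 : ℝ) ^ b),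
      if_pos (mem_univ _), Finset.sum_const, Finset.card_univ, Fintype.card_fun, ZMod.card,
      Fintype.card_fin, nsmul_eq_mul, mul_one]
    push_cast
    linarith
  have h3 : ∑ y : GK k b, ∏ j : Fin k, (if y j = 0 then (2 : ℝ) ^ b else 1) =
      (∑ x : Fin b → ZMod 2, (if x = 0 then (2 : ℝ) ^ b else 1)) ^ k := by
    rw [← h1, Finset.prod_const, Finset.card_univ, Fintype.card_fin]
  rw [h3]
  exact pow_le_pow_left₀ (Finset.sum_nonneg fun x _ => by split_ifs <;> positivity) h2 k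

open Classical in
/-- the number of the wirings for which a combination of `wt l` equations is `ψ` -/
theorem frac_leG (hb : 0 < b) (hk : 0 < k) (l : Fin m → ZMod 2) (hl : 0 < wt l)
    (ψ : Chr (GK k b)) :
    ((univ.filter fun w : WG k b m => ∀ h, dot l (BG w h) = ψ h).card : ℝ) ≤
      2 ^ k * (((2 * wt l : ℕ) : ℝ) / (b * k)) ^ (2 * wt l) * (k * 2 ^ b : ℝ) ^ (2 * m) := by
  have hk0 : (0 : ℝ) < k := by exact_mod_cast hk
  set R := 2 * wt l with hR
  have hR0 : 0 < R := by omega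
  have h1 := count_leG (k := k) (b := b) l ψ
  rw [← hR] at h1
  have h2 : (∑ y : GK k b, (2 ^ b * zb y : ℝ) ^ R) ≤
      (k * 2 ^ b : ℝ) ^ R * (((R : ℝ) / (b * k)) ^ R * (2 * 2 ^ b : ℝ) ^ k) := by
    have h3 : ∀ y : GK k b, (2 ^ b * zb y : ℝ) ^ R ≤
        (k * 2 ^ b : ℝ) ^ R * (((R : ℝ) / (b * k)) ^ R * 2 ^ (b * zb y)) := by
      intro y
      have h4 := key_num (zb y) R b k hR0 hb hk
      have h5 : (2 ^ b * zb y : ℝ) ^ R = (k * 2 ^ b : ℝ) ^ R * ((zb y : ℝ) / k) ^ R := by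
        rw [← mul_pow]
        congr 1
        field_simp
      rw [h5]
      exact mul_le_mul_of_nonneg_left h4 (by positivity)
    refine (Finset.sum_le_sum fun y _ => h3 y).trans ?_
    rw [← Finset.mul_sum, ← Finset.mul_sum]
    exact mul_le_mul_of_nonneg_left (mul_le_mul_of_nonneg_left (sum_zb k b) (by positivity))
      (by positivity)
  have h6 : ((univ.filter fun w : WG k b m => ∀ h, dot l (BG w h) = ψ h).card : ℝ) *
      2 ^ (k * b) ≤ 2 ^ k * ((R : ℝ) / (b * k)) ^ R * (k * 2 ^ b : ℝ) ^ (2 * m) * 2 ^ (k * b) := by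
    refine h1.trans ((mul_le_mul_of_nonneg_right h2 (by positivity)).trans (le_of_eq ?_))
    have h8 : (k * 2 ^ b : ℝ) ^ (2 * m) = (k * 2 ^ b : ℝ) ^ R *
        (k * 2 ^ b : ℝ) ^ (2 * (m - wt l)) := by
      rw [← pow_add, hR, ← Nat.mul_add, Nat.add_sub_cancel' (wt_le l)]
    have h9 : (2 * 2 ^ b : ℝ) ^ k = 2 ^ k * 2 ^ (k * b) := by
      rw [mul_pow, ← pow_mul, mul_comm b k]
    rw [h8, h9]
    ring
  exact le_of_mul_le_mul_right h6 (by positivity)

end Pool.Agent.TH658.Xg
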