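import Pool.Agent.TH658.Xg.Gap1

set_option autoImplicit false
set_option linter.unusedSectionVars false

/-! Random systems of equations: the union bounds. -/

namespace Pool.Agent.TH658.Xg

open Finset Pool.Agent.H30R2.PS Pool.Agent.TH658.Eq Pool.Agent.TH658.Xr

variable {k b m : ℕ}

/-- the parameters -/
structure Par (k b C m τ : ℕ) : Prop where
  hC : 0 < C
  hk : 0 < k
  hb : 1000 * C ≤ b
  hm : m = C * (k * b)
  h1 : 1000 * C * τ ≤ k * b
  h2 : k * b < 1000 * C * (τ + 1)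

theorem Par.le {C τ : ℕ} (P : Par k b C m τ) : k ≤ τ := by
  have h1 := P.h2
  have h2 : k * (1000 * C) ≤ k * b := Nat.mul_le_mul_left k P.hb
  have h3 : 1000 * C * k < 1000 * C * (τ + 1) := by
    calc 1000 * C * k = k * (1000 * C) := mul_comm _ _
      _ ≤ k * b := h2
      _ < _ := h1
  have h4 := Nat.lt_of_mul_lt_mul_left h3
  omega

theorem pow_num (τ : ℕ) : (2 : ℝ) ^ τ * (1 / 32) ^ (τ + 1) = 1 / 32 * (1 / 16) ^ τ := by
  rw [pow_succ]
  have h1 : (1 / 16 : ℝ) ^ τ = 2 ^ τ * (1 / 32) ^ τ := by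
    rw [← mul_pow]
    norm_num
  rw [h1]
  ring

open Classical in
/-- the number of wirings with a combination of medium weight equal to a given one -/
theorem bad_smallG {C τ : ℕ} (P : Par k b C m τ) (ψ : Chr (GK k b)) :
    ((univ.filter fun w : WG k b m => ∃ l : Fin m → ZMod 2, τ < wt l ∧ wt l ≤ 2 * τ ∧
      ∀ h, dot l (BG w h) = ψ h).card : ℝ) ≤
        1 / 32 * (1 / 8) ^ τ * (k * 2 ^ b : ℝ) ^ (2 * m) := by
  have hC0 : (1 : ℝ) ≤ C := by exact_mod_cast P.hC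
  have hk0 : (0 : ℝ) < k := by exact_mod_cast P.hk
  have hbpos : 0 < b := by
    have := P.hb
    have := P.hC
    omega
  have hb0 : (0 : ℝ) < b := by exact_mod_cast hbpos
  have hkτ := P.le
  let Cn : (Fin m → ZMod 2) → Finset (WG k b m) := fun l =>
    univ.filter fun w : WG k b m => ∀ h, dot l (BG w h) = ψ h
  let Z := univ.filter fun l : Fin m → ZMod 2 => τ < wt l ∧ wt l ≤ 2 * τ
  have hsub : (univ.filter fun w : WG k b m => ∃ l : Fin m → ZMod 2, τ < wt l ∧ wt l ≤ 2 * τ ∧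
      ∀ h, dot l (BG w h) = ψ h) ⊆ Z.biUnion Cn := by
    intro w hw
    obtain ⟨l, h1, h2, h3⟩ := (Finset.mem_filter.mp hw).2
    exact Finset.mem_biUnion.mpr ⟨l, Finset.mem_filter.mpr ⟨mem_univ _, h1, h2⟩,
      Finset.mem_filter.mpr ⟨mem_univ _, h3⟩⟩
  have h1 : ((univ.filter fun w : WG k b m => ∃ l : Fin m → ZMod 2, τ < wt l ∧ wt l ≤ 2 * τ ∧
      ∀ h, dot l (BG w h) = ψ h).card : ℝ) ≤ ∑ l ∈ Z, ((Cn l).card : ℝ) := by
    have h2 := (Finset.card_le_card hsub).trans Finset.card_biUnion_le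
    exact_mod_cast h2
  refine h1.trans ?_
  -- the sum over the vectors of weight `t`
  have key : ∀ t ∈ Finset.Ioc τ (2 * τ),
      ∑ l ∈ univ.filter (fun l : Fin m → ZMod 2 => wt l = t), ((Cn l).card : ℝ) ≤
        2 ^ k * (1 / 32) ^ (τ + 1) * (k * 2 ^ b : ℝ) ^ (2 * m) := by
    intro t ht
    rw [Finset.mem_Ioc] at ht
    have ht0 : 0 < t := by omega
    have htR : (0 : ℝ) < t := by exact_mod_cast ht0
    have h5 : 500 * (C * t) ≤ k * b := by
      have h6 := P.h1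
      have h7 : 500 * (C * t) ≤ 1000 * C * τ := by
        calc 500 * (C * t) ≤ 500 * (C * (2 * τ)) :=
              Nat.mul_le_mul_left _ (Nat.mul_le_mul_left _ ht.2)
          _ = 1000 * C * τ := by ring
      exact h7.trans h6
    have h5' : 500 * ((C : ℝ) * t) ≤ k * b := by exact_mod_cast h5
    have htm : t ≤ m := by
      rw [P.hm]
      have h6 : t ≤ C * t := Nat.le_mul_of_pos_left t P.hC
      have h7 : k * b ≤ C * (k * b) := Nat.le_mul_of_pos_left _ P.hC
      omega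
    have he : Real.exp 1 < 2.7182818286 := Real.exp_one_lt_d9
    -- the base
    have hbase : Real.exp 1 * (m / t) * (((2 * t : ℕ) : ℝ) / (b * k)) ^ 2 ≤ 1 / 32 := by
      have h11 : Real.exp 1 * ((m : ℝ) / t) * (((2 * t : ℕ) : ℝ) / (b * k)) ^ 2 =
          4 * Real.exp 1 * (C * t) / (k * b) := by
        rw [P.hm]
        push_cast
        field_simp
        ring
      rw [h11, div_le_iff₀ (by positivity)]
      have h12 : 0 ≤ (C : ℝ) * t := by positivity
      nlinarith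
    have h6 : ∀ l ∈ univ.filter (fun l : Fin m → ZMod 2 => wt l = t), ((Cn l).card : ℝ) ≤
        2 ^ k * (((2 * t : ℕ) : ℝ) / (b * k)) ^ (2 * t) * (k * 2 ^ b : ℝ) ^ (2 * m) := by
      intro l hl
      have hlt := (Finset.mem_filter.mp hl).2
      have h7 := frac_leG hbpos P.hk l (by omega) ψ
      rw [hlt] at h7
      exact h7
    refine (Finset.sum_le_sum h6).trans ?_
    rw [Finset.sum_const, nsmul_eq_mul]
    have h7 := card_wt_le m t ht0 htm
    have h8 : (0 : ℝ) ≤ 2 ^ k * (((2 * t : ℕ) : ℝ) / (b * k)) ^ (2 * t) *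
        (k * 2 ^ b : ℝ) ^ (2 * m) := by positivity
    refine (mul_le_mul_of_nonneg_right h7 h8).trans ?_
    have h9 : (Real.exp 1 * (m / t)) ^ t * (2 ^ k * (((2 * t : ℕ) : ℝ) / (b * k)) ^ (2 * t) *
        (k * 2 ^ b : ℝ) ^ (2 * m)) =
        2 ^ k * (Real.exp 1 * (m / t) * (((2 * t : ℕ) : ℝ) / (b * k)) ^ 2) ^ t *
          (k * 2 ^ b : ℝ) ^ (2 * m) := by
      rw [mul_pow (Real.exp 1 * (m / t)) ((((2 * t : ℕ) : ℝ) / (b * k)) ^ 2) t, ← pow_mul]
      ring
    rw [h9]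
    refine mul_le_mul_of_nonneg_right ?_ (by positivity)
    refine mul_le_mul_of_nonneg_left ?_ (by positivity)
    refine (pow_le_pow_left₀ (by positivity) hbase t).trans ?_
    exact pow_le_pow_of_le_one (by norm_num) (by norm_num) ht.1
  have h2 : ∑ l ∈ Z, ((Cn l).card : ℝ) = ∑ t ∈ Finset.Ioc τ (2 * τ),
      ∑ l ∈ univ.filter (fun l : Fin m → ZMod 2 => wt l = t), ((Cn l).card : ℝ) := by
    have hmaps : ∀ l ∈ Z, wt l ∈ Finset.Ioc τ (2 * τ) := by
      intro l hl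
      obtain ⟨_, h3, h4⟩ := Finset.mem_filter.mp hl
      exact Finset.mem_Ioc.mpr ⟨h3, h4⟩
    rw [← Finset.sum_fiberwise_of_maps_to hmaps]
    refine Finset.sum_congr rfl fun t ht => ?_
    refine Finset.sum_congr ?_ fun l _ => rfl
    ext l
    rw [Finset.mem_filter, Finset.mem_filter, Finset.mem_filter]
    rw [Finset.mem_Ioc] at ht
    constructor
    · rintro ⟨_, h⟩
      exact ⟨mem_univ _, h⟩
    · rintro ⟨_, h⟩
      exact ⟨⟨mem_univ _, by omega, by omega⟩, h⟩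
  rw [h2]
  refine (Finset.sum_le_sum key).trans ?_
  rw [Finset.sum_const, nsmul_eq_mul, Nat.card_Ioc]
  have h3 : ((2 * τ - τ : ℕ) : ℝ) ≤ 2 ^ τ := by
    have h4 : 2 * τ - τ ≤ 2 ^ τ := by
      have := (Nat.lt_two_pow_self (n := τ)).le
      omega
    exact_mod_cast h4
  have h4 : (0 : ℝ) ≤ (k * 2 ^ b : ℝ) ^ (2 * m) := by positivity
  have hk2 : (2 : ℝ) ^ k ≤ 2 ^ τ := pow_le_pow_right₀ (by norm_num) hkτ
  have h5 : ((2 * τ - τ : ℕ) : ℝ) * (2 ^ k * (1 / 32) ^ (τ + 1)) ≤ 1 / 32 * (1 / 8) ^ τ := by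
    have h6 : (2 : ℝ) ^ τ * (2 ^ τ * (1 / 32) ^ (τ + 1)) = 1 / 32 * (1 / 8) ^ τ := by
      rw [pow_num]
      have h7 : (1 / 8 : ℝ) ^ τ = 2 ^ τ * (1 / 16) ^ τ := by
        rw [← mul_pow]
        norm_num
      rw [h7]
      ring
    rw [← h6]
    exact mul_le_mul h3 (mul_le_mul_of_nonneg_right hk2 (by positivity)) (by positivity)
      (by positivity)
  calc ((2 * τ - τ : ℕ) : ℝ) * (2 ^ k * (1 / 32) ^ (τ + 1) * (k * 2 ^ b : ℝ) ^ (2 * m))
      = ((2 * τ - τ : ℕ) : ℝ) * (2 ^ k * (1 / 32) ^ (τ + 1)) * (k * 2 ^ b : ℝ) ^ (2 * m) := by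
        ring
    _ ≤ _ := mul_le_mul_of_nonneg_right h5 h4

/-- few equations are between the blocks of a small set of blocks -/
def NiceG (d τ : ℕ) (w : WG k b m) : Prop :=
  ∀ J : Finset (Fin k), J.card ≤ d →
    (univ.filter fun s : Fin m => ∀ c, (w (s, c)).1 ∈ J).card ≤ τ

/-- the number of the points in some blocks -/
theorem card_blocks (J : Finset (Fin k)) :
    ((univ.filter fun z : Pt k b => z.1 ∈ J).card : ℝ) = J.card * 2 ^ b := by
  have h1 : (univ.filter fun z : Pt k b => z.1 ∈ J) = J ×ˢ univ := by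
    ext z
    rw [Finset.mem_filter, Finset.mem_product]
    exact ⟨fun h => ⟨h.2, mem_univ _⟩, fun h => ⟨mem_univ _, h.1⟩⟩
  rw [h1, Finset.card_product, Finset.card_univ, Fintype.card_fun, ZMod.card, Fintype.card_fin]
  push_cast
  rfl

theorem card_SG (J : Finset (Fin k)) (l : Fin m → ZMod 2) (r : ℝ) (hr : (J.card : ℝ) ≤ r * k) :
    ((univ.filter fun w : WG k b m => ∀ p : Fin m × Fin 2, l p.1 ≠ 0 → (w p).1 ∈ J).card : ℝ) ≤
      (r ^ 2) ^ wt l * (k * 2 ^ b : ℝ) ^ (2 * m) := by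
  classical
  have h1 : (univ.filter fun w : WG k b m => ∀ p : Fin m × Fin 2, l p.1 ≠ 0 → (w p).1 ∈ J) =
      Fintype.piFinset fun p : Fin m × Fin 2 =>
        if l p.1 ≠ 0 then (univ.filter fun z : Pt k b => z.1 ∈ J) else univ := by
    ext w
    rw [Finset.mem_filter, Fintype.mem_piFinset]
    constructor
    · rintro ⟨_, h⟩ p
      by_cases hp : l p.1 ≠ 0
      · rw [if_pos hp]
        exact Finset.mem_filter.mpr ⟨mem_univ _, h p hp⟩
      · rw [if_neg hp]
        exact mem_univ _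
    · intro h
      refine ⟨mem_univ _, fun p hp => ?_⟩
      have h2 := h p
      rw [if_pos hp] at h2
      exact (Finset.mem_filter.mp h2).2
  rw [h1, Fintype.card_piFinset]
  push_cast
  have h2 : ∀ p : Fin m × Fin 2, (((if l p.1 ≠ 0 then
      (univ.filter fun z : Pt k b => z.1 ∈ J) else univ : Finset (Pt k b)).card : ℕ) : ℝ) ≤
      (if l p.1 ≠ 0 then r else 1) * (k * 2 ^ b) := by
    intro p
    split_ifs with hp
    · rw [card_blocks, ← mul_assoc]
      exact mul_le_mul_of_nonneg_right hr (by positivity)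
    · rw [Finset.card_univ, card_Pt, one_mul]
  refine (Finset.prod_le_prod (fun p _ => Nat.cast_nonneg _) fun p _ => h2 p).trans ?_
  rw [Finset.prod_mul_distrib, Finset.prod_const, Finset.card_univ, Fintype.card_prod,
    Fintype.card_fin, Fintype.card_fin, mul_comm m 2]
  refine mul_le_mul_of_nonneg_right (le_of_eq ?_) (by positivity)
  rw [Fintype.prod_prod_type]
  have h3 : ∀ i : Fin m, (∏ a : Fin 2, if l (i, a).1 ≠ 0 then r else 1) =
      if l i ≠ 0 then r ^ 2 else 1 := by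
    intro i
    show (∏ _a : Fin 2, if l i ≠ 0 then r else 1) = _
    rw [Finset.prod_const, Finset.card_univ, Fintype.card_fin]
    split_ifs
    · rfl
    · exact one_pow 2
  rw [Finset.prod_congr rfl fun i _ => h3 i, Finset.prod_ite, Finset.prod_const_one, mul_one,
    Finset.prod_const]
  rfl

open Classical in
theorem card_not_niceG {C τ : ℕ} (P : Par k b C m τ) (d : ℕ) (hd : 300 * C * d ≤ k) :
    ((univ.filter fun w : WG k b m => ¬ NiceG d τ w).card : ℝ) ≤
      1 / 32 * (k * 2 ^ b : ℝ) ^ (2 * m) := by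
  have hC0 : (1 : ℝ) ≤ C := by exact_mod_cast P.hC
  have hk0 : (0 : ℝ) < k := by exact_mod_cast P.hk
  have hbpos : 0 < b := by
    have := P.hb
    have := P.hC
    omega
  have hb0 : (0 : ℝ) < b := by exact_mod_cast hbpos
  have hkτ := P.le
  set r : ℝ := 1 / (300 * C) with hr
  have hr0 : 0 ≤ r := by positivity
  have hdr : (d : ℝ) ≤ r * k := by
    rw [hr, div_mul_eq_mul_div, one_mul, le_div_iff₀ (by positivity)]
    have h1 : ((300 * C * d : ℕ) : ℝ) ≤ k := by exact_mod_cast hd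
    push_cast at h1
    linarith
  let DD : Finset (Finset (Fin k) × (Fin m → ZMod 2)) :=
    univ.filter fun P => P.1.card ≤ d ∧ wt P.2 = τ + 1
  let S : Finset (Fin k) × (Fin m → ZMod 2) → Finset (WG k b m) := fun P =>
    univ.filter fun w : WG k b m => ∀ p : Fin m × Fin 2, P.2 p.1 ≠ 0 → (w p).1 ∈ P.1
  have hsub : (univ.filter fun w : WG k b m => ¬ NiceG d τ w) ⊆ DD.biUnion S := by
    intro w hw
    have h1 := (Finset.mem_filter.mp hw).2
    unfold NiceG at h1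
    push Not at h1
    obtain ⟨J, hJ, h2⟩ := h1
    obtain ⟨I, hI1, hI2⟩ := Finset.exists_subset_card_eq (Nat.succ_le_of_lt h2)
    have hne : ∀ i, (if i ∈ I then (1 : ZMod 2) else 0) ≠ 0 ↔ i ∈ I := by
      intro i
      by_cases hi : i ∈ I
      · rw [if_pos hi]
        exact ⟨fun _ => hi, fun _ => one_ne_zero⟩
      · rw [if_neg hi]
        exact ⟨fun h => absurd rfl h, fun h => absurd h hi⟩
    refine Finset.mem_biUnion.mpr ⟨(J, fun i => if i ∈ I then 1 else 0),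
      Finset.mem_filter.mpr ⟨mem_univ _, hJ, ?_⟩, Finset.mem_filter.mpr ⟨mem_univ _, ?_⟩⟩
    · show (univ.filter fun i : Fin m => (if i ∈ I then (1 : ZMod 2) else 0) ≠ 0).card = τ + 1
      rw [← Nat.succ_eq_add_one, ← hI2]
      congr 1
      ext i
      rw [Finset.mem_filter, hne]
      exact ⟨fun h => h.2, fun h => ⟨mem_univ _, h⟩⟩
    · intro p hp
      exact (Finset.mem_filter.mp (hI1 ((hne p.1).mp hp))).2 p.2
  have h1 : ((univ.filter fun w : WG k b m => ¬ NiceG d τ w).card : ℝ) ≤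
      ∑ P ∈ DD, ((S P).card : ℝ) := by
    exact_mod_cast (Finset.card_le_card hsub).trans Finset.card_biUnion_le
  refine h1.trans ?_
  have h2 : ∀ P ∈ DD, ((S P).card : ℝ) ≤ (r ^ 2) ^ (τ + 1) * (k * 2 ^ b : ℝ) ^ (2 * m) := by
    intro P hP
    obtain ⟨_, h3, h4⟩ := Finset.mem_filter.mp hP
    have h5 := card_SG (b := b) P.1 P.2 r (by
      refine le_trans ?_ hdr
      exact_mod_cast h3)
    rw [h4] at h5
    exact h5
  refine (Finset.sum_le_sum h2).trans ?_
  rw [Finset.sum_const, nsmul_eq_mul]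
  have hτm : τ + 1 ≤ m := by
    have h3 := P.h1
    have h5 : k * b ≤ C * (k * b) := Nat.le_mul_of_pos_left _ P.hC
    have h6 : 1000 * τ ≤ 1000 * C * τ := Nat.mul_le_mul_right τ (Nat.le_mul_of_pos_right _ P.hC)
    have h7 : 1 ≤ k * b := Nat.mul_pos P.hk hbpos
    rw [P.hm]
    have h8 := P.hk
    omega
  have h3 : (DD.card : ℝ) ≤ 2 ^ k * (Real.exp 1 * (m / (τ + 1 : ℕ))) ^ (τ + 1) := by
    have h4 : DD ⊆ univ ×ˢ (univ.filter fun l : Fin m → ZMod 2 => wt l = τ + 1) := by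
      intro P hP
      exact Finset.mem_product.mpr ⟨mem_univ _, Finset.mem_filter.mpr
        ⟨mem_univ _, (Finset.mem_filter.mp hP).2.2⟩⟩
    have h5 := Finset.card_le_card h4
    rw [Finset.card_product, Finset.card_univ, Fintype.card_finset, Fintype.card_fin] at h5
    have h6 : (DD.card : ℝ) ≤ 2 ^ k *
        ((univ.filter fun l : Fin m → ZMod 2 => wt l = τ + 1).card : ℝ) := by exact_mod_cast h5
    exact h6.trans (mul_le_mul_of_nonneg_left (card_wt_le m (τ + 1) (Nat.succ_pos τ) hτm)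
      (by positivity))
  have h4 : 0 ≤ (r ^ 2) ^ (τ + 1) * (k * 2 ^ b : ℝ) ^ (2 * m) := by positivity
  refine (mul_le_mul_of_nonneg_right h3 h4).trans ?_
  have he : Real.exp 1 < 2.7182818286 := Real.exp_one_lt_d9
  have hbase : Real.exp 1 * (m / (τ + 1 : ℕ)) * r ^ 2 ≤ 1 / 32 := by
    have h5 : ((k * b : ℕ) : ℝ) ≤ ((1000 * C * (τ + 1) : ℕ) : ℝ) := by exact_mod_cast P.h2.le
    push_cast at h5
    have h6 : Real.exp 1 * ((m : ℝ) / (τ + 1 : ℕ)) * r ^ 2 =
        Real.exp 1 * (k * b) / (90000 * C * (τ + 1)) := by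
      rw [P.hm, hr]
      push_cast
      field_simp
      norm_num
    rw [h6, div_le_iff₀ (by positivity)]
    have h7 : 0 ≤ (C : ℝ) * (τ + 1) := by positivity
    nlinarith [mul_nonneg (sub_nonneg.mpr he.le) (mul_nonneg hk0.le hb0.le)]
  have h5 : 2 ^ k * (Real.exp 1 * (m / (τ + 1 : ℕ))) ^ (τ + 1) *
      ((r ^ 2) ^ (τ + 1) * (k * 2 ^ b : ℝ) ^ (2 * m)) =
      2 ^ k * (Real.exp 1 * (m / (τ + 1 : ℕ)) * r ^ 2) ^ (τ + 1) * (k * 2 ^ b : ℝ) ^ (2 * m) := by
    rw [mul_pow (Real.exp 1 * (m / (τ + 1 : ℕ))) (r ^ 2) (τ + 1)]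
    ring
  rw [h5]
  refine mul_le_mul_of_nonneg_right ?_ (by positivity)
  have h6 : (Real.exp 1 * (m / (τ + 1 : ℕ)) * r ^ 2) ^ (τ + 1) ≤ (1 / 32) ^ (τ + 1) :=
    pow_le_pow_left₀ (by positivity) hbase _
  have hk2 : (2 : ℝ) ^ k ≤ 2 ^ τ := pow_le_pow_right₀ (by norm_num) hkτ
  refine (mul_le_mul hk2 h6 (by positivity) (by positivity)).trans ?_
  rw [pow_num]
  have h7 : (1 / 16 : ℝ) ^ τ ≤ 1 := pow_le_one₀ (by norm_num) (by norm_num)
  linarith

end Pool.Agent.TH658.Xg
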