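import Pool.Agent.TH658.Xg.Gap2

set_option autoImplicit false
set_option linter.unusedSectionVars false

/-! Random systems of equations: partial solutions, and the twists. -/

namespace Pool.Agent.TH658.Xg

open Finset Pool.Agent.H30R2.PS Pool.Agent.TH658.Eq Pool.Agent.TH658.Xr

variable {k b m : ℕ}

open Classical in
/-- the vectors which vanish at all equations between the blocks of some set of `q` blocks -/
noncomputable def NearG (q : ℕ) (w : WG k b m) : Finset (Fin m → ZMod 2) :=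
  univ.filter fun y => ∃ J : Finset (Fin k), J.card = q ∧ ∀ s, (∀ c, (w (s, c)).1 ∈ J) → y s = 0

open Classical in
/-- the number of the vectors which vanish where `A` holds -/
theorem card_vanish (A : Fin m → Prop) :
    ((univ.filter fun y : Fin m → ZMod 2 => ∀ s, A s → y s = 0).card : ℝ) =
      ∏ s, if A s then (1 : ℝ) else 2 := by
  have h1 : (univ.filter fun y : Fin m → ZMod 2 => ∀ s, A s → y s = 0) =
      Fintype.piFinset fun s => if A s then ({0} : Finset (ZMod 2)) else univ := by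
    ext y
    rw [Finset.mem_filter, Fintype.mem_piFinset]
    constructor
    · rintro ⟨_, h⟩ s
      by_cases hs : A s
      · rw [if_pos hs]
        exact Finset.mem_singleton.mpr (h s hs)
      · rw [if_neg hs]
        exact mem_univ _
    · intro h
      refine ⟨mem_univ _, fun s hs => ?_⟩
      have h2 := h s
      rw [if_pos hs] at h2
      exact Finset.mem_singleton.mp h2
  rw [h1, Fintype.card_piFinset]
  push_cast
  refine Finset.prod_congr rfl fun s _ => ?_
  split_ifs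
  · rw [Finset.card_singleton, Nat.cast_one]
  · rw [Finset.card_univ, ZMod.card]
    rfl

open Classical in
/-- the number of the pairs of a wiring and a vector vanishing in the equations between the blocks
in `J` -/
theorem sum_vanish (J : Finset (Fin k)) :
    (∑ w : WG k b m,
      ((univ.filter fun y : Fin m → ZMod 2 => ∀ s, (∀ c, (w (s, c)).1 ∈ J) → y s = 0).card : ℝ)) =
      (2 * (k * 2 ^ b : ℝ) ^ 2 - (J.card * 2 ^ b) ^ 2) ^ m := by
  have h1 : ∀ w : WG k b m,
      ((univ.filter fun y : Fin m → ZMod 2 => ∀ s, (∀ c, (w (s, c)).1 ∈ J) → y s = 0).card : ℝ) =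
      ∏ s, if (∀ c, (w (s, c)).1 ∈ J) then (1 : ℝ) else 2 := fun w => by
    convert card_vanish fun s => ∀ c, (w (s, c)).1 ∈ J
  rw [Finset.sum_congr rfl fun w _ => h1 w]
  have h2 : (∑ w : WG k b m, ∏ s, if (∀ c, (w (s, c)).1 ∈ J) then (1 : ℝ) else 2) =
      ∑ w : Fin m → Fin 2 → Pt k b, ∏ s, if (∀ c, (w s c).1 ∈ J) then (1 : ℝ) else 2 :=
    Fintype.sum_equiv (Equiv.curry (Fin m) (Fin 2) (Pt k b)) _ _ fun w => rfl
  rw [h2]
  have h3 := Finset.prod_univ_sum (fun _ : Fin m => (univ : Finset (Fin 2 → Pt k b)))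
    (fun _ z => if (∀ c, (z c).1 ∈ J) then (1 : ℝ) else 2)
  rw [Fintype.piFinset_univ] at h3
  rw [← h3, Finset.prod_const, Finset.card_univ, Fintype.card_fin]
  congr 1
  have h4 : ∀ z : Fin 2 → Pt k b, (if (∀ c, (z c).1 ∈ J) then (1 : ℝ) else 2) =
      2 - if (∀ c, (z c).1 ∈ J) then (1 : ℝ) else 0 := by
    intro z
    split_ifs <;> norm_num
  rw [Finset.sum_congr rfl fun z _ => h4 z, Finset.sum_sub_distrib, Finset.sum_const,
    Finset.card_univ, Fintype.card_fun, Fintype.card_fin, nsmul_eq_mul, ← Finset.sum_filter,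
    Finset.sum_const, nsmul_eq_mul, mul_one]
  push_cast
  rw [card_Pt, mul_comm]
  congr 1
  have h5 : (univ.filter fun z : Fin 2 → Pt k b => ∀ c, (z c).1 ∈ J) =
      Fintype.piFinset fun _ : Fin 2 => univ.filter fun z : Pt k b => z.1 ∈ J := by
    ext z
    rw [Finset.mem_filter, Fintype.mem_piFinset]
    exact ⟨fun h c => Finset.mem_filter.mpr ⟨mem_univ _, h.2 c⟩,
      fun h => ⟨mem_univ _, fun c => (Finset.mem_filter.mp (h c)).2⟩⟩
  rw [h5, Fintype.card_piFinset, Finset.prod_const, Finset.card_univ, Fintype.card_fin]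
  push_cast
  have h6 := card_blocks (b := b) J
  rw [← h6]

/-- the total number of the vectors with partial solutions -/
theorem sum_near (hk : 0 < k) (q : ℕ) :
    (∑ w : WG k b m, ((NearG q w).card : ℝ)) ≤
      2 ^ k * (2 ^ m * Real.exp (-(((q : ℝ) / k) ^ 2 * m / 2))) * (k * 2 ^ b : ℝ) ^ (2 * m) := by
  classical
  have hk0 : (0 : ℝ) < k := by exact_mod_cast hk
  have h1 : ∀ w : WG k b m, ((NearG q w).card : ℝ) ≤
      ∑ J ∈ univ.filter (fun J : Finset (Fin k) => J.card = q),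
        ((univ.filter fun y : Fin m → ZMod 2 =>
          ∀ s, (∀ c, (w (s, c)).1 ∈ J) → y s = 0).card : ℝ) := by
    intro w
    have h2 : NearG q w ⊆ (univ.filter (fun J : Finset (Fin k) => J.card = q)).biUnion fun J =>
        univ.filter fun y : Fin m → ZMod 2 => ∀ s, (∀ c, (w (s, c)).1 ∈ J) → y s = 0 := by
      intro y hy
      obtain ⟨J, hJ, h⟩ := (Finset.mem_filter.mp hy).2
      exact Finset.mem_biUnion.mpr ⟨J, Finset.mem_filter.mpr ⟨mem_univ _, hJ⟩,
        Finset.mem_filter.mpr ⟨mem_univ _, h⟩⟩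
    exact_mod_cast (Finset.card_le_card h2).trans Finset.card_biUnion_le
  refine (Finset.sum_le_sum fun w _ => h1 w).trans ?_
  rw [Finset.sum_comm]
  have h3 : ∀ J ∈ univ.filter (fun J : Finset (Fin k) => J.card = q),
      (∑ w : WG k b m, ((univ.filter fun y : Fin m → ZMod 2 =>
          ∀ s, (∀ c, (w (s, c)).1 ∈ J) → y s = 0).card : ℝ)) ≤
      2 ^ m * Real.exp (-(((q : ℝ) / k) ^ 2 * m / 2)) * (k * 2 ^ b : ℝ) ^ (2 * m) := by
    intro J hJ
    have hJq := (Finset.mem_filter.mp hJ).2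
    have h4 := sum_vanish (b := b) (m := m) J
    rw [hJq] at h4
    refine le_trans (le_of_eq ?_) (le_trans (le_of_eq h4) ?_)
    · refine Finset.sum_congr rfl fun w _ => ?_
      congr!
    · have h5 : 2 * (k * 2 ^ b : ℝ) ^ 2 - (q * 2 ^ b) ^ 2 =
          2 * (k * 2 ^ b : ℝ) ^ 2 * (1 - ((q : ℝ) / k) ^ 2 / 2) := by
        field_simp
      have h6 : 1 - ((q : ℝ) / k) ^ 2 / 2 ≤ Real.exp (-(((q : ℝ) / k) ^ 2 / 2)) := by
        have := Real.add_one_le_exp (-(((q : ℝ) / k) ^ 2 / 2))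
        linarith
      have hqk : (q : ℝ) ≤ k := by
        have h7 : J.card ≤ k := (Finset.card_le_univ J).trans (le_of_eq (Fintype.card_fin k))
        rw [hJq] at h7
        exact_mod_cast h7
      have h7 : 0 ≤ 1 - ((q : ℝ) / k) ^ 2 / 2 := by
        have h8 : (q : ℝ) / k ≤ 1 := (div_le_one hk0).mpr hqk
        have h9 : 0 ≤ (q : ℝ) / k := by positivity
        nlinarith
      rw [h5, mul_pow, mul_pow, ← pow_mul]
      have h8 : (1 - ((q : ℝ) / k) ^ 2 / 2) ^ m ≤ Real.exp (-(((q : ℝ) / k) ^ 2 * m / 2)) := by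
        refine (pow_le_pow_left₀ h7 h6 m).trans (le_of_eq ?_)
        rw [← Real.exp_nat_mul]
        congr 1
        ring
      have h9 : (0 : ℝ) ≤ 2 ^ m * (k * 2 ^ b : ℝ) ^ (2 * m) := by positivity
      calc 2 ^ m * (k * 2 ^ b : ℝ) ^ (2 * m) * (1 - ((q : ℝ) / k) ^ 2 / 2) ^ m
          ≤ 2 ^ m * (k * 2 ^ b : ℝ) ^ (2 * m) * Real.exp (-(((q : ℝ) / k) ^ 2 * m / 2)) :=
            mul_le_mul_of_nonneg_left h8 h9
        _ = _ := by ring
  refine (Finset.sum_le_sum h3).trans ?_
  rw [Finset.sum_const, nsmul_eq_mul, mul_assoc (2 ^ k)]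
  refine mul_le_mul_of_nonneg_right ?_ (by positivity)
  have h4 : (univ.filter fun J : Finset (Fin k) => J.card = q).card ≤ 2 ^ k := by
    refine (Finset.card_le_univ _).trans (le_of_eq ?_)
    rw [Fintype.card_finset, Fintype.card_fin]
  exact_mod_cast h4

/-- the bound for the number of the vectors with partial solutions -/
noncomputable def MM (k m q : ℕ) : ℝ :=
  8 * (2 ^ k * (2 ^ m * Real.exp (-(((q : ℝ) / k) ^ 2 * m / 2))))

open Classical in
theorem card_near_bad (hk : 0 < k) (q : ℕ) :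
    ((univ.filter fun w : WG k b m => ¬ ((NearG q w).card : ℝ) ≤ MM k m q).card : ℝ) ≤
      1 / 8 * (k * 2 ^ b : ℝ) ^ (2 * m) := by
  have hM : 0 < MM k m q := by
    unfold MM
    positivity
  have h1 : ((univ.filter fun w : WG k b m => ¬ ((NearG q w).card : ℝ) ≤ MM k m q).card : ℝ) *
      MM k m q ≤ 1 / 8 * (k * 2 ^ b : ℝ) ^ (2 * m) * MM k m q := by
    rw [← nsmul_eq_mul, ← Finset.sum_const]
    refine (Finset.sum_le_sum fun w hw => (not_le.mp (Finset.mem_filter.mp hw).2).le).trans ?_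
    refine (Finset.sum_le_sum_of_subset_of_nonneg (Finset.filter_subset _ _)
      fun w _ _ => Nat.cast_nonneg _).trans ((sum_near hk q).trans (le_of_eq ?_))
    unfold MM
    ring
  exact le_of_mul_le_mul_right h1 hM

/-- the wirings used -/
def OkayG (d τ q : ℕ) (w : WG k b m) : Prop :=
  NiceG d τ w ∧ Sd.GoodG (⊤ : Submodule (ZMod 2) (GK k b)) {0} (BG w) τ ∧
    ((NearG q w).card : ℝ) ≤ MM k m q

open Classical in
/-- at least half of the wirings can be used -/
theorem card_okayG {C τ : ℕ} (P : Par k b C m τ) (d q : ℕ) (hd : 300 * C * d ≤ k) :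
    1 / 2 * (k * 2 ^ b : ℝ) ^ (2 * m) ≤
      ((univ.filter fun w : WG k b m => OkayG d τ q w).card : ℝ) := by
  have h1 := card_not_niceG P d hd
  have h8 := card_near_bad (b := b) (m := m) P.hk q
  set β : ℝ := 1 / 32 * (1 / 8) ^ τ * (k * 2 ^ b : ℝ) ^ (2 * m) with hβ
  have hβ1 : β ≤ 1 / 32 * (k * 2 ^ b : ℝ) ^ (2 * m) := by
    refine mul_le_mul_of_nonneg_right ?_ (by positivity)
    have h2 : (1 / 8 : ℝ) ^ τ ≤ 1 := pow_le_one₀ (by norm_num) (by norm_num)
    linarith
  have h2 := count_bad (BG (k := k) (b := b) (m := m)) τ β (bad_smallG P) (J := Unit)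
    (fun _ => (⊤ : Submodule (ZMod 2) (GK k b))) (fun _ => {0})
  have h3 : (∑ _j : Unit, ({0} : Finset (Chr (⊤ : Submodule (ZMod 2) (GK k b)))).card ^ 2 *
      (⊤ : Submodule (ZMod 2) (GK k b)).toAddSubgroup.index : ℕ) = 1 := by
    have h4 : (⊤ : Submodule (ZMod 2) (GK k b)).toAddSubgroup = ⊤ := rfl
    rw [Finset.card_singleton, h4, AddSubgroup.index_top]
    rfl
  rw [h3, Nat.cast_one, one_mul] at h2
  have h5 : (univ : Finset (WG k b m)) ⊆ (univ.filter fun w : WG k b m => OkayG d τ q w) ∪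
      ((univ.filter fun w : WG k b m => ¬ NiceG d τ w) ∪
      ((univ.filter fun w : WG k b m => ∃ _j : Unit,
        ¬ Sd.GoodG (⊤ : Submodule (ZMod 2) (GK k b)) {0} (BG w) τ) ∪
      (univ.filter fun w : WG k b m => ¬ ((NearG q w).card : ℝ) ≤ MM k m q))) := by
    intro w _
    by_cases ha : NiceG d τ w
    · by_cases hb : Sd.GoodG (⊤ : Submodule (ZMod 2) (GK k b)) {0} (BG w) τ
      · by_cases hc : ((NearG q w).card : ℝ) ≤ MM k m q
        · exact Finset.mem_union_left _ (Finset.mem_filter.mpr ⟨mem_univ _, ha, hb, hc⟩)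
        · exact Finset.mem_union_right _ (Finset.mem_union_right _ (Finset.mem_union_right _
            (Finset.mem_filter.mpr ⟨mem_univ _, hc⟩)))
      · exact Finset.mem_union_right _ (Finset.mem_union_right _ (Finset.mem_union_left _
          (Finset.mem_filter.mpr ⟨mem_univ _, (), hb⟩)))
    · exact Finset.mem_union_right _ (Finset.mem_union_left _
        (Finset.mem_filter.mpr ⟨mem_univ _, ha⟩))
  have h6 := (Finset.card_le_card h5).trans ((Finset.card_union_le _ _).trans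
    (Nat.add_le_add_left ((Finset.card_union_le _ _).trans
      (Nat.add_le_add_left (Finset.card_union_le _ _) _)) _))
  have h7 : (Fintype.card (WG k b m) : ℝ) ≤
      ((univ.filter fun w : WG k b m => OkayG d τ q w).card : ℝ) +
      (((univ.filter fun w : WG k b m => ¬ NiceG d τ w).card : ℝ) +
      (((univ.filter fun w : WG k b m => ∃ _j : Unit,
        ¬ Sd.GoodG (⊤ : Submodule (ZMod 2) (GK k b)) {0} (BG w) τ).card : ℝ) +
      ((univ.filter fun w : WG k b m => ¬ ((NearG q w).card : ℝ) ≤ MM k m q).card : ℝ))) := by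
    rw [Finset.card_univ] at h6
    exact_mod_cast h6
  rw [card_WG] at h7
  have h9 : (0 : ℝ) ≤ (k * 2 ^ b : ℝ) ^ (2 * m) := by positivity
  linarith

theorem two_pow_le_exp (N : ℕ) : (2 : ℝ) ^ N ≤ Real.exp N := by
  have h3 : (2 : ℝ) ≤ Real.exp 1 := by
    have := Real.add_one_le_exp (1 : ℝ)
    linarith
  refine (pow_le_pow_left₀ (by norm_num) h3 _).trans (le_of_eq ?_)
  rw [← Real.exp_nat_mul, mul_one]

theorem NL_leG {C τ : ℕ} (P : Par k b C m τ) : (NL m τ : ℝ) ≤ Real.exp (k * b * (13 / 50)) := by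
  have hC0 : (1 : ℝ) ≤ C := by exact_mod_cast P.hC
  set x : ℝ := 1 / (4 * C) with hx
  have hx0 : 0 < x := by positivity
  have hx1 : x ≤ 1 := by
    rw [hx, div_le_one (by positivity)]
    linarith
  have h1 := card_light_le m (2 * τ) x hx0 hx1
  have h2 : (1 + x) ^ m ≤ Real.exp (k * b * (1 / 4)) := by
    have h3 : (1 + x) ≤ Real.exp x := by
      rw [add_comm]
      exact Real.add_one_le_exp x
    refine (pow_le_pow_left₀ (by positivity) h3 _).trans (le_of_eq ?_)
    rw [← Real.exp_nat_mul]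
    congr 1
    rw [hx, P.hm]
    push_cast
    field_simp
  have h3 : (x⁻¹) ^ (2 * τ) ≤ Real.exp (k * b * (1 / 100)) := by
    have h4 : x⁻¹ ≤ Real.exp x⁻¹ := by
      have := Real.add_one_le_exp x⁻¹
      linarith
    refine (pow_le_pow_left₀ (by positivity) h4 _).trans ?_
    rw [← Real.exp_nat_mul]
    refine Real.exp_le_exp.mpr ?_
    have h5 : ((1000 * C * τ : ℕ) : ℝ) ≤ ((k * b : ℕ) : ℝ) := by exact_mod_cast P.h1
    push_cast at h5 ⊢
    rw [hx, one_div, inv_inv]
    have h6 : (0 : ℝ) ≤ C * τ := by positivity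
    nlinarith
  have h4 : (NL m τ : ℝ) = (NL m τ : ℝ) * x ^ (2 * τ) * (x⁻¹) ^ (2 * τ) := by
    rw [mul_assoc, ← mul_pow, mul_inv_cancel₀ hx0.ne', one_pow, mul_one]
  rw [h4]
  have h5 : Real.exp ((k : ℝ) * b * (13 / 50)) =
      Real.exp (k * b * (1 / 4)) * Real.exp (k * b * (1 / 100)) := by
    rw [← Real.exp_add]
    congr 1
    ring
  rw [h5]
  exact mul_le_mul (h1.trans h2) h3 (by positivity) (Real.exp_pos _).le

/-- the twists -/
theorem exists_twistG {C τ : ℕ} (P : Par k b C m τ) {d q : ℕ} (hq : 4 * k ^ 2 ≤ C * q ^ 2)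
    (w : WG k b m) (hw : OkayG d τ q w) :
    ∃ e : Fin m → ZMod 2,
      (∀ l : Fin m → ZMod 2, wt l ≤ τ → (∀ h : GK k b, dot l (BG w h) = 0) → dot l e = 0) ∧
      ∀ h, e + BG w h ∉ NearG q w := by
  classical
  have hk0 : (0 : ℝ) < k := by exact_mod_cast P.hk
  let U := Sd.lightU (⊤ : Submodule (ZMod 2) (GK k b)) {0} ⟨0, Finset.mem_singleton_self 0⟩
    (BG w) τ hw.2.1
  have hU : Nat.card U ≤ NL m τ := by
    have h1 : Function.Injective (fun l : U => (⟨l.1, Finset.mem_filter.mpr ⟨mem_univ _,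
        l.2.1.trans (by omega)⟩⟩ : (univ.filter fun l : Fin m → ZMod 2 => wt l ≤ 2 * τ))) :=
      fun a b hab => Subtype.ext (congrArg (fun x => x.1) hab)
    have h2 := Nat.card_le_card_of_injective _ h1
    rw [Nat.card_eq_fintype_card, Nat.card_eq_fintype_card, Fintype.card_coe] at h2
    rw [Nat.card_eq_fintype_card]
    exact h2
  have hc : Nat.card U * (Fintype.card (GK k b) * (NearG q w).card) < 2 ^ m := by
    have h2 : ((Nat.card U * (Fintype.card (GK k b) * (NearG q w).card) : ℕ) : ℝ) <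
        ((2 ^ m : ℕ) : ℝ) := by
      push_cast
      rw [card_GK]
      have h3 : (Nat.card U : ℝ) ≤ Real.exp (k * b * (13 / 50)) :=
        le_trans (by exact_mod_cast hU) (NL_leG P)
      have h4 : (2 : ℝ) ^ (k * b) * (NearG q w).card ≤ Real.exp (k * b) * MM k m q := by
        refine mul_le_mul ?_ hw.2.2 (Nat.cast_nonneg _) (Real.exp_pos _).le
        have := two_pow_le_exp (k * b)
        push_cast at this
        exact this
      refine lt_of_le_of_lt (mul_le_mul h3 h4 (by positivity) (Real.exp_pos _).le) ?_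
      have h5 : Real.exp (-(((q : ℝ) / k) ^ 2 * m / 2)) ≤ Real.exp (-(2 * (k * b))) := by
        refine Real.exp_le_exp.mpr (neg_le_neg ?_)
        rw [P.hm]
        push_cast
        have h6 : ((4 * k ^ 2 : ℕ) : ℝ) ≤ ((C * q ^ 2 : ℕ) : ℝ) := by exact_mod_cast hq
        push_cast at h6
        have h7 : 4 ≤ C * ((q : ℝ) / k) ^ 2 := by
          rw [div_pow, mul_div_assoc', le_div_iff₀ (by positivity)]
          exact h6
        have h8 : (0 : ℝ) ≤ k * b := by positivity
        nlinarith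
      have h6 : (2 : ℝ) ^ k ≤ Real.exp k := two_pow_le_exp k
      have h7 : (8 : ℝ) ≤ Real.exp 7 := by
        have := Real.add_one_le_exp (7 : ℝ)
        linarith
      have h8 : MM k m q ≤ Real.exp 7 * (Real.exp k * (2 ^ m * Real.exp (-(2 * (k * b))))) := by
        unfold MM
        exact mul_le_mul h7 (mul_le_mul h6 (mul_le_mul_of_nonneg_left h5 (by positivity))
          (by positivity) (Real.exp_pos _).le) (by positivity) (Real.exp_pos _).le
      have h9 : Real.exp (k * b * (13 / 50)) * (Real.exp (k * b) * MM k m q) ≤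
          Real.exp (k * b * (13 / 50)) * (Real.exp (k * b) *
            (Real.exp 7 * (Real.exp k * (2 ^ m * Real.exp (-(2 * (k * b))))))) :=
        mul_le_mul_of_nonneg_left (mul_le_mul_of_nonneg_left h8 (Real.exp_pos _).le)
          (Real.exp_pos _).le
      refine lt_of_le_of_lt h9 ?_
      have h10 : Real.exp ((k : ℝ) * b * (13 / 50)) * (Real.exp (k * b) *
          (Real.exp 7 * (Real.exp k * (2 ^ m * Real.exp (-(2 * (k * b))))))) =
          Real.exp (k * b * (13 / 50) + k * b + 7 + k + -(2 * (k * b))) * 2 ^ m := by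
        rw [Real.exp_add, Real.exp_add, Real.exp_add, Real.exp_add]
        ring
      rw [h10]
      have h11 : Real.exp ((k : ℝ) * b * (13 / 50) + k * b + 7 + k + -(2 * (k * b))) < 1 := by
        rw [Real.exp_lt_one_iff]
        have h12 : (1000 : ℝ) ≤ b := by
          have h13 : 1000 ≤ b := by
            have := P.hb
            have := P.hC
            omega
          exact_mod_cast h13
        have h13 : (1 : ℝ) ≤ k := by exact_mod_cast P.hk
        nlinarith
      have h12 : (0 : ℝ) < 2 ^ m := by positivity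
      nlinarith
    exact_mod_cast h2
  obtain ⟨e, h1, h2⟩ := exists_far (BG w) U (NearG q w) hc
  exact ⟨e, fun l hl hadj => h1 l ⟨hl, fun h => hadj h⟩, h2⟩

/-- The family of the systems used: at least half of the wirings, with twists. -/
theorem gap_family {C τ : ℕ} (P : Par k b C m τ) {d q : ℕ} (hd : 300 * C * d ≤ k)
    (hq : 4 * k ^ 2 ≤ C * q ^ 2) :
    ∃ (W : Type) (_ : Fintype W) (_ : Nonempty W) (w : W → WG k b m) (e : W → Fin m → ZMod 2),
      (∀ ψ : Chr (GK k b), (Nat.card {i : W // ∃ l : Fin m → ZMod 2, τ < wt l ∧ wt l ≤ 2 * τ ∧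
        ∀ h, dot l (BG (w i) h) = ψ h} : ℝ) * 8 ^ τ ≤ Nat.card W) ∧
      ∀ i, NiceG d τ (w i) ∧
        (∀ l : Fin m → ZMod 2, wt l ≤ τ → (∀ h : GK k b, dot l (BG (w i) h) = 0) →
          dot l (e i) = 0) ∧
        ∀ h, e i + BG (w i) h ∉ NearG q (w i) := by
  classical
  have hk0 : (0 : ℝ) < k := by exact_mod_cast P.hk
  have hok := card_okayG P d q hd
  have hQ : (0 : ℝ) < (k * 2 ^ b : ℝ) ^ (2 * m) := by positivity
  have hokpos : 0 < (univ.filter fun w : WG k b m => OkayG d τ q w).card := by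
    have h1 : (0 : ℝ) < ((univ.filter fun w : WG k b m => OkayG d τ q w).card : ℝ) :=
      lt_of_lt_of_le (by positivity) hok
    exact_mod_cast h1
  obtain ⟨w0, hw0⟩ := Finset.card_pos.mp hokpos
  choose e he1 he2 using fun w : {w : WG k b m // OkayG d τ q w} => exists_twistG P hq w.1 w.2
  refine ⟨{w : WG k b m // OkayG d τ q w}, inferInstance, ⟨⟨w0, (Finset.mem_filter.mp hw0).2⟩⟩,
    fun i => i.1, e, fun ψ => ?_, fun i => ⟨i.2.1, he1 i, he2 i⟩⟩
  have h1 := bad_smallG P ψ
  have h2 : Nat.card {i : {w : WG k b m // OkayG d τ q w} // ∃ l : Fin m → ZMod 2,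
      τ < wt l ∧ wt l ≤ 2 * τ ∧ ∀ h, dot l (BG i.1 h) = ψ h} ≤
      (univ.filter fun w : WG k b m => ∃ l : Fin m → ZMod 2, τ < wt l ∧ wt l ≤ 2 * τ ∧
        ∀ h, dot l (BG w h) = ψ h).card := by
    let f : {i : {w : WG k b m // OkayG d τ q w} // ∃ l : Fin m → ZMod 2,
        τ < wt l ∧ wt l ≤ 2 * τ ∧ ∀ h, dot l (BG i.1 h) = ψ h} →
        (univ.filter fun w : WG k b m => ∃ l : Fin m → ZMod 2, τ < wt l ∧ wt l ≤ 2 * τ ∧
          ∀ h, dot l (BG w h) = ψ h) := fun i => ⟨i.1.1, Finset.mem_filter.mpr ⟨mem_univ _, i.2⟩⟩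
    have hf : Function.Injective f := fun a b hab => by
      have h3 : a.1.1 = b.1.1 := congrArg (fun x => x.1) hab
      exact Subtype.ext (Subtype.ext h3)
    have h3 := Nat.card_le_card_of_injective f hf
    rw [Nat.card_eq_fintype_card (α := (univ.filter fun w : WG k b m => ∃ l : Fin m → ZMod 2,
      τ < wt l ∧ wt l ≤ 2 * τ ∧ ∀ h, dot l (BG w h) = ψ h)), Fintype.card_coe] at h3
    exact h3
  have h3 : (Nat.card {w : WG k b m // OkayG d τ q w} : ℝ) =
      ((univ.filter fun w : WG k b m => OkayG d τ q w).card : ℝ) := by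
    rw [Nat.card_eq_fintype_card, Fintype.card_subtype]
  have h4 : (Nat.card {i : {w : WG k b m // OkayG d τ q w} // ∃ l : Fin m → ZMod 2,
      τ < wt l ∧ wt l ≤ 2 * τ ∧ ∀ h, dot l (BG i.1 h) = ψ h} : ℝ) ≤
      1 / 32 * (1 / 8) ^ τ * (k * 2 ^ b : ℝ) ^ (2 * m) := le_trans (by exact_mod_cast h2) h1
  refine (mul_le_mul_of_nonneg_right h4 (by positivity)).trans ?_
  rw [h3]
  refine le_trans ?_ hok
  have h5 : (1 / 8 : ℝ) ^ τ * 8 ^ τ = 1 := by
    rw [← mul_pow]
    norm_num
  calc 1 / 32 * (1 / 8) ^ τ * (k * 2 ^ b : ℝ) ^ (2 * m) * 8 ^ τ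
      = 1 / 32 * ((1 / 8) ^ τ * 8 ^ τ) * (k * 2 ^ b : ℝ) ^ (2 * m) := by ring
    _ = 1 / 32 * (k * 2 ^ b : ℝ) ^ (2 * m) := by rw [h5, mul_one]
    _ ≤ 1 / 2 * (k * 2 ^ b : ℝ) ^ (2 * m) := by
        refine mul_le_mul_of_nonneg_right (by norm_num) hQ.le

end Pool.Agent.TH658.Xg
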