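import Pool.Agent.TH658.Xg.Gap3
import Pool.Agent.TH658.Xg.Clq

set_option autoImplicit false
set_option linter.unusedSectionVars false

/-! The graph of a system of equations between blocks of variables. -/

namespace Pool.Agent.TH658.Xg

open Finset Pool.Agent.H30R2.PS Pool.Agent.TH658.Eq Pool.Agent.TH658.Xr Pool.Agent.TH658.Sd

variable {k b m n : ℕ}

/-- the value of the block `j` for two labels -/
def valG (y y' : Pt k b) (j : Fin k) : Fin b → ZMod 2 := if j = y.1 then y.2 else y'.2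

/-- two labels satisfy the equations between their blocks -/
def SatG (w : WG k b m) (t : Fin m → ZMod 2) (y y' : Pt k b) : Prop :=
  ∀ s, (∀ c, (w (s, c)).1 = y.1 ∨ (w (s, c)).1 = y'.1) →
    ∑ c, dot (w (s, c)).2 (valG y y' (w (s, c)).1) = t s

theorem valG_symm {y y' : Pt k b} (hy : y.1 ≠ y'.1) {j : Fin k} (hj : j = y.1 ∨ j = y'.1) :
    valG y' y j = valG y y' j := by
  unfold valG
  rcases hj with rfl | rfl
  · rw [if_neg hy, if_pos rfl]
  · rw [if_pos rfl, if_neg hy.symm]

theorem SatG_symm {w : WG k b m} {t : Fin m → ZMod 2} {y y' : Pt k b} (hy : y.1 ≠ y'.1)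
    (h : SatG w t y y') : SatG w t y' y := by
  intro s hs
  rw [← h s fun c => (hs c).symm]
  exact Finset.sum_congr rfl fun c _ => by rw [valG_symm hy (hs c).symm]

/-- the graph on the labels -/
def blockG (w : WG k b m) (t : Fin m → ZMod 2) : SimpleGraph (Pt k b) where
  Adj y y' := y.1 ≠ y'.1 ∧ SatG w t y y'
  symm := ⟨fun _ _ h => ⟨h.1.symm, SatG_symm h.1 h.2⟩⟩
  loopless := ⟨fun _ h => h.1 rfl⟩

/-- the action of the values of the blocks on the labels -/
def shB (h : GK k b) (y : Pt k b) : Pt k b := (y.1, y.2 + h y.1)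

theorem shB_zero (y : Pt k b) : shB 0 y = y := by
  refine Prod.ext rfl ?_
  show y.2 + 0 = y.2
  rw [add_zero]

theorem shB_add (h h' : GK k b) (y : Pt k b) : shB (h + h') y = shB h (shB h' y) := by
  refine Prod.ext rfl ?_
  show y.2 + (h y.1 + h' y.1) = y.2 + h' y.1 + h y.1
  abel

theorem shB_self (h : GK k b) (y : Pt k b) : shB h (shB h y) = y := by
  rw [← shB_add]
  have h1 : h + h = 0 := funext fun j => funext fun i => zmod2_add_self _
  rw [h1, shB_zero]

/-- the values of the blocks as permutations of the labels -/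
def shBHom : Multiplicative (GK k b) →* Equiv.Perm (Pt k b) where
  toFun h :=
    { toFun := shB h.toAdd
      invFun := shB h.toAdd
      left_inv := shB_self h.toAdd
      right_inv := shB_self h.toAdd }
  map_one' := Equiv.ext fun y => shB_zero y
  map_mul' h h' := Equiv.ext fun y => shB_add h.toAdd h'.toAdd y

theorem SatG_shift (w : WG k b m) (t : Fin m → ZMod 2) (h : GK k b) (y y' : Pt k b) :
    SatG w (t + BG w h) y y' ↔ SatG w t (shB h y) (shB h y') := by
  refine forall_congr' fun s => forall_congr' fun hs => ?_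
  have h1 : ∑ c, dot (w (s, c)).2 (valG (shB h y) (shB h y') (w (s, c)).1) =
      (∑ c, dot (w (s, c)).2 (valG y y' (w (s, c)).1)) + BG w h s := by
    rw [BG_apply, ← Finset.sum_add_distrib]
    refine Finset.sum_congr rfl fun c _ => ?_
    rw [← dot_add]
    congr 1
    show (if (w (s, c)).1 = y.1 then y.2 + h y.1 else y'.2 + h y'.1) =
      (if (w (s, c)).1 = y.1 then y.2 else y'.2) + h (w (s, c)).1
    by_cases hc : (w (s, c)).1 = y.1
    · rw [if_pos hc, if_pos hc, hc]
    · rw [if_neg hc, if_neg hc, (hs c).resolve_left hc]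
  rw [h1]
  have h2 : ∀ a b c : ZMod 2, a = b + c ↔ a + c = b := by decide
  exact h2 _ _ _

theorem blockG_shift (w : WG k b m) (t : Fin m → ZMod 2) (h : GK k b) (y y' : Pt k b) :
    (blockG w (t + BG w h)).Adj y y' ↔ (blockG w t).Adj (shB h y) (shB h y') := by
  show (y.1 ≠ y'.1 ∧ SatG w (t + BG w h) y y') ↔ (y.1 ≠ y'.1 ∧ SatG w t (shB h y) (shB h y'))
  rw [SatG_shift]

/-- the hard graphs -/
def hardB (ι : Pt k b ↪ Fin n) (w : WG k b m) (t : Fin m → ZMod 2) : SimpleGraph (Fin n) :=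
  (blockG w t).map ι

/-- the values of the blocks as permutations of the vertices -/
noncomputable def phiB (ι : Pt k b ↪ Fin n) : Multiplicative (GK k b) →* Equiv.Perm (Fin n) :=
  (Equiv.Perm.viaEmbeddingHom ι).comp shBHom

theorem phiB_apply (ι : Pt k b ↪ Fin n) (h : GK k b) (y : Pt k b) :
    phiB ι (Multiplicative.ofAdd h) (ι y) = ι (shB h y) :=
  Equiv.Perm.viaEmbedding_apply _ ι y

theorem hardB_equi (ι : Pt k b ↪ Fin n) (w : WG k b m) (t : Fin m → ZMod 2) (h : GK k b) :
    hardB ι w (t + BG w h) = phiB ι (Multiplicative.ofAdd h) • hardB ι w t := by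
  ext u v
  rw [smul_adj]
  unfold hardB
  rw [SimpleGraph.map_adj, SimpleGraph.map_adj]
  constructor
  · rintro ⟨y, y', hy, rfl, rfl⟩
    refine ⟨shB h y, shB h y', (blockG_shift w t h y y').mp hy, ?_, ?_⟩
    · rw [eq_comm, Equiv.Perm.inv_eq_iff_eq, phiB_apply, shB_self]
    · rw [eq_comm, Equiv.Perm.inv_eq_iff_eq, phiB_apply, shB_self]
  · rintro ⟨z, z', hz, h1, h2⟩
    refine ⟨shB h z, shB h z', (blockG_shift w t h _ _).mpr ?_, ?_, ?_⟩
    · rw [shB_self, shB_self]
      exact hz
    · rw [← phiB_apply, h1]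
      exact Equiv.apply_symm_apply _ u
    · rw [← phiB_apply, h2]
      exact Equiv.apply_symm_apply _ v

/-- the solvable case -/
theorem clique_hardB (ι : Pt k b ↪ Fin n) (w : WG k b m) (h : GK k b) :
    HasClique k (hardB ι w (BG w h)) := by
  refine ⟨fun j => ι (j, h j), fun i j hij => ?_⟩
  unfold hardB
  rw [SimpleGraph.map_adj]
  refine ⟨(i, h i), (j, h j), ⟨hij, fun s hs => ?_⟩, rfl, rfl⟩
  rw [BG_apply]
  refine Finset.sum_congr rfl fun c _ => ?_
  congr 1
  show (if (w (s, c)).1 = i then h i else h j) = h (w (s, c)).1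
  by_cases hc : (w (s, c)).1 = i
  · rw [if_pos hc, hc]
  · rw [if_neg hc, (hs c).resolve_left hc]

/-- a clique gives a partial solution -/
theorem partial_of_clique {q : ℕ} (hq : 2 ≤ q) (ι : Pt k b ↪ Fin n) (w : WG k b m)
    (t : Fin m → ZMod 2) (hc : HasClique q (hardB ι w t)) :
    ∃ h, t + BG w h ∈ NearG q w := by
  classical
  obtain ⟨c, hc⟩ := hc
  have hother : ∀ i : Fin q, ∃ j, i ≠ j := by
    intro i
    have : Nontrivial (Fin q) := Fin.nontrivial_iff_two_le.mpr hq
    obtain ⟨j, hj⟩ := exists_ne i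
    exact ⟨j, hj.symm⟩
  -- the labels
  have h1 : ∀ i, ∃ y, ι y = c i := by
    intro i
    obtain ⟨j, hj⟩ := hother i
    have h2 := hc i j hj
    unfold hardB at h2
    rw [SimpleGraph.map_adj] at h2
    obtain ⟨y, _, _, hy, _⟩ := h2
    exact ⟨y, hy⟩
  choose y hy using h1
  have hadj : ∀ i j, i ≠ j → (blockG w t).Adj (y i) (y j) := by
    intro i j hij
    have h2 := hc i j hij
    unfold hardB at h2
    rw [← hy i, ← hy j, SimpleGraph.map_adj] at h2
    obtain ⟨z, z', hz, h3, h4⟩ := h2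
    rw [ι.injective h3, ι.injective h4] at hz
    exact hz
  have hinj : Function.Injective fun i => (y i).1 := by
    intro i j hij
    by_contra hn
    exact (hadj i j hn).1 hij
  let h : GK k b := Function.extend (fun i => (y i).1) (fun i => (y i).2) 0
  have hh : ∀ i, h (y i).1 = (y i).2 := fun i => hinj.extend_apply _ _ i
  refine ⟨h, Finset.mem_filter.mpr ⟨mem_univ _, univ.image fun i => (y i).1, ?_, ?_⟩⟩
  · rw [Finset.card_image_of_injective _ hinj, Finset.card_univ, Fintype.card_fin]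
  · intro s hs
    obtain ⟨i, _, hi⟩ := Finset.mem_image.mp (hs 0)
    obtain ⟨i', _, hi'⟩ := Finset.mem_image.mp (hs 1)
    obtain ⟨j, hij, hj⟩ : ∃ j, i ≠ j ∧ ((w (s, 1)).1 = (y i).1 ∨ (w (s, 1)).1 = (y j).1) := by
      by_cases hii : i = i'
      · obtain ⟨j, hj⟩ := hother i
        exact ⟨j, hj, Or.inl (by rw [hii]; exact hi'.symm)⟩
      · exact ⟨i', hii, Or.inr hi'.symm⟩
    have hcond : ∀ c, (w (s, c)).1 = (y i).1 ∨ (w (s, c)).1 = (y j).1 := by
      intro c
      fin_cases c
      · exact Or.inl hi.symm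
      · exact hj
    have h2 := (hadj i j hij).2 s hcond
    have h3 : ∑ c, dot (w (s, c)).2 (valG (y i) (y j) (w (s, c)).1) = BG w h s := by
      rw [BG_apply]
      refine Finset.sum_congr rfl fun c _ => ?_
      congr 1
      show (if (w (s, c)).1 = (y i).1 then (y i).2 else (y j).2) = h (w (s, c)).1
      by_cases hc : (w (s, c)).1 = (y i).1
      · rw [if_pos hc, hc, hh]
      · rw [if_neg hc, (hcond c).resolve_left hc, hh]
    rw [h3] at h2
    show t s + BG w h s = 0
    rw [h2]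
    exact zmod2_add_self _

/-- local functions have low degree -/
theorem low_graphB {K : Type} [Field K] (h2 : (2 : K) ≠ 0) (ι : Pt k b ↪ Fin n)
    (w : WG k b m) (d τ : ℕ) (hw : NiceG d τ w) (f : SimpleGraph (Fin n) → K)
    (hf : f ∈ LocalGraph n d K) :
    (fun t => f (hardB ι w t)) ∈ Sp K {l : Fin m → ZMod 2 | wt l ≤ τ} := by
  classical
  refine Submodule.span_induction
    (p := fun f _ => (fun t => f (hardB ι w t)) ∈
      Sp K {l : Fin m → ZMod 2 | wt l ≤ τ}) ?_ ?_ ?_ ?_ hf
  · rintro f ⟨D, hD, hf⟩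
    -- the groups of the vertices in `D`
    let J : Finset (Fin k) := (univ.filter fun y : Pt k b => ι y ∈ D).image fun y => y.1
    have hJ : J.card ≤ d := by
      refine Finset.card_image_le.trans (le_trans ?_ hD)
      refine Finset.card_le_card_of_injOn ι ?_ (fun _ _ _ _ h => ι.injective h)
      intro y hy
      exact (Finset.mem_filter.mp (Finset.mem_coe.mp hy)).2
    refine Sp_mono (fun l hl => (wt_le_of_supp l _ hl).trans (hw J hJ)) (junta h2 _ _ ?_)
    intro t t' htt
    refine hf _ _ fun u hu v hv => ?_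
    have hJm : ∀ y : Pt k b, ι y ∈ D → y.1 ∈ J := fun y hy =>
      Finset.mem_image.mpr ⟨y, Finset.mem_filter.mpr ⟨mem_univ _, hy⟩, rfl⟩
    have hfit : ∀ y y' : Pt k b, ι y ∈ D → ι y' ∈ D → (SatG w t y y' ↔ SatG w t' y y') := by
      intro y y' hy hy'
      refine forall_congr' fun s => forall_congr' fun hs => ?_
      rw [htt s (Finset.mem_filter.mpr ⟨mem_univ _, fun c => ?_⟩)]
      rcases hs c with h | h
      · rw [h]
        exact hJm y hy
      · rw [h]
        exact hJm y' hy'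
    unfold hardB
    rw [SimpleGraph.map_adj, SimpleGraph.map_adj]
    refine exists_congr fun y => exists_congr fun y' => ?_
    constructor
    · rintro ⟨h3, h4, h5⟩
      have hy : ι y ∈ D := by rw [h4]; exact hu
      have hy' : ι y' ∈ D := by rw [h5]; exact hv
      exact ⟨⟨h3.1, (hfit y y' hy hy').mp h3.2⟩, h4, h5⟩
    · rintro ⟨h3, h4, h5⟩
      have hy : ι y ∈ D := by rw [h4]; exact hu
      have hy' : ι y' ∈ D := by rw [h5]; exact hv
      exact ⟨⟨h3.1, (hfit y y' hy hy').mpr h3.2⟩, h4, h5⟩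
  · exact Submodule.zero_mem _
  · intro f g _ _ h3 h4
    exact Submodule.add_mem _ h3 h4
  · intro c f _ h3
    exact Submodule.smul_mem _ c h3

/-- The average case bound for approximating cliques. -/
theorem gap_average {C τ q d : ℕ} (P : Par k b C m τ) (hn : k * 2 ^ b ≤ n)
    (hd : 300 * C * d ≤ k) (hq2 : 2 ≤ q) (hq : 4 * k ^ 2 ≤ C * q ^ 2) :
    ∃ (Ω : Type) (_ : Fintype Ω) (_ : Nonempty Ω) (F G : Ω → SimpleGraph (Fin n)),
      (∀ ω, HasClique k (F ω) ∧ ¬ HasClique q (G ω)) ∧
      ∀ (s : ℕ) (V : Type) (v : Fin s → SimpleGraph (Fin n) → V)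
        (H : Fin s → Subgroup (Equiv.Perm (Fin n))) (r p : Fin s → ℕ),
        IsProgram (Equiv.Perm (Fin n)) (LocalGraph n d) v H r p → ∀ (j₀ : Fin s) (T : Set V),
        |(Nat.card {ω // v j₀ (F ω) ∈ T} : ℝ) - Nat.card {ω // v j₀ (G ω) ∈ T}| *
          8 ^ τ ≤ ((∑ j, r j ^ p j * (H j).index : ℕ) : ℝ) * Nat.card Ω := by
  classical
  have hcard : Fintype.card (Pt k b) ≤ Fintype.card (Fin n) := by
    rw [Fintype.card_prod, Fintype.card_fun, ZMod.card, Fintype.card_fin, Fintype.card_fin,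
      Fintype.card_fin]
    exact hn
  obtain ⟨ι⟩ := Function.Embedding.nonempty_of_card_le hcard
  obtain ⟨W, i1, i2, w, e, hβ, hw⟩ := gap_family P hd hq
  refine ⟨W × GK k b, inferInstance, inferInstance,
    fun ω => hardB ι (w ω.1) (BG (w ω.1) ω.2),
    fun ω => hardB ι (w ω.1) (BG (w ω.1) ω.2 + e ω.1), fun ω => ?_, ?_⟩
  · refine ⟨clique_hardB ι _ _, fun hc => ?_⟩
    obtain ⟨h, hh⟩ := partial_of_clique hq2 ι _ _ hc
    have h1 : BG (w ω.1) ω.2 + e ω.1 + BG (w ω.1) h = e ω.1 + BG (w ω.1) (ω.2 + h) := by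
      rw [map_add, add_comm (BG (w ω.1) ω.2) (e ω.1), add_assoc]
    rw [h1] at hh
    exact (hw ω.1).2.2 _ hh
  · intro s V v H r p hp j₀ T
    exact average_core (W := W) (fun i => BG (w i)) τ (Nat.card W / 8 ^ τ) (8 ^ τ)
      (by positivity) (fun ψ => by
        rw [le_div_iff₀ (by positivity)]
        exact hβ ψ) (by rw [div_mul_cancel₀ _ (by positivity)]) (phiB ι)
      (fun i t => hardB ι (w i) t) (fun i t h => hardB_equi ι (w i) t h) e
      (fun i => (hw i).2.1) (LocalGraph n d)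
      (fun K iK g f hf => localGraph_inv K g f hf)
      (fun K iK h2 i f hf => low_graphB h2 ι (w i) d τ (hw i).1 f hf) v H r p hp j₀ T

end Pool.Agent.TH658.Xg
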