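import Pool.Agent.TH658.Xg.Seth

set_option autoImplicit false
set_option linter.unusedSectionVars false

/-! Orthogonal vectors: instances, symmetries, and the hard instances. -/

namespace Pool.Agent.TH658.Xg

open Finset Pool.Agent.H30R2.PS Pool.Agent.TH658.Eq Pool.Agent.TH658.Xr

/-- Two lists `A`, `B` of `N` vectors in `{0, 1}^d`. -/
@[ext]
structure OV (N d : ℕ) where
  /-- the first list -/
  A : Fin N → Fin d → Bool
  /-- the second list -/
  B : Fin N → Fin d → Bool

section defs

variable {N d : ℕ}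

/-- The permutations of the first list, of the second list and of the coordinates. -/
abbrev SymOV (N d : ℕ) := Equiv.Perm (Fin N) × Equiv.Perm (Fin N) × Equiv.Perm (Fin d)

instance ovAct : MulAction (SymOV N d) (OV N d) where
  smul g x := ⟨fun u c => x.A (g.1⁻¹ u) (g.2.2⁻¹ c), fun u c => x.B (g.2.1⁻¹ u) (g.2.2⁻¹ c)⟩
  one_smul _ := rfl
  mul_smul g h x := by
    refine OV.ext ?_ ?_
    · funext u c
      show x.A ((g.1 * h.1)⁻¹ u) ((g.2.2 * h.2.2)⁻¹ c) = x.A (h.1⁻¹ (g.1⁻¹ u)) (h.2.2⁻¹ (g.2.2⁻¹ c))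
      rw [mul_inv_rev, mul_inv_rev]
      rfl
    · funext u c
      show x.B ((g.2.1 * h.2.1)⁻¹ u) ((g.2.2 * h.2.2)⁻¹ c) =
        x.B (h.2.1⁻¹ (g.2.1⁻¹ u)) (h.2.2⁻¹ (g.2.2⁻¹ c))
      rw [mul_inv_rev, mul_inv_rev]
      rfl

/-- The inner product of the `u`-th vector of `A` and the `v`-th vector of `B`. -/
noncomputable def inner (x : OV N d) (u v : Fin N) : ℕ :=
  Nat.card {c : Fin d // x.A u c = true ∧ x.B v c = true}

/-- There are a vector of `A` and a vector of `B` which are orthogonal. -/
def HasPair (x : OV N d) : Prop := ∃ u v, inner x u v = 0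

/-- The vectors of `A` are distinct, and so are the vectors of `B`. -/
def Valid (x : OV N d) : Prop := Function.Injective x.A ∧ Function.Injective x.B

/-- The span of the functions of an instance which depend only on at most `D` coordinates of the
vectors. -/
def LocalOV (N d D : ℕ) (K : Type) [Field K] : Submodule K (OV N d → K) :=
  Submodule.span K {f | ∃ J : Finset (Fin d), J.card ≤ D ∧ ∀ x x' : OV N d,
    (∀ u, ∀ c ∈ J, x.A u c = x'.A u c ∧ x.B u c = x'.B u c) → f x = f x'}

end defs

theorem localOV_inv {N d D : ℕ} (K : Type) [Field K] (g : SymOV N d) (f : OV N d → K)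
    (hf : f ∈ LocalOV N d D K) : (fun x => f (g • x)) ∈ LocalOV N d D K := by
  classical
  refine Submodule.span_induction (p := fun f _ => (fun x => f (g • x)) ∈ LocalOV N d D K)
    ?_ ?_ ?_ ?_ hf
  · rintro f ⟨J, hJ, hf⟩
    refine Submodule.subset_span ⟨J.image (g.2.2⁻¹ : Equiv.Perm (Fin d)),
      Finset.card_image_le.trans hJ, fun x x' h => hf _ _ fun u c hc => ?_⟩
    exact ⟨(h _ _ (Finset.mem_image_of_mem _ hc)).1, (h _ _ (Finset.mem_image_of_mem _ hc)).2⟩
  · exact Submodule.zero_mem _
  · intro f f' _ _ h h'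
    exact Submodule.add_mem _ h h'
  · intro c f _ h
    exact Submodule.smul_mem _ c h

section hom

variable {Γ Y : Type} [AddGroup Γ]

/-- the homomorphism given by an action -/
def homOf (f : Γ → Y → Y) (h0 : ∀ y, f 0 y = y) (ha : ∀ a b y, f (a + b) y = f a (f b y)) :
    Multiplicative Γ →* Equiv.Perm Y where
  toFun a :=
    { toFun := f (Multiplicative.toAdd a)
      invFun := f (-Multiplicative.toAdd a)
      left_inv := fun y => by rw [← ha, neg_add_cancel, h0]
      right_inv := fun y => by rw [← ha, add_neg_cancel, h0] }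
  map_one' := Equiv.ext fun y => h0 y
  map_mul' _ _ := Equiv.ext fun y => ha _ _ y

theorem homOf_inv (f : Γ → Y → Y) (h0 : ∀ y, f 0 y = y)
    (ha : ∀ a b y, f (a + b) y = f a (f b y)) (a : Γ) (y : Y) :
    (homOf f h0 ha (Multiplicative.ofAdd a))⁻¹ y = f (-a) y := rfl

end hom

variable {q k : ℕ}

/-- coordinates: the clauses, and two coordinates for each variable -/
abbrev JJ (q k : ℕ) := Cl (q + q) k ⊕ (Fin (q + q) × ZMod 2)

/-- no literal of the clause with variable in the first half is true -/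
def PartA (c : Cl (q + q) k) (x : Fin q → ZMod 2) : Prop :=
  ∀ a i, (c a).1 = Fin.castAdd q i → x i ≠ (c a).2

/-- no literal of the clause with variable in the second half is true -/
def PartB (c : Cl (q + q) k) (x : Fin q → ZMod 2) : Prop :=
  ∀ a i, (c a).1 = Fin.natAdd q i → x i ≠ (c a).2

theorem isFalse_append (c : Cl (q + q) k) (x y : Fin q → ZMod 2) :
    IsFalse c (Fin.append x y) ↔ PartA c x ∧ PartB c y := by
  constructor
  · intro h
    refine ⟨fun a i hi => ?_, fun a i hi => ?_⟩
    · have h1 := h a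
      rwa [hi, Fin.append_left] at h1
    · have h1 := h a
      rwa [hi, Fin.append_right] at h1
  · rintro ⟨h1, h2⟩ a
    rcases Nat.lt_or_ge (c a).1.1 q with h | h
    · have h3 : (c a).1 = Fin.castAdd q ⟨(c a).1.1, h⟩ := Fin.ext rfl
      have h4 := h1 a _ h3
      rw [h3, Fin.append_left]
      exact h4
    · have h3 : (c a).1 = Fin.natAdd q ⟨(c a).1.1 - q, by omega⟩ := by
        refine Fin.ext ?_
        show (c a).1.1 = q + ((c a).1.1 - q)
        omega
      have h4 := h2 a _ h3
      rw [h3, Fin.append_right]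
      exact h4

/-- the value of a coordinate in the first list -/
def entA (F : CNF (q + q) k) (x : Fin q → ZMod 2) (j : JJ q k) : Prop :=
  match j with
  | Sum.inl c => F c ≠ 0 ∧ PartA c x
  | Sum.inr p => ∃ i, p.1 = Fin.castAdd q i ∧ x i = p.2

/-- the value of a coordinate in the second list -/
def entB (y : Fin q → ZMod 2) (j : JJ q k) : Prop :=
  match j with
  | Sum.inl c => PartB c y
  | Sum.inr p => ∃ i, p.1 = Fin.natAdd q i ∧ y i = p.2

/-- the left half of a sign change -/
def lh (h : Fin (q + q) → ZMod 2) : Fin q → ZMod 2 := fun i => h (Fin.castAdd q i)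

/-- the right half of a sign change -/
def rh (h : Fin (q + q) → ZMod 2) : Fin q → ZMod 2 := fun i => h (Fin.natAdd q i)

/-- the action on the coordinates -/
def flipJ (h : Fin (q + q) → ZMod 2) (j : JJ q k) : JJ q k :=
  match j with
  | Sum.inl c => Sum.inl (flipCl h c)
  | Sum.inr p => Sum.inr (p.1, p.2 + h p.1)

theorem flipJ_zero (j : JJ q k) : flipJ 0 j = j := by
  rcases j with c | p
  · show Sum.inl (flipCl 0 c) = _
    congr 1
    funext a
    show ((c a).1, (c a).2 + 0) = c a
    rw [add_zero]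
  · show Sum.inr (p.1, p.2 + 0) = _
    rw [add_zero]

theorem flipJ_add (h h' : Fin (q + q) → ZMod 2) (j : JJ q k) :
    flipJ (h + h') j = flipJ h (flipJ h' j) := by
  rcases j with c | p
  · show Sum.inl (flipCl (h + h') c) = Sum.inl (flipCl h (flipCl h' c))
    congr 1
    funext a
    show ((c a).1, (c a).2 + (h (c a).1 + h' (c a).1)) =
      ((c a).1, (c a).2 + h' (c a).1 + h (c a).1)
    rw [add_assoc, add_comm (h (c a).1)]
  · show Sum.inr (p.1, p.2 + (h p.1 + h' p.1)) = Sum.inr (p.1, p.2 + h' p.1 + h p.1)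
    rw [add_assoc, add_comm (h p.1)]

theorem entA_flip (h : Fin (q + q) → ZMod 2) (F : CNF (q + q) k) (x : Fin q → ZMod 2)
    (j : JJ q k) : entA (flip h F) x j ↔ entA F (x + lh h) (flipJ h j) := by
  have h3 : ∀ a b c : ZMod 2, a + c ≠ b + c ↔ a ≠ b := by decide
  have h4 : ∀ a b c : ZMod 2, a + c = b + c ↔ a = b := by decide
  rcases j with c | p
  · show (F (flipCl h c) ≠ 0 ∧ PartA c x) ↔ (F (flipCl h c) ≠ 0 ∧ PartA (flipCl h c) (x + lh h))
    refine and_congr_right fun _ => ?_
    refine forall_congr' fun a => forall_congr' fun i => forall_congr' fun hi => ?_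
    show x i ≠ (c a).2 ↔ x i + h (Fin.castAdd q i) ≠ (c a).2 + h (c a).1
    rw [hi, h3]
  · show (∃ i, p.1 = Fin.castAdd q i ∧ x i = p.2) ↔
      ∃ i, p.1 = Fin.castAdd q i ∧ x i + h (Fin.castAdd q i) = p.2 + h p.1
    refine exists_congr fun i => and_congr_right fun hi => ?_
    rw [hi, h4]

theorem entB_flip (h : Fin (q + q) → ZMod 2) (y : Fin q → ZMod 2) (j : JJ q k) :
    entB y j ↔ entB (y + rh h) (flipJ h j) := by
  have h3 : ∀ a b c : ZMod 2, a + c ≠ b + c ↔ a ≠ b := by decide
  have h4 : ∀ a b c : ZMod 2, a + c = b + c ↔ a = b := by decide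
  rcases j with c | p
  · show PartB c y ↔ PartB (flipCl h c) (y + rh h)
    refine forall_congr' fun a => forall_congr' fun i => forall_congr' fun hi => ?_
    show y i ≠ (c a).2 ↔ y i + h (Fin.natAdd q i) ≠ (c a).2 + h (c a).1
    rw [hi, h3]
  · show (∃ i, p.1 = Fin.natAdd q i ∧ y i = p.2) ↔
      ∃ i, p.1 = Fin.natAdd q i ∧ y i + h (Fin.natAdd q i) = p.2 + h p.1
    refine exists_congr fun i => and_congr_right fun hi => ?_
    rw [hi, h4]

/-- number of the coordinates -/
def dOV (q k : ℕ) : ℕ := (4 * q) ^ k + 4 * q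

theorem card_half : Fintype.card (Fin q → ZMod 2) = 2 ^ q := by
  rw [Fintype.card_fun, ZMod.card, Fintype.card_fin]

theorem card_JJ : Fintype.card (JJ q k) = dOV q k := by
  rw [Fintype.card_sum, Fintype.card_fun, Fintype.card_prod, Fintype.card_fin, Fintype.card_fin,
    ZMod.card]
  unfold dOV
  have h1 : (q + q) * 2 = 4 * q := by ring
  rw [h1]

/-- the numbering of the vectors -/
noncomputable def eN (q : ℕ) : Fin (2 ^ q) ≃ (Fin q → ZMod 2) :=
  (Fintype.equivFinOfCardEq card_half).symm

/-- the numbering of the coordinates -/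
noncomputable def eJ (q k : ℕ) : Fin (dOV q k) ≃ JJ q k :=
  (Fintype.equivFinOfCardEq card_JJ).symm

open Classical in
/-- the instance of a formula -/
noncomputable def instOV (F : CNF (q + q) k) : OV (2 ^ q) (dOV q k) where
  A u c := decide (entA F (eN q u) (eJ q k c))
  B u c := decide (entB (eN q u) (eJ q k c))

/-- the sign changes as permutations -/
noncomputable def phiOV (q k : ℕ) :
    Multiplicative (Fin (q + q) → ZMod 2) →* SymOV (2 ^ q) (dOV q k) :=
  (homOf (fun h u => (eN q).symm (eN q u + lh h))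
    (fun u => by
      show (eN q).symm (eN q u + 0) = u
      rw [add_zero, Equiv.symm_apply_apply])
    (fun a b u => by
      show (eN q).symm (eN q u + (lh a + lh b)) = (eN q).symm (eN q ((eN q).symm (eN q u + lh b))
        + lh a)
      rw [Equiv.apply_symm_apply, add_assoc, add_comm (lh a)])).prod
  ((homOf (fun h u => (eN q).symm (eN q u + rh h))
    (fun u => by
      show (eN q).symm (eN q u + 0) = u
      rw [add_zero, Equiv.symm_apply_apply])
    (fun a b u => by
      show (eN q).symm (eN q u + (rh a + rh b)) = (eN q).symm (eN q ((eN q).symm (eN q u + rh b))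
        + rh a)
      rw [Equiv.apply_symm_apply, add_assoc, add_comm (rh a)])).prod
  (homOf (fun h c => (eJ q k).symm (flipJ h (eJ q k c)))
    (fun c => by
      show (eJ q k).symm (flipJ 0 (eJ q k c)) = c
      rw [flipJ_zero, Equiv.symm_apply_apply])
    (fun a b c => by
      show (eJ q k).symm (flipJ (a + b) (eJ q k c)) =
        (eJ q k).symm (flipJ a (eJ q k ((eJ q k).symm (flipJ b (eJ q k c)))))
      rw [Equiv.apply_symm_apply, flipJ_add])))

theorem neg_self (h : Fin (q + q) → ZMod 2) : -h = h :=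
  funext fun i => (by decide : ∀ a : ZMod 2, -a = a) (h i)

theorem instOV_flip (h : Fin (q + q) → ZMod 2) (F : CNF (q + q) k) :
    instOV (flip h F) = phiOV q k (Multiplicative.ofAdd h) • instOV F := by
  classical
  have h1 : ∀ u, ((phiOV q k (Multiplicative.ofAdd h)).1⁻¹ : Equiv.Perm _) u =
      (eN q).symm (eN q u + lh h) := by
    intro u
    show (eN q).symm (eN q u + lh (-h)) = _
    rw [neg_self]
  have h2 : ∀ u, ((phiOV q k (Multiplicative.ofAdd h)).2.1⁻¹ : Equiv.Perm _) u =
      (eN q).symm (eN q u + rh h) := by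
    intro u
    show (eN q).symm (eN q u + rh (-h)) = _
    rw [neg_self]
  have h3 : ∀ c, ((phiOV q k (Multiplicative.ofAdd h)).2.2⁻¹ : Equiv.Perm _) c =
      (eJ q k).symm (flipJ h (eJ q k c)) := by
    intro c
    show (eJ q k).symm (flipJ (-h) (eJ q k c)) = _
    rw [neg_self]
  refine OV.ext ?_ ?_
  · funext u c
    show decide (entA (flip h F) (eN q u) (eJ q k c)) =
      (instOV F).A ((phiOV q k (Multiplicative.ofAdd h)).1⁻¹ u)
        ((phiOV q k (Multiplicative.ofAdd h)).2.2⁻¹ c)
    rw [h1, h3]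
    show _ = decide (entA F (eN q ((eN q).symm (eN q u + lh h)))
      (eJ q k ((eJ q k).symm (flipJ h (eJ q k c)))))
    rw [Equiv.apply_symm_apply, Equiv.apply_symm_apply]
    exact decide_eq_decide.mpr (entA_flip h F _ _)
  · funext u c
    show decide (entB (eN q u) (eJ q k c)) =
      (instOV F).B ((phiOV q k (Multiplicative.ofAdd h)).2.1⁻¹ u)
        ((phiOV q k (Multiplicative.ofAdd h)).2.2⁻¹ c)
    rw [h2, h3]
    show _ = decide (entB (eN q ((eN q).symm (eN q u + rh h)))
      (eJ q k ((eJ q k).symm (flipJ h (eJ q k c)))))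
    rw [Equiv.apply_symm_apply, Equiv.apply_symm_apply]
    exact decide_eq_decide.mpr (entB_flip h _ _)

end Pool.Agent.TH658.Xg
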