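import Pool.Agent.TH658.Xg.OV

set_option autoImplicit false
set_option linter.unusedSectionVars false

/-! Orthogonal vectors: properties of the hard instances and the average case bound. -/

namespace Pool.Agent.TH658.Xg

open Finset Pool.Agent.H30R2.PS Pool.Agent.TH658.Eq Pool.Agent.TH658.Xr

variable {q k m : ℕ}

theorem instA (F : CNF (q + q) k) (u : Fin (2 ^ q)) (c : Fin (dOV q k)) :
    (instOV F).A u c = true ↔ entA F (eN q u) (eJ q k c) := by
  classical
  exact decide_eq_true_iff

theorem instB (F : CNF (q + q) k) (u : Fin (2 ^ q)) (c : Fin (dOV q k)) :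
    (instOV F).B u c = true ↔ entB (eN q u) (eJ q k c) := by
  classical
  exact decide_eq_true_iff

theorem valid_inst (F : CNF (q + q) k) : Valid (instOV F) := by
  constructor
  · intro u u' h
    refine (eN q).injective (funext fun i => ?_)
    have h1 := congrFun h ((eJ q k).symm (Sum.inr (Fin.castAdd q i, eN q u i)))
    have h2 : (instOV F).A u ((eJ q k).symm (Sum.inr (Fin.castAdd q i, eN q u i))) = true := by
      rw [instA, Equiv.apply_symm_apply]
      exact ⟨i, rfl, rfl⟩
    rw [h1, instA, Equiv.apply_symm_apply] at h2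
    obtain ⟨i', h3, h4⟩ := h2
    have h5 : i = i' := Fin.castAdd_injective q q h3
    rw [h5]
    rw [h5] at h4
    exact h4.symm
  · intro u u' h
    refine (eN q).injective (funext fun i => ?_)
    have h1 := congrFun h ((eJ q k).symm (Sum.inr (Fin.natAdd q i, eN q u i)))
    have h2 : (instOV F).B u ((eJ q k).symm (Sum.inr (Fin.natAdd q i, eN q u i))) = true := by
      rw [instB, Equiv.apply_symm_apply]
      exact ⟨i, rfl, rfl⟩
    rw [h1, instB, Equiv.apply_symm_apply] at h2
    obtain ⟨i', h3, h4⟩ := h2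
    have h5 : i = i' := Fin.natAdd_injective q q h3
    rw [h5]
    rw [h5] at h4
    exact h4.symm

theorem append_halves (z : Fin (q + q) → ZMod 2) : Fin.append (lh z) (rh z) = z := by
  funext v
  rcases Nat.lt_or_ge v.1 q with h | h
  · have h3 : v = Fin.castAdd q ⟨v.1, h⟩ := Fin.ext rfl
    rw [h3, Fin.append_left]
    rfl
  · have h3 : v = Fin.natAdd q ⟨v.1 - q, by omega⟩ := by
      refine Fin.ext ?_
      show v.1 = q + (v.1 - q)
      omega
    rw [h3, Fin.append_right]
    rfl

theorem pair_of_sat (F : CNF (q + q) k) (h : Satisfiable F) : HasPair (instOV F) := by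
  obtain ⟨z, hz⟩ := h
  refine ⟨(eN q).symm (lh z), (eN q).symm (rh z), ?_⟩
  have h1 : IsEmpty {c : Fin (dOV q k) // (instOV F).A ((eN q).symm (lh z)) c = true ∧
      (instOV F).B ((eN q).symm (rh z)) c = true} := by
    refine ⟨?_⟩
    rintro ⟨c, h1, h2⟩
    rw [instA, Equiv.apply_symm_apply] at h1
    rw [instB, Equiv.apply_symm_apply] at h2
    rcases hc : eJ q k c with cl | p
    · rw [hc] at h1 h2
      refine hz cl h1.1 ?_
      have h3 := (isFalse_append cl (lh z) (rh z)).mpr ⟨h1.2, h2⟩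
      rwa [append_halves] at h3
    · rw [hc] at h1 h2
      obtain ⟨i, h3, _⟩ := h1
      obtain ⟨i', h4, _⟩ := h2
      have h5 : (Fin.castAdd q i).1 = (Fin.natAdd q i').1 := by rw [← h3, h4]
      have h6 : i.1 = q + i'.1 := h5
      have h7 := i.2
      omega
  exact Nat.card_of_isEmpty

theorem inner_ge (w : WX (q + q) k m) (hw : Distinct w) (t : Fin m → ZMod 2) (u v : Fin (2 ^ q)) :
    wt (t + BX w (Fin.append (eN q u) (eN q v))) ≤ inner (instOV (hardF w t)) u v := by
  classical
  refine (falsified_hardF w t _).trans ?_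
  unfold falsified
  have h1 : ∑ c ∈ univ.filter (fun c => IsFalse c (Fin.append (eN q u) (eN q v))), hardF w t c ≤
      (univ.filter fun c : Cl (q + q) k => IsFalse c (Fin.append (eN q u) (eN q v)) ∧
        hardF w t c ≠ 0).card := by
    rw [← Finset.filter_filter, Finset.card_filter]
    refine Finset.sum_le_sum fun c _ => ?_
    split_ifs with h
    · exact hardF_le_one w hw t c
    · rw [not_not] at h
      exact h.le
  refine le_trans (le_trans (le_of_eq (by congr!)) h1) ?_
  unfold inner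
  rw [Nat.card_eq_fintype_card, Fintype.card_subtype]
  refine Finset.card_le_card_of_injOn (fun c => (eJ q k).symm (Sum.inl c)) ?_ ?_
  · intro c hc
    obtain ⟨h2, h3⟩ := (Finset.mem_filter.mp (Finset.mem_coe.mp hc)).2
    have h4 := (isFalse_append c _ _).mp h2
    refine Finset.mem_coe.mpr (Finset.mem_filter.mpr ⟨mem_univ _, ?_, ?_⟩)
    · rw [instA, Equiv.apply_symm_apply]
      exact ⟨h3, h4.1⟩
    · rw [instB, Equiv.apply_symm_apply]
      exact h4.2
  · intro c _ c' _ h
    exact Sum.inl_injective ((eJ q k).symm.injective h)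

theorem low_ov {K : Type} [Field K] (h2 : (2 : K) ≠ 0) (w : WX (q + q) k m) (d0 D τ : ℕ)
    (hD : k * D ≤ d0) (hw : Nice d0 τ w) (f : OV (2 ^ q) (dOV q k) → K)
    (hf : f ∈ LocalOV (2 ^ q) (dOV q k) D K) :
    (fun t => f (instOV (hardF w t))) ∈ Sp K {l : Fin m → ZMod 2 | wt l ≤ τ} := by
  classical
  refine Submodule.span_induction
    (p := fun f _ => (fun t => f (instOV (hardF w t))) ∈
      Sp K {l : Fin m → ZMod 2 | wt l ≤ τ}) ?_ ?_ ?_ ?_ hf
  · rintro f ⟨J, hJ, hf⟩
    -- the variables of the clauses of the coordinates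
    let vars : Fin (dOV q k) → Finset (Fin (q + q)) := fun c =>
      match eJ q k c with
      | Sum.inl cl => univ.image fun a => (cl a).1
      | Sum.inr _ => ∅
    have hvars : ∀ c, (vars c).card ≤ k := by
      intro c
      show (match eJ q k c with
        | Sum.inl cl => univ.image fun a => (cl a).1
        | Sum.inr _ => (∅ : Finset (Fin (q + q)))).card ≤ k
      split
      · exact Finset.card_image_le.trans (le_of_eq (Finset.card_fin k))
      · exact Nat.zero_le _
    let DD : Finset (Fin (q + q)) := J.biUnion vars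
    have hDD : DD.card ≤ d0 := by
      refine Finset.card_biUnion_le.trans ((Finset.sum_le_sum fun c _ => hvars c).trans ?_)
      rw [Finset.sum_const, smul_eq_mul, mul_comm]
      exact (Nat.mul_le_mul_left _ hJ).trans hD
    refine Sp_mono (fun l hl => (wt_le_of_supp l _ hl).trans (hw DD hDD)) (junta h2 _ _ ?_)
    intro t t' htt
    refine hf _ _ fun u c hc => ⟨?_, rfl⟩
    rw [Bool.eq_iff_iff, instA, instA]
    rcases hcl : eJ q k c with cl | p
    · have h3 : hardF w t cl = hardF w t' cl := by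
        unfold hardF
        congr 1
        refine Finset.filter_congr fun i _ => and_congr_right fun hv => ?_
        rw [htt i (Finset.mem_filter.mpr ⟨mem_univ _, fun a => ?_⟩)]
        rw [← hv a]
        refine Finset.mem_biUnion.mpr ⟨c, hc, ?_⟩
        show (cl a).1 ∈ (match eJ q k c with
          | Sum.inl cl => univ.image fun a => (cl a).1
          | Sum.inr _ => (∅ : Finset (Fin (q + q))))
        rw [hcl]
        exact Finset.mem_image_of_mem _ (mem_univ a)
      show (hardF w t cl ≠ 0 ∧ PartA cl (eN q u)) ↔ (hardF w t' cl ≠ 0 ∧ PartA cl (eN q u))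
      rw [h3]
    · exact Iff.rfl
  · exact Submodule.zero_mem _
  · intro f g _ _ h3 h4
    exact Submodule.add_mem _ h3 h4
  · intro c f _ h3
    exact Submodule.smul_mem _ c h3

/-- The average case bound for orthogonal vectors. -/
theorem ov_average {ε η : ℝ} {C k q D : ℕ} (hε : 0 < ε) (hε1 : ε ≤ 1) (hη : 0 < η) (hη1 : η ≤ 1)
    (hC : 4 / η ^ 2 ≤ C) (hk : 1024 * C * (C + 2) / ε ^ 3 ≤ k)
    (hq : 1024 * C / ε ^ 2 ≤ ((q + q : ℕ) : ℝ)) (hD : (k * D : ℝ) ≤ (1 - ε) * ((q + q : ℕ) : ℝ)) :
    ∃ (Ω : Type) (_ : Fintype Ω) (_ : Nonempty Ω) (F G : Ω → OV (2 ^ q) (dOV q k)),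
      (∀ ω, Valid (F ω) ∧ Valid (G ω) ∧ HasPair (F ω) ∧
        ∀ u v, (1 - η) * (C * (q + q) : ℕ) < 2 * (inner (G ω) u v : ℝ)) ∧
      ∀ (s : ℕ) (V : Type) (v : Fin s → OV (2 ^ q) (dOV q k) → V)
        (H : Fin s → Subgroup (SymOV (2 ^ q) (dOV q k))) (r p : Fin s → ℕ),
        IsProgram (SymOV (2 ^ q) (dOV q k)) (LocalOV (2 ^ q) (dOV q k) D) v H r p →
        ∀ (j₀ : Fin s) (T : Set V),
        |(Nat.card {ω // v j₀ (F ω) ∈ T} : ℝ) - Nat.card {ω // v j₀ (G ω) ∈ T}| *
          (2 : ℝ) ^ ((1 - ε) * ((q + q : ℕ) : ℝ)) ≤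
          ((∑ j, r j ^ p j * (H j).index : ℕ) : ℝ) * Nat.card Ω := by
  classical
  obtain ⟨τ, W, i1, i2, ww, e, β, h1, h2, h3, h4, h5⟩ :=
    seth_family (n := q + q) hε hε1 hη hη1 hC hk hq
  refine ⟨W × GX (q + q), inferInstance, inferInstance,
    fun ω => instOV (hardF (ww ω.1) (BX (ww ω.1) ω.2)),
    fun ω => instOV (hardF (ww ω.1) (BX (ww ω.1) ω.2 + e ω.1)), fun ω => ?_, ?_⟩
  · refine ⟨valid_inst _, valid_inst _, pair_of_sat _ (sat_hardF _ _), fun u v => ?_⟩
    have h6 := inner_ge (ww ω.1) (h1 ω.1).2 (BX (ww ω.1) ω.2 + e ω.1) u v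
    have h7 : BX (ww ω.1) ω.2 + e ω.1 + BX (ww ω.1) (Fin.append (eN q u) (eN q v)) =
        e ω.1 + BX (ww ω.1) (ω.2 + Fin.append (eN q u) (eN q v)) := by
      rw [map_add]
      abel
    rw [h7] at h6
    refine (h5 ω.1 (ω.2 + Fin.append (eN q u) (eN q v))).trans_le ?_
    have h8 : ((wt (e ω.1 + BX (ww ω.1) (ω.2 + Fin.append (eN q u) (eN q v))) : ℕ) : ℝ) ≤
        ((inner (instOV (hardF (ww ω.1) (BX (ww ω.1) ω.2 + e ω.1))) u v : ℕ) : ℝ) := by
      exact_mod_cast h6
    linarith
  · intro s V v H r p hp j₀ T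
    refine average_core (W := W) (fun w => BX (ww w)) τ β _
      (Real.rpow_pos_of_pos (by norm_num) _) h2 h3 (phiOV q k)
      (fun w t => instOV (hardF (ww w) t)) ?_ e h4 (LocalOV (2 ^ q) (dOV q k) D)
      (fun K iK g f hf => localOV_inv K g f hf)
      (fun K iK h2 w f hf => low_ov h2 (ww w) _ D τ ?_ (h1 w).1 f hf) v H r p hp j₀ T
    · intro w t h
      show instOV (hardF (ww w) (t + BX (ww w) h)) = _
      rw [hardF_equi, instOV_flip]
    · refine Nat.le_floor ?_
      push_cast
      push_cast at hD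
      exact hD

end Pool.Agent.TH658.Xg
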