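import Pool.Agent.TH658.Xr.Uni

set_option autoImplicit false
set_option linter.unusedSectionVars false

/-! Programs for arbitrary inputs on which a finite group acts. -/

namespace Pool.Agent.TH658.Xg

open Finset Pool.Agent.H30R2.PS Pool.Agent.TH658.Eq Pool.Agent.TH658.Xr

section defs

variable {𝔊 : Type} [Group 𝔊] {s : ℕ} {X V : Type} [MulAction 𝔊 X]

/-- The functions which the `j`-th gate may use as entries of its matrices: linear combinations
of functions in `L` and of functions of the value of one earlier gate at a transform of the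
input by an element of the group `𝔊`. -/
def Usable (𝔊 : Type) [Group 𝔊] [MulAction 𝔊 X] (K : Type) [Field K] (L : Submodule K (X → K))
    (v : Fin s → X → V) (j : Fin s) : Submodule K (X → K) :=
  L ⊔ Submodule.span K {f | ∃ i, i < j ∧ ∃ (g : 𝔊) (φ : V → K), f = fun x => φ (v i (g • x))}

/-- The elements of `H` act on the matrices by the changes of basis `ρ h`. -/
def IsEquivariant {Y K : Type} [Field K] {r : ℕ} (H : Subgroup 𝔊) (σ : K →+* K)
    (c : Y → Bool × Bool) (M : X → Y → Mat K r) (ρ : H →* Inv K r) : Prop :=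
  ∀ (h : H) (x : X) (y : Y), M ((h : 𝔊) • x) y = mv σ (c y) (ρ h) (M x y)

/-- A gate computing a function of the isomorphism class of an `r`-dimensional vector space with
endomorphisms and sesquilinear forms `M x y`, on which the group `H` acts by a linear
representation `ρ`. -/
def ClassGate (K : Type) [Field K] (H : Subgroup 𝔊) (r : ℕ) (U : Submodule K (X → K))
    (v : X → V) : Prop :=
  ∃ (Y : Type) (σ : K →+* K) (c : Y → Bool × Bool) (M : X → Y → Mat K r) (ρ : H →* Inv K r),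
    EntriesInX U M ∧ IsEquivariant H σ c M ρ ∧ IsClassFunctionX σ c M v

/-- Each element of `H` acts on the matrices by some conjugation. -/
def IsConjugated {Y K : Type} [Field K] {r : ℕ} (H : Subgroup 𝔊) (M : X → Y → Mat K r) : Prop :=
  ∀ h ∈ H, ∃ q : Inv K r, ∀ (x : X) (y : Y), M (h • x) y = q.1 * M x y * q⁻¹.1

/-- A gate computing a function of the traces of the products of `r × r` matrices `M x y`, such
that each element of `H` acts on them by some conjugation. -/
def TraceGate (K : Type) [Field K] (H : Subgroup 𝔊) (r : ℕ) (U : Submodule K (X → K))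
    (v : X → V) : Prop :=
  ∃ (Y : Type) (M : X → Y → Mat K r), EntriesInX U M ∧ IsConjugated H M ∧ IsTraceFunctionX M v

/-- `v` is a program with groups `H j`, dimensions `r j` and costs `r j ^ p j * [𝔊 : H j]`. The
entries of the matrices of the `j`-th gate are linear combinations of functions in `L K` and of
functions of the value of one earlier gate at a transform of the input. -/
def IsProgram (𝔊 : Type) [Group 𝔊] [MulAction 𝔊 X]
    (L : ∀ (K : Type) [Field K], Submodule K (X → K)) (v : Fin s → X → V)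
    (H : Fin s → Subgroup 𝔊) (r p : Fin s → ℕ) : Prop :=
  ∀ j, 0 < r j ∧ ∃ (K : Type) (_ : Field K), (2 : K) ≠ 0 ∧
    ((p j = 2 ∧ ClassGate K (H j) (r j) (Usable 𝔊 K (L K) v j) (v j)) ∨
     (p j = 4 ∧ TraceGate K (H j) (r j) (Usable 𝔊 K (L K) v j) (v j)))

end defs

section inv

variable {𝔊 : Type} [Group 𝔊] {s : ℕ} {X V : Type} [MulAction 𝔊 X]

theorem prod_conj {Y K : Type} [Field K] {r : ℕ} (q : Inv K r) (A : Y → Mat K r) (l : List Y) :
    (l.map fun y => q.1 * A y * q⁻¹.1).prod = q.1 * (l.map A).prod * q⁻¹.1 := by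
  induction l with
  | nil =>
    rw [List.map_nil, List.prod_nil, List.map_nil, List.prod_nil, mul_one, ← Units.val_mul,
      mul_inv_cancel, Units.val_one]
  | cons y l ih =>
    rw [List.map_cons, List.prod_cons, List.map_cons, List.prod_cons, ih]
    have h1 : q⁻¹.1 * q.1 = 1 := by
      rw [← Units.val_mul, inv_mul_cancel, Units.val_one]
    calc q.1 * A y * q⁻¹.1 * (q.1 * (l.map A).prod * q⁻¹.1)
        = q.1 * A y * (q⁻¹.1 * q.1) * (l.map A).prod * q⁻¹.1 := by
          simp only [mul_assoc]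
      _ = q.1 * (A y * (l.map A).prod) * q⁻¹.1 := by
          rw [h1, mul_one]
          simp only [mul_assoc]

/-- the value of a gate is invariant under its group -/
theorem gate_inv (L : ∀ (K : Type) [Field K], Submodule K (X → K)) (v : Fin s → X → V)
    (H : Fin s → Subgroup 𝔊) (r p : Fin s → ℕ) (hp : IsProgram 𝔊 L v H r p) (j : Fin s)
    (h : 𝔊) (hh : h ∈ H j) (x : X) : v j (h • x) = v j x := by
  obtain ⟨_, K, iK, _, hg⟩ := hp j
  rcases hg with ⟨_, Y, σ, c, M, ρ, _, hsym, hcl⟩ | ⟨_, Y, M, _, hsym, hcl⟩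
  · exact (hcl x (h • x) ⟨ρ ⟨h, hh⟩, fun y => hsym ⟨h, hh⟩ x y⟩).symm
  · obtain ⟨q, hq⟩ := hsym h hh
    refine (hcl x (h • x) fun l => ?_).symm
    have h1 : l.map (M (h • x)) = l.map fun y => q.1 * M x y * q⁻¹.1 :=
      List.map_congr_left fun y _ => hq x y
    rw [h1, prod_conj, Matrix.trace_units_conj]

end inv

section orbits

variable {𝔊 : Type} [Group 𝔊] [Finite 𝔊] {Γ : Type} [AddCommGroup Γ] [Module (ZMod 2) Γ]
  [Fintype Γ]

/-- the elements of `Γ` fixing the coset of `g` -/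
def fixer (φ : Multiplicative Γ →* 𝔊) (H : Subgroup 𝔊) (g : 𝔊) : AddSubgroup Γ where
  carrier := {γ | g⁻¹ * φ (Multiplicative.ofAdd γ) * g ∈ H}
  zero_mem' := by
    show g⁻¹ * φ (Multiplicative.ofAdd 0) * g ∈ H
    rw [ofAdd_zero, map_one, mul_one, inv_mul_cancel]
    exact H.one_mem
  add_mem' := by
    intro a b ha hb
    show g⁻¹ * φ (Multiplicative.ofAdd (a + b)) * g ∈ H
    have h1 : g⁻¹ * φ (Multiplicative.ofAdd (a + b)) * g =
        (g⁻¹ * φ (Multiplicative.ofAdd a) * g) * (g⁻¹ * φ (Multiplicative.ofAdd b) * g) := by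
      rw [ofAdd_add, map_mul]
      group
    rw [h1]
    exact H.mul_mem ha hb
  neg_mem' := by
    intro a ha
    show g⁻¹ * φ (Multiplicative.ofAdd (-a)) * g ∈ H
    have h1 : g⁻¹ * φ (Multiplicative.ofAdd (-a)) * g =
        (g⁻¹ * φ (Multiplicative.ofAdd a) * g)⁻¹ := by
      rw [ofAdd_neg, map_inv]
      group
    rw [h1]
    exact H.inv_mem ha

/-- the orbits of `Γ` on the cosets -/
theorem exists_reps (φ : Multiplicative Γ →* 𝔊) (H : Subgroup 𝔊) :
    ∃ (Ω : Type) (_ : Fintype Ω) (rep : Ω → 𝔊),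
      (∀ g : 𝔊, ∃ (o : Ω) (γ : Γ), g⁻¹ * φ (Multiplicative.ofAdd γ) * rep o ∈ H) ∧
      (∃ o : Ω, rep o = 1) ∧ ∑ o, (fixer φ H (rep o)).index = H.index := by
  classical
  let act : MulAction (Multiplicative Γ) (𝔊 ⧸ H) := MulAction.compHom (𝔊 ⧸ H) φ
  have hact : ∀ (γ : Multiplicative Γ) (g : 𝔊), γ • (g : 𝔊 ⧸ H) = ((φ γ * g : 𝔊) : 𝔊 ⧸ H) :=
    fun γ g => rfl
  let Ω := MulAction.orbitRel.Quotient (Multiplicative Γ) (𝔊 ⧸ H)
  have hfin : Finite (𝔊 ⧸ H) := inferInstance
  have hΩ : Finite Ω := Quotient.finite _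
  have : Fintype Ω := Fintype.ofFinite Ω
  let o1 : Ω := Quotient.mk'' ((1 : 𝔊) : 𝔊 ⧸ H)
  have hrep : ∀ o : Ω, ∃ g : 𝔊, (Quotient.mk'' (g : 𝔊 ⧸ H) : Ω) = o ∧ (o = o1 → g = 1) := by
    intro o
    by_cases ho : o = o1
    · exact ⟨1, ho.symm, fun _ => rfl⟩
    · obtain ⟨c, hc⟩ := Quotient.exists_rep o
      obtain ⟨g, rfl⟩ := QuotientGroup.mk_surjective c
      exact ⟨g, hc, fun h => absurd h ho⟩
  choose rep hrep1 hrep2 using hrep
  refine ⟨Ω, inferInstance, rep, ?_, ⟨o1, hrep2 o1 rfl⟩, ?_⟩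
  · intro g
    let o : Ω := Quotient.mk'' (g : 𝔊 ⧸ H)
    have h1 : (Quotient.mk'' (rep o : 𝔊 ⧸ H) : Ω) = Quotient.mk'' (g : 𝔊 ⧸ H) := hrep1 o
    have h2 := Quotient.eq''.mp h1.symm
    have h3 : (g : 𝔊 ⧸ H) ∈ MulAction.orbit (Multiplicative Γ) (rep o : 𝔊 ⧸ H) :=
      MulAction.orbitRel_apply.mp h2
    obtain ⟨γ, hγ⟩ := h3
    refine ⟨o, Multiplicative.toAdd γ, ?_⟩
    have h4 : ((φ γ * rep o : 𝔊) : 𝔊 ⧸ H) = (g : 𝔊 ⧸ H) := hγ
    have h5 := QuotientGroup.eq.mp h4.symm
    rw [ofAdd_toAdd, mul_assoc]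
    exact h5
  · have e := MulAction.selfEquivSigmaOrbitsQuotientStabilizer' (Multiplicative Γ) (𝔊 ⧸ H)
      (φ := fun o => (rep o : 𝔊 ⧸ H)) (fun o => hrep1 o)
    have h1 : H.index = Nat.card (𝔊 ⧸ H) := rfl
    rw [h1, Nat.card_congr e, Nat.card_sigma]
    refine Finset.sum_congr rfl fun o _ => ?_
    have h2 : (fixer φ H (rep o)).index =
        (MulAction.stabilizer (Multiplicative Γ) (rep o : 𝔊 ⧸ H)).index := by
      have h3 : AddSubgroup.toSubgroup (fixer φ H (rep o)) =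
          MulAction.stabilizer (Multiplicative Γ) (rep o : 𝔊 ⧸ H) := by
        ext γ
        rw [MulAction.mem_stabilizer_iff, hact, eq_comm, QuotientGroup.eq]
        show (rep o)⁻¹ * φ γ * rep o ∈ H ↔ _
        rw [mul_assoc]
      rw [← h3, AddSubgroup.index_toSubgroup]
    rw [h2]
    rfl

end orbits

end Pool.Agent.TH658.Xg
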