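import Pool.Agent.TH658.Xg.Avg
import Pool.Agent.TH658.Xr.Core

set_option autoImplicit false
set_option linter.unusedSectionVars false

/-! The random systems of equations for which exhaustive search is optimal. -/

namespace Pool.Agent.TH658.Xg

open Finset Pool.Agent.H30R2.PS Pool.Agent.TH658.Eq Pool.Agent.TH658.Xr

theorem seth_family {ε η : ℝ} {C k n : ℕ} (hε : 0 < ε) (hε1 : ε ≤ 1) (hη : 0 < η) (hη1 : η ≤ 1)
    (hC : 4 / η ^ 2 ≤ C) (hk : 1024 * C * (C + 2) / ε ^ 3 ≤ k) (hn : 1024 * C / ε ^ 2 ≤ n) :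
    ∃ (τ : ℕ) (W : Type) (_ : Fintype W) (_ : Nonempty W) (ww : W → WX n k (C * n))
      (e : W → Fin (C * n) → ZMod 2) (β : ℝ),
      (∀ w, Nice ⌊(1 - ε) * n⌋₊ τ (ww w) ∧ Distinct (ww w)) ∧
      (∀ ψ : Chr (GX n), (Nat.card {w : W // ∃ l : Fin (C * n) → ZMod 2, τ < wt l ∧
        wt l ≤ 2 * τ ∧ ∀ h, dot l (BX (ww w) h) = ψ h} : ℝ) ≤ β) ∧
      β * (2 : ℝ) ^ ((1 - ε) * n) ≤ Nat.card W ∧
      (∀ w, ∀ l : Fin (C * n) → ZMod 2, wt l ≤ τ → (∀ h : GX n, dot l (BX (ww w) h) = 0) →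
        dot l (e w) = 0) ∧
      ∀ w y, (1 - η) * (C * n : ℕ) < 2 * (wt (e w + BX (ww w) y) : ℝ) := by
  classical
  obtain ⟨hn0, τ, hP1, hP2, hP3⟩ := params hε hε1 hη hη1 hC hk hn
  have hnR : (0 : ℝ) < n := by exact_mod_cast hn0
  have hη2 : η ^ 2 ≤ 1 := by nlinarith
  have hη20 : 0 < η ^ 2 := by positivity
  have hC4 : (4 : ℝ) ≤ C := by
    refine le_trans ?_ hC
    rw [le_div_iff₀ hη20]
    linarith
  have hε3 : ε ^ 3 ≤ 1 := pow_le_one₀ hε.le hε1
  have hε2 : ε ^ 2 ≤ 1 := pow_le_one₀ hε.le hε1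
  have hk4R : (4 : ℝ) ≤ k := by
    refine le_trans ?_ hk
    rw [le_div_iff₀ (by positivity)]
    nlinarith
  have hk4 : 4 ≤ k := by exact_mod_cast hk4R
  have hnC : (1024 : ℝ) * C ≤ n := by
    refine le_trans ?_ hn
    rw [le_div_iff₀ (by positivity)]
    nlinarith
  set m := C * n with hm
  set d0 := ⌊(1 - ε) * n⌋₊ with hd0
  have hd0' : (d0 : ℝ) ≤ (1 - ε) * n := Nat.floor_le (mul_nonneg (by linarith) hnR.le)
  set P : ℝ := (2 : ℝ) ^ ((1 - ε) * n) with hP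
  have hPpos : 0 < P := Real.rpow_pos_of_pos (by norm_num) _
  have hP1' : 1 ≤ P := Real.one_le_rpow (by norm_num) (mul_nonneg (by linarith) hnR.le)
  have hnk : (0 : ℝ) < (n : ℝ) ^ (k * m) := by positivity
  set β : ℝ := (NL m τ : ℝ) * (2 * (1 + Real.exp (-(2 * (k * τ : ℕ) / n))) ^ n / 2 ^ n *
    (n : ℝ) ^ (k * m)) with hβdef
  have hβ : ∀ ψ : Chr (GX n), ((univ.filter fun w : WX n k m => ∃ l : Fin m → ZMod 2,
      τ < wt l ∧ wt l ≤ 2 * τ ∧ ∀ h, dot l (BX w h) = ψ h).card : ℝ) ≤ β := fun ψ =>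
    bad_le hn0 τ ψ
  have hβP : β * P ≤ 1 / 8 * (n : ℝ) ^ (k * m) := by
    have h1 : β * P = (NL m τ : ℝ) * (2 * (1 + Real.exp (-(2 * (k * τ : ℕ) / n))) ^ n / 2 ^ n) *
        P * (n : ℝ) ^ (k * m) := by
      rw [hβdef]
      ring
    rw [h1]
    exact mul_le_mul_of_nonneg_right hP1 hnk.le
  have hβ0 : 0 ≤ β := le_trans (Nat.cast_nonneg _) (hβ 0)
  have hβ1 : β ≤ 1 / 8 * (n : ℝ) ^ (k * m) := by
    refine le_trans ?_ hβP
    exact le_mul_of_one_le_right hβ0 hP1'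
  have hnice : ((univ.filter fun w : WX n k m => ¬ Nice d0 τ w).card : ℝ) ≤
      1 / 4 * (n : ℝ) ^ (k * m) :=
    (card_not_nice d0 τ (1 - ε) hd0' (by linarith) (by linarith)).trans
      (mul_le_mul_of_nonneg_right hP2 hnk.le)
  have hok := card_okay hnice hβ hβ1
  have hdist : (m : ℝ) ^ 2 / n ^ k ≤ 1 / 4 := by
    have h1 : (n : ℝ) ^ 4 ≤ n ^ k := by
      refine pow_le_pow_right₀ ?_ hk4
      nlinarith
    have h2 : (m : ℝ) = C * n := by
      rw [hm]
      push_cast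
      rfl
    rw [div_le_div_iff₀ (by positivity) (by norm_num), h2]
    have h3 : ((C : ℝ) * n) ^ 2 * 4 ≤ n ^ 4 := by
      have h4 : (4 : ℝ) * C ^ 2 ≤ n ^ 2 := by nlinarith
      have h5 : ((C : ℝ) * n) ^ 2 * 4 = 4 * C ^ 2 * n ^ 2 := by ring
      rw [h5]
      have h6 : (4 : ℝ) * C ^ 2 * n ^ 2 ≤ n ^ 2 * n ^ 2 :=
        mul_le_mul_of_nonneg_right h4 (by positivity)
      calc (4 : ℝ) * C ^ 2 * n ^ 2 ≤ n ^ 2 * n ^ 2 := h6
        _ = n ^ 4 := by ring
    linarith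
  have hdist' : ((univ.filter fun w : WX n k m => ¬ Distinct w).card : ℝ) ≤
      1 / 4 * (n : ℝ) ^ (k * m) :=
    (card_not_distinct hn0).trans (mul_le_mul_of_nonneg_right hdist hnk.le)
  have hok2 : 1 / 4 * (n : ℝ) ^ (k * m) ≤
      ((univ.filter fun w : WX n k m => Okay d0 τ w ∧ Distinct w).card : ℝ) := by
    have h1 : (univ.filter fun w : WX n k m => Okay d0 τ w) ⊆
        (univ.filter fun w : WX n k m => Okay d0 τ w ∧ Distinct w) ∪
        (univ.filter fun w : WX n k m => ¬ Distinct w) := by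
      intro w hw
      have h2 := (Finset.mem_filter.mp hw).2
      by_cases h3 : Distinct w
      · exact Finset.mem_union_left _ (Finset.mem_filter.mpr ⟨mem_univ _, h2, h3⟩)
      · exact Finset.mem_union_right _ (Finset.mem_filter.mpr ⟨mem_univ _, h3⟩)
    have h2 := (Finset.card_le_card h1).trans (Finset.card_union_le _ _)
    have h3 : ((univ.filter fun w : WX n k m => Okay d0 τ w).card : ℝ) ≤
        ((univ.filter fun w : WX n k m => Okay d0 τ w ∧ Distinct w).card : ℝ) +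
        ((univ.filter fun w : WX n k m => ¬ Distinct w).card : ℝ) := by exact_mod_cast h2
    linarith
  have hokpos : 0 < (univ.filter fun w : WX n k m => Okay d0 τ w ∧ Distinct w).card := by
    have h1 : (0 : ℝ) < ((univ.filter fun w : WX n k m => Okay d0 τ w ∧ Distinct w).card : ℝ) :=
      lt_of_lt_of_le (by positivity) hok2
    exact_mod_cast h1
  obtain ⟨w0, hw0⟩ := Finset.card_pos.mp hokpos
  choose e he1 he2 using fun w : {w : WX n k m // Okay d0 τ w ∧ Distinct w} =>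
    exists_twist hη w.1 w.2.1 hP3
  refine ⟨τ, {w : WX n k m // Okay d0 τ w ∧ Distinct w}, inferInstance,
    ⟨⟨w0, (Finset.mem_filter.mp hw0).2⟩⟩, fun w => w.1, e, β, fun w => ⟨w.2.1.1, w.2.2⟩, ?_, ?_,
    he1, he2⟩
  · intro ψ
    refine le_trans ?_ (hβ ψ)
    rw [Nat.card_eq_fintype_card, Fintype.card_subtype]
    have h1 : (univ.filter fun w : {w : WX n k m // Okay d0 τ w ∧ Distinct w} =>
        ∃ l : Fin m → ZMod 2, τ < wt l ∧ wt l ≤ 2 * τ ∧ ∀ h, dot l (BX w.1 h) = ψ h).card ≤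
        (univ.filter fun w : WX n k m => ∃ l : Fin m → ZMod 2, τ < wt l ∧ wt l ≤ 2 * τ ∧
          ∀ h, dot l (BX w h) = ψ h).card := by
      refine Finset.card_le_card_of_injOn (fun w => w.1) ?_ ?_
      · intro w hw
        exact Finset.mem_coe.mpr (Finset.mem_filter.mpr ⟨mem_univ _,
          (Finset.mem_filter.mp (Finset.mem_coe.mp hw)).2⟩)
      · intro w _ w' _ h
        exact Subtype.ext h
    exact_mod_cast h1
  · rw [Nat.card_eq_fintype_card, Fintype.card_subtype]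
    refine le_trans ?_ hok2
    refine hβP.trans ?_
    refine mul_le_mul_of_nonneg_right (by norm_num) hnk.le

end Pool.Agent.TH658.Xg
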